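import Mathlib
import Pool.Agent.H69.M6b.Trans
import Pool.Agent.H69.W.Box

set_option autoImplicit false
set_option linter.unusedSectionVars false
open Finset

/-! # Transits of a box -/

namespace Pool.Agent.H69.W.World

open Pool.Agent.H69.M6b Pool.Agent.H69.M6b.World

open Pool.Agent.H81.G1

variable {κ : Type*} {N : ℕ} {Y : Net κ} {τ : Fin N → κ} {c0 w h : ℕ} {cl : ℕ → Fin N}
  {T : ℕ → ℕ → κ}




lemma QP_Qb {Mu : ℕ → ℕ} {k : κ} (hk : QP τ w h cl Mu k) : Qb τ w cl k := by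
  obtain ⟨i, hi, e, -⟩ := hk
  exact ⟨i, hi, e⟩

section
variable (V : World Y τ c0 w h cl T) {s : κ → Bool} {Mu Md M : ℕ → ℕ}
include V

lemma QP_iff {Mu : ℕ → ℕ} {i : ℕ} (hi : i < w) : QP τ w h cl Mu (τ (cl i)) ↔ isP w h Mu i := by
  constructor
  · rintro ⟨i', hi', e, hp⟩
    have := V.clinj hi hi' (V.τinj e)
    rw [this]; exact hp
  · intro hp; exact ⟨i, hi, rfl, hp⟩

omit V in
lemma Au_AB : Bx' (Tu T h) w 0 h ⊆ Bx' T w 0 (2 * h) := by
  rintro x ⟨i, hi, j, -, hj, e⟩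
  exact ⟨i, hi, h + j, Nat.zero_le _, by omega, e⟩

omit V in
lemma Ad_AB : Bx' T w 0 h ⊆ Bx' T w 0 (2 * h) := by
  rintro x ⟨i, hi, j, -, hj, e⟩
  exact ⟨i, hi, j, Nat.zero_le _, by omega, e⟩

lemma AB_Qb {z : κ × Dir} (hz : z ∈ Bx' T w 0 (2 * h)) : ¬ Qb τ w cl z.1 := by
  obtain ⟨i, hi, j, -, hj, e⟩ := hz
  rw [e]; exact V.T_Qb hi hj

lemma AB_row {z : κ × Dir} (hz : z ∈ Bx' T w 0 (2 * h)) (c : Fin N) : z.1 ≠ τ c := by
  obtain ⟨i, hi, j, -, hj, e⟩ := hz
  rw [e]; exact V.Trow i hi j hj c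

lemma row_AB (c : Fin N) (d : Dir) : (τ c, d) ∉ Bx' T w 0 (2 * h) := fun hz =>
  V.AB_row hz c rfl

/-- a strand above the row -/
lemma up_path (hM : Mats Y τ w h cl T s Mu Md M) {Q : κ → Prop} (hQ : ∀ k, Q k → Qb τ w cl k)
    {k : ℕ} (hk : k < 2 * (h + w)) : ∃ n, 0 < n ∧ Pn (ps Y s Q) (Y.dt s) (Bx' T w 0 (2 * h)) n
      (se (Tu T h) w h k) (pas Y Q (Y.π (se (Tu T h) w h (Mu k))))
      (tt (h + w) (Kp w h) k (Mu k)) := by
  obtain ⟨n, hn⟩ := hM.u.path k hk
  have hh := V.h0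
  have h1 : se (Tu T h) w h k ∈ Bx' (Tu T h) w 0 h := se_mem V.w0 V.h0 hk
  have h2 : Y.π (se (Tu T h) w h (Mu k)) ∉ Bx' (Tu T h) w 0 h := by
    intro hz
    have hz' := Au_AB hz
    have hl := hM.u.lt k hk
    by_cases ho : Mu k < h ∨ h + w ≤ Mu k
    · rw [se_u hl ho] at hz'
      have : eu h (Mu k) < 2 * (2 * h + w) := by unfold eu; split_ifs <;> omega
      exact V.out_B this hz'
    · have e : Mu k = h + (Mu k - h) := by omega
      rw [e, V.out_u (by omega)] at hz'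
      exact V.row_AB _ _ hz'
  have hpos := Pn.pos (n := n) (x := se (Tu T h) w h k) hn h1 h2
  have h3 : Pn (Y.step s) (Y.dt s) (Bx' T w 0 (2 * h)) n (se (Tu T h) w h k)
      (Y.π (se (Tu T h) w h (Mu k))) (tt (h + w) (Kp w h) k (Mu k)) := Pn.mono Au_AB hn
  exact ⟨n, hpos, h3.toPs hpos fun z hz hq => V.AB_Qb hz (hQ _ hq)⟩

/-- a strand below the row -/
lemma dn_path (hM : Mats Y τ w h cl T s Mu Md M) {Q : κ → Prop} (hQ : ∀ k, Q k → Qb τ w cl k)
    {k : ℕ} (hk : k < 2 * (h + w)) : ∃ n, 0 < n ∧ Pn (ps Y s Q) (Y.dt s) (Bx' T w 0 (2 * h)) n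
      (se T w h k) (pas Y Q (Y.π (se T w h (Md k)))) (tt (h + w) (Kp w h) k (Md k)) := by
  obtain ⟨n, hn⟩ := hM.d.path k hk
  have hh := V.h0
  have h1 : se T w h k ∈ Bx' T w 0 h := se_mem V.w0 V.h0 hk
  have h2 : Y.π (se T w h (Md k)) ∉ Bx' T w 0 h := by
    intro hz
    have hz' := Ad_AB hz
    have hl := hM.d.lt k hk
    by_cases ho : Md k < 2 * h + w
    · rw [se_d ho] at hz'
      exact V.out_B (by omega) hz'
    · have e : Md k = 2 * (h + w) - 1 - (2 * (h + w) - 1 - Md k) := by omega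
      rw [e, V.out_d (by omega)] at hz'
      exact V.row_AB _ _ hz'
  have hpos := Pn.pos (n := n) (x := se T w h k) hn h1 h2
  have h3 : Pn (Y.step s) (Y.dt s) (Bx' T w 0 (2 * h)) n (se T w h k)
      (Y.π (se T w h (Md k))) (tt (h + w) (Kp w h) k (Md k)) := Pn.mono Ad_AB hn
  exact ⟨n, hpos, h3.toPs hpos fun z hz hq => V.AB_Qb hz (hQ _ hq)⟩

/-- the outside position of an outer port of the upper half -/
lemma pas_u {Q : κ → Prop} (hQ : ∀ k, Q k → Qb τ w cl k) {k : ℕ} (hk : k < 2 * (h + w))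
    (ho : k < h ∨ h + w ≤ k) :
    pas Y Q (Y.π (se (Tu T h) w h k)) = Y.π (se T w (2 * h) (eu h k)) := by
  rw [se_u hk ho]
  apply pas_out
  intro hq
  refine V.out_Qb ?_ (hQ _ hq)
  unfold eu; split_ifs <;> omega

lemma pas_d {Q : κ → Prop} (hQ : ∀ k, Q k → Qb τ w cl k) {k : ℕ} (hk : k < 2 * h + w) :
    pas Y Q (Y.π (se T w h k)) = Y.π (se T w (2 * h) (k + h)) := by
  rw [se_d hk]
  apply pas_out
  intro hq
  exact V.out_Qb (by omega) (hQ _ hq)

/-- the strand which enters the lower half at the port `k`, up to the first column which is not the foot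
of an inner arc above the row -/
lemma down (hM : Mats Y τ w h cl T s Mu Md M) {n : ℕ} : ∀ {k : ℕ}, k < 2 * (h + w) →
    ∀ {z : κ × Dir} {t : ℤ},
    Pn (ps Y s (Qb τ w cl)) (Y.dt s) (Bx' T w 0 (2 * h)) n (se T w h k) z t →
    z ∉ Bx' T w 0 (2 * h) →
    (∃ r < 2 * h + w, z = Y.π (se T w (2 * h) (r + h)) ∧
      PR (ps Y s (QP τ w h cl Mu)) (Y.dt s) (Bx' T w 0 (2 * h)) (se T w h k) z t) ∨
    (∃ i < w, ¬ isP w h Mu i ∧ ∃ t', PR (ps Y s (QP τ w h cl Mu)) (Y.dt s) (Bx' T w 0 (2 * h))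
      (se T w h k) (τ (cl i), .S) t' ∧ z = Y.π (se T w (2 * h) (eu h (Mu (h + i)))) ∧
      t = t' + tt (h + w) (Kp w h) (h + i) (Mu (h + i))) := by
  have hh := V.h0
  induction n using Nat.strong_induction_on with
  | _ n ih =>
    intro k hk z t hz hzB
    have hl := hM.d.lt k hk
    obtain ⟨m, hm, pg⟩ := V.dn_path hM (Q := Qb τ w cl) (fun _ h => h) hk
    obtain ⟨m', -, pp⟩ := V.dn_path hM (Q := QP τ w h cl Mu) (fun _ h => QP_Qb h) hk
    by_cases ho : Md k < 2 * h + w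
    · left
      rw [V.pas_d (fun _ h => h) ho] at pg
      rw [V.pas_d (fun _ h => QP_Qb h) ho] at pp
      obtain ⟨-, e1, e2⟩ := hz.uniq pg hzB (V.out_B (by omega))
      refine ⟨Md k, ho, e1, ?_⟩
      rw [e1, e2]
      exact pp.pr
    · set i := 2 * (h + w) - 1 - Md k with hi
      have hiw : i < w := by omega
      have e : Md k = 2 * (h + w) - 1 - i := by omega
      rw [e, V.out_d hiw] at pg pp
      have pq : pas Y (Qb τ w cl) (τ (cl i), .S) = se (Tu T h) w h (h + i) := by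
        rw [pas_in ⟨i, hiw, rfl⟩, se_cu hiw]
        exact V.up' i hiw
      rw [pq] at pg
      have hMi : h + i < 2 * (h + w) := by omega
      have hMl := hM.u.lt (h + i) hMi
      obtain ⟨m2, hm2, pg2⟩ := V.up_path hM (Q := Qb τ w cl) (fun _ h => h) hMi
      by_cases hp : isP w h Mu i
      · -- the strand passes the column `i` and comes down again at the column `i'`
        have hp' := hp
        unfold isP at hp'
        set i' := Mu (h + i) - h with hi'
        have hiw' : i' < w := by omega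
        have e' : Mu (h + i) = h + i' := by omega
        have hback : Mu (h + i') = h + i := by rw [← e', hM.u.inv _ hMi]
        have hp2 : isP w h Mu i' := by unfold isP; rw [hback]; omega
        have pq1 : pas Y (QP τ w h cl Mu) (τ (cl i), .S) = se (Tu T h) w h (h + i) := by
          rw [pas_in ((V.QP_iff hiw).2 hp), se_cu hiw]
          exact V.up' i hiw
        rw [pq1] at pp
        obtain ⟨m3, -, pp2⟩ := V.up_path hM (Q := QP τ w h cl Mu) (fun _ h => QP_Qb h) hMi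
        rw [e', V.out_u hiw'] at pg2 pp2
        have pq2 : pas Y (Qb τ w cl) (τ (cl i'), .N) = se T w h (2 * (h + w) - 1 - i') := by
          rw [pas_in ⟨i', hiw', rfl⟩, se_cd hiw']
          exact V.dn' i' hiw'
        have pq3 : pas Y (QP τ w h cl Mu) (τ (cl i'), .N) = se T w h (2 * (h + w) - 1 - i') := by
          rw [pas_in ((V.QP_iff hiw').2 hp2), se_cd hiw']
          exact V.dn' i' hiw'
        rw [pq2] at pg2
        rw [pq3] at pp2
        obtain ⟨hle, hrest⟩ := hz.rest hzB (pg.trans pg2)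
        rcases ih (n - (m + m2)) (by omega) (k := 2 * (h + w) - 1 - i') (by omega) hrest hzB with
          ⟨r, hr, hr1, hr2⟩ | ⟨i2, hi2, hnp, t', hr1, hr2, hr3⟩
        · left
          refine ⟨r, hr, hr1, ?_⟩
          have := (pp.trans pp2).pr.trans hr2
          convert this using 1
          ring
        · right
          refine ⟨i2, hi2, hnp, _, (pp.trans pp2).pr.trans hr1, hr2, ?_⟩
          linarith
      · right
        have hout : Mu (h + i) < h ∨ h + w ≤ Mu (h + i) := by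
          unfold isP at hp; omega
        have pq1 : pas Y (QP τ w h cl Mu) (τ (cl i), .S) = (τ (cl i), .S) :=
          pas_out fun hq => hp ((V.QP_iff hiw).1 hq)
        rw [pq1] at pp
        rw [V.pas_u (fun _ h => h) hMl hout] at pg2
        obtain ⟨-, e1, e2⟩ := hz.uniq (pg.trans pg2) hzB (V.out_B (by
          unfold eu; split_ifs <;> omega))
        exact ⟨i, hiw, hp, _, pp.pr, e1, e2⟩

end

/-! ### Comparison of two configurations -/





lemma eu_lt {k : ℕ} (hk : k < 2 * (h + w)) : eu h k < 2 * (2 * h + w) := by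
  unfold eu; split_ifs <;> omega

lemma eu_inj {k l : ℕ} (_ : k < h ∨ h + w ≤ k) (_ : l < h ∨ h + w ≤ l) (e : eu h k = eu h l) :
    k = l := by
  unfold eu at e; split_ifs at e <;> omega

lemma eu_ne {k r : ℕ} (hk : k < h ∨ h + w ≤ k) (hr : r < 2 * h + w) : eu h k ≠ r + h := by
  unfold eu; split_ifs <;> omega

lemma tt_cu {q i i' : ℕ} (hi : i < w) (hi' : i' < w) (hq : q < h ∨ h + w ≤ q) :
    tt (h + w) (Kp w h) q (h + i) = tt (h + w) (Kp w h) q (h + i') := by
  have e : ∀ i < w, Kp w h (h + i) = 1 := by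
    intro i hi; unfold Kp; rw [if_neg (by omega), if_pos (by omega)]
  unfold tt
  rw [e i hi, e i' hi']
  have c1 : (h + i < h + w) = True := eq_true (by omega)
  have c2 : (h + i' < h + w) = True := eq_true (by omega)
  have c3 : (q < h + i) = (q < h + i') := by
    apply propext
    rcases hq with h1 | h1
    · exact ⟨fun _ => by omega, fun _ => by omega⟩
    · exact ⟨fun _ => by omega, fun _ => by omega⟩
  simp only [c1, c2, c3]

lemma tt_anti {n : ℕ} {K : ℕ → ℤ} {k l : ℕ} (hkl : k ≠ l) : tt n K l k = -tt n K k l := by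
  unfold tt
  have c1 : (l < n ↔ k < n) = (k < n ↔ l < n) := propext ⟨fun h => h.symm, fun h => h.symm⟩
  simp only [c1]
  by_cases h1 : (k < n ↔ l < n)
  · rw [if_pos h1, if_pos h1]
    rcases Nat.lt_or_ge k l with h2 | h2
    · rw [if_pos h2, if_neg (by omega)]; ring
    · rw [if_pos (by omega : l < k), if_neg (by omega : ¬ k < l)]; ring
  · rw [if_neg h1, if_neg h1]; ring

section
variable (V : World Y τ c0 w h cl T) {s s' : κ → Bool} {Mu Md M Mu' Md' M' : ℕ → ℕ}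
include V

/-- the whole strand from a port of the box -/
lemma full (hM : Mats Y τ w h cl T s Mu Md M) {k : ℕ} (hk : k < 2 * (2 * h + w)) :
    ∃ n, Pn (ps Y s (Qb τ w cl)) (Y.dt s) (Bx' T w 0 (2 * h)) n (se T w (2 * h) k)
      (Y.π (se T w (2 * h) (M k))) (tt (2 * h + w) (Kp w (2 * h)) k (M k)) := by
  obtain ⟨n, hn⟩ := hM.g.path k hk
  refine ⟨n, ?_⟩
  have e : pas Y (Qb τ w cl) (Y.π (se T w (2 * h) (M k))) = Y.π (se T w (2 * h) (M k)) :=
    pas_out (V.out_Qb (hM.g.lt k hk))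
  have := hn
  simp only [e] at this
  exact this

/-- an upper strand between outer ports is a strand of the box -/
lemma M_eu (hM : Mats Y τ w h cl T s Mu Md M) {q : ℕ} (hq : q < 2 * (h + w))
    (ho : q < h ∨ h + w ≤ q) (ho' : Mu q < h ∨ h + w ≤ Mu q) : M (eu h q) = eu h (Mu q) := by
  have hh := V.h0
  obtain ⟨n, hn⟩ := V.full hM (eu_lt (w := w) hq)
  obtain ⟨m, -, hm⟩ := V.up_path hM (Q := Qb τ w cl) (fun _ h => h) hq
  rw [V.pas_u (fun _ h => h) (hM.u.lt q hq) ho', se_u hq ho] at hm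
  have h1 := hM.g.lt _ (eu_lt (w := w) hq)
  obtain ⟨-, e, -⟩ := hn.uniq hm (V.out_B h1) (V.out_B (eu_lt (hM.u.lt q hq)))
  exact V.se_inj h1 (eu_lt (hM.u.lt q hq)) (V.pi_inj e)

/-- comparison of two descents -/
lemma down2 (hM : Mats Y τ w h cl T s Mu Md M) (hM' : Mats Y τ w h cl T s' Mu' Md' M')
    {n n' k k' l : ℕ} (hk : k < 2 * (h + w)) (hk' : k' < 2 * (h + w)) (hl : l < 2 * (2 * h + w))
    {t : ℤ}
    (p : Pn (ps Y s (Qb τ w cl)) (Y.dt s) (Bx' T w 0 (2 * h)) n (se T w h k)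
      (Y.π (se T w (2 * h) l)) t)
    (p' : Pn (ps Y s' (Qb τ w cl)) (Y.dt s') (Bx' T w 0 (2 * h)) n' (se T w h k')
      (Y.π (se T w (2 * h) l)) t) :
    (∃ l t, Lv Y τ w h cl T s Mu (se T w h k) l t ∧ Lv Y τ w h cl T s' Mu' (se T w h k') l t) ∨
    (∃ i i' d t, Rel w h Mu Mu' i i' ∧ St Y τ w h cl T s Mu (se T w h k) i d t ∧
      St Y τ w h cl T s' Mu' (se T w h k') i' d t) := by
  have hh := V.h0
  have out : ∀ {Mu : ℕ → ℕ} {i : ℕ}, ¬ isP w h Mu i → Mu (h + i) < h ∨ h + w ≤ Mu (h + i) := by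
    intro Mu i hp; unfold isP at hp; omega
  rcases V.down hM hk p (V.out_B hl) with ⟨r, hr, e1, e2⟩ | ⟨i, hi, hp, t1, e1, e2, e3⟩
  · have hlr : l = r + h := V.se_inj hl (by omega) (V.pi_inj e1)
    rcases V.down hM' hk' p' (V.out_B hl) with ⟨r', hr', f1, f2⟩ | ⟨i', hi', hp', t1', f1, f2, f3⟩
    · left; exact ⟨l, t, ⟨hl, e2⟩, ⟨hl, f2⟩⟩
    · exfalso
      have h1 := hM'.u.lt (h + i') (by omega)
      have := V.se_inj hl (eu_lt h1) (V.pi_inj f2)
      exact eu_ne (out hp') hr (this.symm.trans hlr)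
  · have h0 := hM.u.lt (h + i) (by omega)
    have hlq := V.se_inj hl (eu_lt h0) (V.pi_inj e2)
    rcases V.down hM' hk' p' (V.out_B hl) with ⟨r', hr', f1, f2⟩ | ⟨i', hi', hp', t1', f1, f2, f3⟩
    · exfalso
      have hlr : l = r' + h := V.se_inj hl (by omega) (V.pi_inj f1)
      exact eu_ne (out hp) hr' (hlq.symm.trans hlr)
    · right
      have h1 := hM'.u.lt (h + i') (by omega)
      have hlq' := V.se_inj hl (eu_lt h1) (V.pi_inj f2)
      have heq : Mu (h + i) = Mu' (h + i') := eu_inj (out hp) (out hp') (hlq.symm.trans hlq')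
      refine ⟨i, i', .S, t1, ⟨hi, hi', hp, heq⟩, ⟨hi, hp, e1⟩, ⟨hi', hp', ?_⟩⟩
      have ett : tt (h + w) (Kp w h) (h + i) (Mu (h + i)) =
          tt (h + w) (Kp w h) (h + i') (Mu' (h + i')) := by
        rw [← heq]
        have o := out hp
        rw [← neg_inj, ← tt_anti (n := h + w) (K := Kp w h) (k := h + i) (by omega),
          ← tt_anti (n := h + w) (K := Kp w h) (k := h + i') (by omega)]
        exact tt_cu hi hi' o
      have : t1 = t1' := by rw [e3, ett] at f3; linarith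
      rw [this]; exact f1

/-- **Transit from a port of the box.** -/
theorem trans_port (hM : Mats Y τ w h cl T s Mu Md M) (hM' : Mats Y τ w h cl T s' Mu' Md' M')
    (hS : Same2 w h Mu M Mu' M') {k : ℕ} (hk : k < 2 * (2 * h + w)) :
    (∃ l t, Lv Y τ w h cl T s Mu (se T w (2 * h) k) l t ∧
      Lv Y τ w h cl T s' Mu' (se T w (2 * h) k) l t) ∨
    (∃ i i' d t, Rel w h Mu Mu' i i' ∧ St Y τ w h cl T s Mu (se T w (2 * h) k) i d t ∧
      St Y τ w h cl T s' Mu' (se T w (2 * h) k) i' d t) := by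
  have hh := V.h0
  by_cases hkd : h ≤ k ∧ k < 3 * h + w
  · obtain ⟨r, rfl⟩ : ∃ r, k = r + h := ⟨k - h, by omega⟩
    have hr : r < 2 * h + w := by omega
    obtain ⟨n, hn⟩ := V.full hM hk
    obtain ⟨n', hn'⟩ := V.full hM' hk
    rw [← hS.g _ hk] at hn'
    rw [← se_d hr] at hn hn' ⊢
    exact V.down2 hM hM' (by omega) (by omega) (hM.g.lt _ hk) hn hn'
  · obtain ⟨q, hq, ho, rfl⟩ : ∃ q, q < 2 * (h + w) ∧ (q < h ∨ h + w ≤ q) ∧ k = eu h q := by
      rcases Nat.lt_or_ge k h with h1 | h1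
      · exact ⟨k, by omega, Or.inl h1, by unfold eu; rw [if_pos h1]⟩
      · refine ⟨k - 2 * h, by omega, Or.inr (by omega), ?_⟩
        unfold eu; rw [if_neg (by omega)]; omega
    obtain ⟨m, -, hm⟩ := V.up_path hM (Q := QP τ w h cl Mu) (fun _ h => QP_Qb h) hq
    obtain ⟨m', -, hm'⟩ := V.up_path hM' (Q := QP τ w h cl Mu') (fun _ h => QP_Qb h) hq
    have hl := hM.u.lt q hq
    have hl' := hM'.u.lt q hq
    by_cases ho1 : Mu q < h ∨ h + w ≤ Mu q
    · left
      have ho2 := (hS.u q hq ho).1 ho1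
      have e1 := V.M_eu hM hq ho ho1
      have e2 := V.M_eu hM' hq ho ho2
      rw [← hS.g _ (eu_lt hq), e1] at e2
      have e3 : Mu q = Mu' q := eu_inj ho1 ho2 e2
      rw [V.pas_u (fun _ h => QP_Qb h) hl ho1, se_u hq ho] at hm
      rw [V.pas_u (fun _ h => QP_Qb h) hl' ho2, se_u hq ho, ← e3] at hm'
      exact ⟨_, _, ⟨eu_lt hl, hm.pr⟩, ⟨eu_lt hl, hm'.pr⟩⟩
    · right
      have ho2 : ¬ (Mu' q < h ∨ h + w ≤ Mu' q) := fun h => ho1 ((hS.u q hq ho).2 h)
      set i := Mu q - h with hi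
      set i' := Mu' q - h with hi'
      have hiw : i < w := by omega
      have hiw' : i' < w := by omega
      have e : Mu q = h + i := by omega
      have e' : Mu' q = h + i' := by omega
      have b : Mu (h + i) = q := by rw [← e, hM.u.inv q hq]
      have b' : Mu' (h + i') = q := by rw [← e', hM'.u.inv q hq]
      have np : ¬ isP w h Mu i := by unfold isP; omega
      have np' : ¬ isP w h Mu' i' := by unfold isP; omega
      rw [e, V.out_u hiw, pas_out (fun hq => np ((V.QP_iff hiw).1 hq)), se_u hq ho] at hm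
      rw [e', V.out_u hiw', pas_out (fun hq => np' ((V.QP_iff hiw').1 hq)), se_u hq ho,
        tt_cu hiw' hiw ho] at hm'
      exact ⟨i, i', .N, _, ⟨hiw, hiw', np, by rw [b, b']⟩, ⟨hiw, np, hm.pr⟩, ⟨hiw', np', hm'.pr⟩⟩

/-- **Transit from an exit column, upwards.** -/
theorem trans_up (hM : Mats Y τ w h cl T s Mu Md M) (hM' : Mats Y τ w h cl T s' Mu' Md' M')
    {i i' : ℕ} (hR : Rel w h Mu Mu' i i') :
    ∃ l t, Lv Y τ w h cl T s Mu (T i h, .S) l t ∧ Lv Y τ w h cl T s' Mu' (T i' h, .S) l t := by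
  obtain ⟨hi, hi', hp, heq⟩ := hR
  have hk : h + i < 2 * (h + w) := by omega
  have hk' : h + i' < 2 * (h + w) := by omega
  obtain ⟨m, -, hm⟩ := V.up_path hM (Q := QP τ w h cl Mu) (fun _ h => QP_Qb h) hk
  obtain ⟨m', -, hm'⟩ := V.up_path hM' (Q := QP τ w h cl Mu') (fun _ h => QP_Qb h) hk'
  have o : Mu (h + i) < h ∨ h + w ≤ Mu (h + i) := by unfold isP at hp; omega
  have hl := hM.u.lt _ hk
  rw [se_cu hi, V.pas_u (fun _ h => QP_Qb h) hl o] at hm
  rw [se_cu hi', ← heq, V.pas_u (fun _ h => QP_Qb h) hl o] at hm'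
  refine ⟨_, _, ⟨eu_lt hl, hm.pr⟩, ⟨eu_lt hl, ?_⟩⟩
  have ett : tt (h + w) (Kp w h) (h + i) (Mu (h + i)) =
      tt (h + w) (Kp w h) (h + i') (Mu (h + i)) := by
    rw [← neg_inj, ← tt_anti (n := h + w) (K := Kp w h) (k := h + i) (by omega),
      ← tt_anti (n := h + w) (K := Kp w h) (k := h + i') (by omega)]
    exact tt_cu hi hi' o
  rw [ett]; exact hm'.pr

/-- **Transit from an exit column, downwards.** -/
theorem trans_down (hM : Mats Y τ w h cl T s Mu Md M) (hM' : Mats Y τ w h cl T s' Mu' Md' M')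
    (hS : Same2 w h Mu M Mu' M') {i i' : ℕ} (hR : Rel w h Mu Mu' i i') :
    (∃ l t, Lv Y τ w h cl T s Mu (T i (h - 1), .N) l t ∧
      Lv Y τ w h cl T s' Mu' (T i' (h - 1), .N) l t) ∨
    (∃ j j' d t, Rel w h Mu Mu' j j' ∧ St Y τ w h cl T s Mu (T i (h - 1), .N) j d t ∧
      St Y τ w h cl T s' Mu' (T i' (h - 1), .N) j' d t) := by
  obtain ⟨hi, hi', hp, heq⟩ := hR
  have o : Mu (h + i) < h ∨ h + w ≤ Mu (h + i) := by unfold isP at hp; omega
  have hki : h + i < 2 * (h + w) := by omega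
  have hki' : h + i' < 2 * (h + w) := by omega
  have hl := hM.u.lt _ hki
  set q := Mu (h + i) with hq
  have b : Mu q = h + i := hM.u.inv _ hki
  have b' : Mu' q = h + i' := by rw [heq]; exact hM'.u.inv _ hki'
  have part : ∀ {s : κ → Bool} {Mu Md M : ℕ → ℕ} (_ : Mats Y τ w h cl T s Mu Md M) {i : ℕ},
      i < w → Mu q = h + i → ∃ n, Pn (ps Y s (Qb τ w cl)) (Y.dt s) (Bx' T w 0 (2 * h)) n
        (se T w h (2 * (h + w) - 1 - i)) (Y.π (se T w (2 * h) (M (eu h q))))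
        (tt (2 * h + w) (Kp w (2 * h)) (eu h q) (M (eu h q)) - tt (h + w) (Kp w h) q (h + i)) := by
    intro s Mu Md M hM i hi b
    obtain ⟨n, hn⟩ := V.full hM (eu_lt (w := w) hl)
    obtain ⟨m, -, hm⟩ := V.up_path hM (Q := Qb τ w cl) (fun _ h => h) hl
    rw [b, V.out_u hi, pas_in ⟨i, hi, rfl⟩, se_u hl o] at hm
    have e : Y.π (τ (cl i), opp .N) = se T w h (2 * (h + w) - 1 - i) := by
      rw [se_cd hi]; exact V.dn' i hi
    rw [e] at hm
    obtain ⟨-, hr⟩ := hn.rest (V.out_B (hM.g.lt _ (eu_lt hl))) hm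
    exact ⟨_, hr⟩
  obtain ⟨n, hn⟩ := part hM hi b
  obtain ⟨n', hn'⟩ := part hM' hi' b'
  rw [← hS.g _ (eu_lt hl), tt_cu hi' hi o] at hn'
  have := V.down2 hM hM' (by omega) (by omega) (hM.g.lt _ (eu_lt hl)) hn hn'
  rw [se_cd hi, se_cd hi'] at this
  exact this

end

end Pool.Agent.H69.W.World
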