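import Mathlib
import Pool.Agent.H69.M6b.Eq
import Pool.Agent.H69.W.Root

set_option autoImplicit false
set_option linter.unusedSectionVars false
open Finset

/-! # Two configurations which agree outside the box -/

namespace Pool.Agent.H69.W.World

open Pool.Agent.H69.M6b Pool.Agent.H69.M6b.World

open Pool.Agent.H81.G1

variable {κ : Type*} {N : ℕ}


section
variable {Y : Net κ} {τ : Fin N → κ} {c0 w h : ℕ} {cl : ℕ → Fin N} {T : ℕ → ℕ → κ}
  (V : World Y τ c0 w h cl T) {s s' : κ → Bool} {Mu Md M Mu' Md' M' : ℕ → ℕ}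
include V

lemma sim (hM : Mats Y τ w h cl T s Mu Md M) (hM' : Mats Y τ w h cl T s' Mu' Md' M')
    (hS : Same2 w h Mu M Mu' M')
    (hag : ∀ k, (∀ i < w, ∀ j < 2 * h, k ≠ T i j) → (∀ c, k ≠ τ c) → s k = s' k) {n : ℕ} :
    ∀ {x : κ × Dir} {v : Fin N × Dir} {t : ℤ}, (∀ i < w, x.1 ≠ τ (cl i)) →
    ((∃ i < w, ∃ j < 2 * h, x.1 = T i j) → ∃ k < 2 * (2 * h + w), x = se T w (2 * h) k) →
    v.1 ∉ Pf w h cl Mu →
    Pn (ps Y s (QP τ w h cl Mu)) (Y.dt s) (Off τ) n x (τ v.1, v.2) t →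
    ∃ c', RelC w h cl Mu Mu' v.1 c' ∧
      PR (ps Y s' (QP τ w h cl Mu')) (Y.dt s') (Off τ) x (τ c', v.2) t := by
  have hh := V.h0
  induction n using Nat.strong_induction_on with
  | _ n ih =>
    intro x v t hxc hxB hv hn
    by_cases hB : ∃ i < w, ∃ j < 2 * h, x.1 = T i j
    · obtain ⟨k, hk, rfl⟩ := hxB hB
      have hkm : se T w (2 * h) k ∈ Bx' T w 0 (2 * h) := se_mem V.w0 (by omega) hk
      rcases V.trans_port hM hM' hS hk with ⟨l, t1, ⟨hl, p⟩, ⟨-, p'⟩⟩ |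
        ⟨i, i', d, t1, hR, ⟨hi, hp, p⟩, ⟨hi', hp', p'⟩⟩
      · obtain ⟨m, pm⟩ := p
        have hm := Pn.pos (n := m) (x := se T w (2 * h) k) pm hkm (V.out_B hl)
        have pm' : Pn (ps Y s (QP τ w h cl Mu)) (Y.dt s) (Off τ) m (se T w (2 * h) k)
          (Y.π (se T w (2 * h) l)) t1 := Pn.mono (fun z hz => V.AB_off hz) pm
        obtain ⟨hmn, hr⟩ := hn.rest (row_not_off _ _ _) pm'
        obtain ⟨c', hc', q⟩ := ih (n - m) (by omega) (x := Y.π (se T w (2 * h) l)) (v := v)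
          (fun i hi e => (V.oo l hl).2 i hi e)
          (fun ⟨i, hi, j, hj, e⟩ => absurd e ((V.oo l hl).1 i hi j hj)) hv hr
        refine ⟨c', hc', ?_⟩
        have q2 := (p'.mono (fun z hz => V.AB_off hz)).trans q
        convert q2 using 1
        ring
      · obtain ⟨m, pm⟩ := p
        have pm' : Pn (ps Y s (QP τ w h cl Mu)) (Y.dt s) (Off τ) m (se T w (2 * h) k)
          (τ (cl i), d) t1 := Pn.mono (fun z hz => V.AB_off hz) pm
        obtain ⟨-, e1, e2⟩ := hn.uniq pm' (row_not_off _ _ _) (row_not_off _ _ _)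
        have e3 : v.1 = cl i := V.τinj (congrArg (fun z : κ × Dir => z.1) e1)
        have e4 : v.2 = d := congrArg (fun z : κ × Dir => z.2) e1
        refine ⟨cl i', Or.inr ⟨i, i', hR, e3, rfl⟩, ?_⟩
        rw [e2, e4]
        exact p'.mono (fun z hz => V.AB_off hz)
    · rcases Nat.eq_zero_or_pos n with h0 | h0
      · subst h0
        have e1 : x = (τ v.1, v.2) := hn.1
        have e2 : t = 0 := by have := hn.2.2; simpa using this
        refine ⟨v.1, Or.inl ⟨rfl, ?_⟩, ?_⟩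
        · intro i hi e
          apply hxc i hi
          rw [e1, e]
        · rw [e1, e2]; exact PR.refl _
      · have hxo : x ∈ Off τ := hn.2.1 0 h0
        have hsx : s x.1 = s' x.1 := hag x.1 (fun i hi j hj e => hB ⟨i, hi, j, hj, e⟩) (fun c => hxo c)
        set y := Y.step s x with hy
        have hy' : Y.step s' x = y := by rw [hy]; unfold Net.step; rw [hsx]
        have hdt : Y.dt s' x = Y.dt s x := by unfold Net.dt; rw [hsx]
        have hback : (Y.π y).1 = x.1 := by rw [hy]; unfold Net.step; rw [V.inv]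
        have hyc : ∀ i < w, y.1 ≠ τ (cl i) := by
          intro i hi e
          have hcl := V.clv i hi
          have h1 := V.c1
          have h2 := V.c2
          obtain ⟨d, hd⟩ : ∃ d, y = (τ (cl i), d) := ⟨y.2, Prod.ext e rfl⟩
          rw [hd] at hback
          cases d
          · have h3 := V.row ⟨(cl i : ℕ) - 1, by omega⟩ (cl i) (by simp only; omega) (by simp only; omega) (by simp only; omega)
            rw [← h3, V.inv] at hback
            exact hxo _ hback.symm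
          · rw [V.up' i hi] at hback
            exact hB ⟨i, hi, h, by omega, hback.symm⟩
          · have h3 := V.row (cl i) ⟨(cl i : ℕ) + 1, by omega⟩ rfl (by omega) (by omega)
            rw [h3] at hback
            exact hxo _ hback.symm
          · rw [V.dn' i hi] at hback
            exact hB ⟨i, hi, h - 1, by omega, hback.symm⟩
        have hq : ∀ {Mu : ℕ → ℕ}, pas Y (QP τ w h cl Mu) y = y := by
          intro Mu
          apply pas_out
          rintro ⟨i, hi, e, -⟩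
          exact hyc i hi e
        have p1 : Pn (ps Y s (QP τ w h cl Mu)) (Y.dt s) (Off τ) 1 x y (Y.dt s x) := by
          refine ⟨?_, ?_, by simp⟩
          · rw [Function.iterate_one]; exact hq
          · intro i hi
            have : i = 0 := by omega
            subst this; exact hxo
        have p1' : PR (ps Y s' (QP τ w h cl Mu')) (Y.dt s') (Off τ) x y (Y.dt s x) := by
          refine PR.step hxo ?_ hdt
          unfold ps
          rw [hy']; exact hq
        obtain ⟨hmn, hr⟩ := hn.rest (row_not_off _ _ _) p1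
        obtain ⟨c', hc', q⟩ := ih (n - 1) (by omega) (x := y) (v := v) hyc (by
          rintro ⟨i, hi, j, hj, e⟩
          have e2 : y = (T i j, y.2) := Prod.ext e rfl
          obtain ⟨k, hk, hk2⟩ := V.port_of (d := y.2) hi hj
            (fun i' hi' j' hj' e' => hB ⟨i', hi', j', hj', by rw [← hback, e2]; exact e'⟩)
            (fun i' hi' e' => hxo (cl i') (by rw [← hback, e2]; exact e'))
          exact ⟨k, hk, e2.trans hk2⟩) hv hr
        refine ⟨c', hc', ?_⟩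
        have q2 := p1'.trans q
        convert q2 using 1
        ring

/-- **The strands from corresponding columns end at corresponding columns.** -/
lemma sim_col (hM : Mats Y τ w h cl T s Mu Md M) (hM' : Mats Y τ w h cl T s' Mu' Md' M')
    (hS : Same2 w h Mu M Mu' M')
    (hag : ∀ k, (∀ i < w, ∀ j < 2 * h, k ≠ T i j) → (∀ c, k ≠ τ c) → s k = s' k)
    {c c' : Fin N} (hcc : RelC w h cl Mu Mu' c c') {d : Dir}
    (hd : (∃ i < w, c = cl i) → d = .N ∨ d = .S)
    (hE : d = .E → ¬ (c0 - 1 ≤ (c : ℕ) ∧ (c : ℕ) < c0 + w))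
    (hW : d = .W → ¬ (c0 - 1 < (c : ℕ) ∧ (c : ℕ) ≤ c0 + w)) {v : Fin N × Dir} {t : ℤ}
    (hv : v.1 ∉ Pf w h cl Mu)
    (hp : PR (ps Y s (QP τ w h cl Mu)) (Y.dt s) (Off τ) (Y.π (τ c, d)) (τ v.1, v.2) t) :
    ∃ v', RelC w h cl Mu Mu' v.1 v' ∧
      PR (ps Y s' (QP τ w h cl Mu')) (Y.dt s') (Off τ) (Y.π (τ c', d)) (τ v', v.2) t := by
  have hh := V.h0
  rcases hcc with ⟨rfl, hc⟩ | ⟨i, i', hR, rfl, rfl⟩
  · obtain ⟨n, hn⟩ := hp
    refine V.sim hM hM' hS hag ?_ ?_ hv hn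
    · intro i hi e
      -- the wire from an outer column does not lead to a column of the box
      have hcl := V.clv i hi
      have h1 := V.c1
      have h2 := V.c2
      obtain ⟨d', hd'⟩ : ∃ d', Y.π (τ c', d) = (τ (cl i), d') := ⟨_, Prod.ext e rfl⟩
      have hb : Y.π (τ (cl i), d') = (τ c', d) := by rw [← hd', V.inv]
      cases d'
      · have h3 := V.row ⟨(cl i : ℕ) - 1, by omega⟩ (cl i) (by simp only; omega) (by simp only; omega) (by simp only; omega)
        rw [← h3, V.inv] at hb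
        have h4 := hE (congrArg Prod.snd hb).symm
        have h5 := V.τinj (congrArg (fun z : κ × Dir => z.1) hb)
        rw [← h5] at h4
        simp only at h4
        omega
      · rw [V.up' i hi] at hb
        exact V.Trow i hi h (by omega) c' (congrArg Prod.fst hb)
      · have h3 := V.row (cl i) ⟨(cl i : ℕ) + 1, by omega⟩ rfl (by omega) (by omega)
        rw [h3] at hb
        have h4 := hW (congrArg Prod.snd hb).symm
        have h5 := V.τinj (congrArg (fun z : κ × Dir => z.1) hb)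
        rw [← h5] at h4
        simp only at h4
        omega
      · rw [V.dn' i hi] at hb
        exact V.Trow i hi (h - 1) (by omega) c' (congrArg Prod.fst hb)
    · rintro ⟨i, hi, j, hj, e⟩
      have e2 : Y.π (τ c', d) = (T i j, (Y.π (τ c', d)).2) := Prod.ext e rfl
      have hb : Y.π (T i j, (Y.π (τ c', d)).2) = (τ c', d) := by rw [← e2, V.inv]
      obtain ⟨k, hk, hk2⟩ := V.port_of (d := (Y.π (τ c', d)).2) hi hj
        (fun i' hi' j' hj' e' => by
          rw [hb] at e'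
          exact V.Trow i' hi' j' hj' c' e'.symm)
        (fun i' hi' e' => by
          rw [hb] at e'
          exact hc i' hi' (V.τinj e'))
      exact ⟨k, hk, e2.trans hk2⟩
  · obtain ⟨hi, hi', hnp, heq⟩ := id hR
    have finish : ∀ {l : ℕ} {t1 : ℤ}, Lv Y τ w h cl T s Mu (Y.π (τ (cl i), d)) l t1 →
        Lv Y τ w h cl T s' Mu' (Y.π (τ (cl i'), d)) l t1 →
        ∃ v', RelC w h cl Mu Mu' v.1 v' ∧
          PR (ps Y s' (QP τ w h cl Mu')) (Y.dt s') (Off τ) (Y.π (τ (cl i'), d)) (τ v', v.2) t := by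
      rintro l t1 ⟨hl, p⟩ ⟨-, p'⟩
      obtain ⟨n, hn⟩ := hp
      obtain ⟨m, pm⟩ := p
      have pm' : Pn (ps Y s (QP τ w h cl Mu)) (Y.dt s) (Off τ) m (Y.π (τ (cl i), d))
        (Y.π (se T w (2 * h) l)) t1 := Pn.mono (fun z hz => V.AB_off hz) pm
      have hn' : Pn (ps Y s (QP τ w h cl Mu)) (Y.dt s) (Off τ) n (Y.π (τ (cl i), d))
        (τ v.1, v.2) t := hn
      obtain ⟨hmn, hr⟩ := hn'.rest (row_not_off _ _ _) pm'
      obtain ⟨c', hc', q⟩ := V.sim hM hM' hS hag (x := Y.π (se T w (2 * h) l)) (v := v)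
        (fun i hi e => (V.oo l hl).2 i hi e)
        (fun ⟨i, hi, j, hj, e⟩ => absurd e ((V.oo l hl).1 i hi j hj)) hv hr
      refine ⟨c', hc', ?_⟩
      have q2 := (p'.mono (fun z hz => V.AB_off hz)).trans q
      convert q2 using 1
      ring
    rcases hd ⟨i, hi, rfl⟩ with rfl | rfl
    · obtain ⟨l, t1, h1, h2⟩ := V.trans_up hM hM' hR
      rw [← V.up' i hi] at h1
      rw [← V.up' i' hi'] at h2
      exact finish h1 h2
    · rcases V.trans_down hM hM' hS hR with ⟨l, t1, h1, h2⟩ |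
        ⟨j, j', e, t1, hR', ⟨hj, hp', p⟩, ⟨hj', hp'', p'⟩⟩
      · rw [← V.dn' i hi] at h1
        rw [← V.dn' i' hi'] at h2
        exact finish h1 h2
      · obtain ⟨n, hn⟩ := hp
        obtain ⟨m, pm⟩ := p
        rw [V.dn' i hi] at hn
        have pm' : Pn (ps Y s (QP τ w h cl Mu)) (Y.dt s) (Off τ) m (T i (h - 1), Dir.N)
          (τ (cl j), e) t1 := Pn.mono (fun z hz => V.AB_off hz) pm
        have hn' : Pn (ps Y s (QP τ w h cl Mu)) (Y.dt s) (Off τ) n (T i (h - 1), Dir.N)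
          (τ v.1, v.2) t := hn
        obtain ⟨-, e1, e2⟩ := hn'.uniq pm' (row_not_off _ _ _) (row_not_off _ _ _)
        have e3 : v.1 = cl j := V.τinj (congrArg (fun z : κ × Dir => z.1) e1)
        have e4 : v.2 = e := congrArg (fun z : κ × Dir => z.2) e1
        refine ⟨cl j', Or.inr ⟨j, j', hR', e3, rfl⟩, ?_⟩
        rw [e2, e4, V.dn' i' hi']
        exact p'.mono (fun z hz => V.AB_off hz)

omit V in
lemma Rel.symm {i i' : ℕ} (hr : Rel w h Mu Mu' i i') : Rel w h Mu' Mu i' i := by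
  obtain ⟨h1, h2, h3, h4⟩ := hr
  refine ⟨h2, h1, ?_, h4.symm⟩
  unfold isP at h3 ⊢
  rw [← h4]; exact h3

omit V in
lemma Same2.symm (hS : Same2 w h Mu M Mu' M') : Same2 w h Mu' M' Mu M :=
  ⟨fun k hk => (hS.g k hk).symm, fun q hq ho => (hS.u q hq ho).symm⟩

/-- the partner of an exit column -/
lemma exRel (hM : Mats Y τ w h cl T s Mu Md M) (hM' : Mats Y τ w h cl T s' Mu' Md' M')
    (hS : Same2 w h Mu M Mu' M') {i : ℕ} (hi : i < w) (hp : ¬ isP w h Mu i) :
    Rel w h Mu Mu' i (Mu' (Mu (h + i)) - h) := by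
  have hk : h + i < 2 * (h + w) := by omega
  have hl := hM.u.lt _ hk
  have ho : Mu (h + i) < h ∨ h + w ≤ Mu (h + i) := by unfold isP at hp; omega
  have h1 : ¬ (Mu (Mu (h + i)) < h ∨ h + w ≤ Mu (Mu (h + i))) := by
    rw [hM.u.inv _ hk]; omega
  have h2 : ¬ (Mu' (Mu (h + i)) < h ∨ h + w ≤ Mu' (Mu (h + i))) := fun hh =>
    h1 ((hS.u _ hl ho).2 hh)
  refine ⟨hi, by omega, hp, ?_⟩
  have e : h + (Mu' (Mu (h + i)) - h) = Mu' (Mu (h + i)) := by omega
  rw [e, hM'.u.inv _ hl]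


lemma box_col {c : Fin N} (h1 : c0 ≤ (c : ℕ)) (h2 : (c : ℕ) < c0 + w) :
    ∃ i < w, c = cl i ∧ i = (c : ℕ) - c0 := by
  refine ⟨(c : ℕ) - c0, by omega, ?_, rfl⟩
  apply Fin.ext
  rw [V.clv _ (by omega)]; omega

lemma gc_spec (hM : Mats Y τ w h cl T s Mu Md M) (hM' : Mats Y τ w h cl T s' Mu' Md' M')
    (hS : Same2 w h Mu M Mu' M') {c : Fin N} (hc : c ∉ Pf w h cl Mu) :
    RelC w h cl Mu Mu' c (gc c0 w h cl Mu Mu' c) := by
  unfold gc
  by_cases hb : c0 ≤ (c : ℕ) ∧ (c : ℕ) < c0 + w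
  · rw [if_pos hb]
    obtain ⟨i, hi, e, e2⟩ := V.box_col hb.1 hb.2
    have hp : ¬ isP w h Mu i := fun hp => hc (mem_Pf.2 ⟨i, hi, e, hp⟩)
    right
    exact ⟨i, _, V.exRel hM hM' hS hi hp, e, by rw [e2]⟩
  · rw [if_neg hb]
    left
    refine ⟨rfl, ?_⟩
    intro i hi e
    apply hb
    rw [e, V.clv i hi]; omega

lemma relC_unique (_hM : Mats Y τ w h cl T s Mu Md M) (hM' : Mats Y τ w h cl T s' Mu' Md' M')
    {c d d' : Fin N} (h1 : RelC w h cl Mu Mu' c d) (h2 : RelC w h cl Mu Mu' c d') : d = d' := by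
  rcases h1 with ⟨e1, n1⟩ | ⟨i, i', ⟨hi, hi', hp, heq⟩, e1, e1'⟩ <;>
    rcases h2 with ⟨e2, n2⟩ | ⟨j, j', ⟨hj, hj', hq, heq'⟩, e2, e2'⟩
  · rw [e1, e2]
  · exact absurd e2 (n1 j hj)
  · exact absurd e1 (n2 i hi)
  · have e3 : i = j := V.clinj hi hj (e1.symm.trans e2)
    subst e3
    have e4 : h + i' = h + j' := hM'.u.inj (by omega) (by omega) (heq.symm.trans heq')
    rw [e1', e2', show i' = j' by omega]

lemma relC_symm {c d : Fin N} (h1 : RelC w h cl Mu Mu' c d) : RelC w h cl Mu' Mu d c := by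
  rcases h1 with ⟨e1, n1⟩ | ⟨i, i', hR, e1, e1'⟩
  · exact Or.inl ⟨e1.symm, by rw [e1]; exact n1⟩
  · exact Or.inr ⟨i', i, hR.symm, e1', e1⟩

lemma relC_out {c d : Fin N} (h1 : RelC w h cl Mu Mu' c d) : c ∉ Pf w h cl Mu := by
  rcases h1 with ⟨e1, n1⟩ | ⟨i, i', ⟨hi, hi', hp, heq⟩, e1, e1'⟩
  · intro hc
    obtain ⟨i, hi, e, -⟩ := mem_Pf.1 hc
    exact n1 i hi e
  · rw [e1]
    exact fun hc => hp ((V.cl_Pf hi).1 hc)

/-- the correspondence preserves the order -/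
lemma relC_lt (hM : Mats Y τ w h cl T s Mu Md M) (hM' : Mats Y τ w h cl T s' Mu' Md' M')
    {c c' d d' : Fin N} (h1 : RelC w h cl Mu Mu' c d) (h2 : RelC w h cl Mu Mu' c' d')
    (hlt : c < c') : d < d' := by
  rcases h1 with ⟨e1, n1⟩ | ⟨i, i', ⟨hi, hi', hp, heq⟩, e1, e1'⟩ <;>
    rcases h2 with ⟨e2, n2⟩ | ⟨j, j', ⟨hj, hj', hq, heq'⟩, e2, e2'⟩
  · rw [e1, e2]; exact hlt
  · rw [e1, e2']
    rw [e2, Fin.lt_def, V.clv j hj] at hlt
    rw [Fin.lt_def, V.clv j' hj']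
    by_contra hcon
    obtain ⟨k, hk, e, -⟩ := V.box_col (c := c) (by omega) (by omega)
    exact n1 k hk e
  · rw [e2, e1']
    rw [e1, Fin.lt_def, V.clv i hi] at hlt
    rw [Fin.lt_def, V.clv i' hi']
    by_contra hcon
    obtain ⟨k, hk, e, -⟩ := V.box_col (c := c') (by omega) (by omega)
    exact n2 k hk e
  · rw [e1, e2, Fin.lt_def, V.clv i hi, V.clv j hj] at hlt
    rw [e1', e2', Fin.lt_def, V.clv i' hi', V.clv j' hj']
    have hij : i < j := by omega
    have ki : h + i < 2 * (h + w) := by omega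
    have kj : h + j < 2 * (h + w) := by omega
    have ki' : h + i' < 2 * (h + w) := by omega
    have kj' : h + j' < 2 * (h + w) := by omega
    have o1 : Mu (h + i) < h ∨ h + w ≤ Mu (h + i) := by unfold isP at hp; omega
    have o2 : Mu (h + j) < h ∨ h + w ≤ Mu (h + j) := by unfold isP at hq; omega
    have hne : i' ≠ j' := by
      intro hh
      rw [hh, ← heq'] at heq
      have := hM.u.inj ki kj heq
      omega
    have nc := hM.u.nc (h + i) ki (h + j) kj (by omega) (by omega)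
    have nc' := hM'.u.nc (h + i') ki' (h + j') kj' (by omega) (by rw [← heq]; omega)
    rw [← heq, ← heq'] at nc'
    have b1 : (h + j < Mu (h + i)) ↔ (h + j' < Mu (h + i)) := by
      rcases o1 with o | o
      · exact ⟨fun _ => by omega, fun _ => by omega⟩
      · exact ⟨fun _ => by omega, fun _ => by omega⟩
    have b2 : (Mu (h + j) < h + i) ↔ (Mu (h + j) < h + i') := by
      rcases o2 with o | o
      · exact ⟨fun _ => by omega, fun _ => by omega⟩
      · exact ⟨fun _ => by omega, fun _ => by omega⟩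
    rw [b1, b2] at nc
    have b3 : ¬ (h + j < h + i) := by omega
    have b4 : (h + j < h + i ↔ h + j' < Mu (h + i)) ↔ (h + j' < h + i' ↔ h + j' < Mu (h + i)) :=
      nc.trans nc'.symm
    have b5 : ¬ (h + j' < h + i') := by
      intro hcon
      by_cases hm : h + j' < Mu (h + i)
      · exact b3 ((b4.2 ⟨fun _ => hm, fun _ => hcon⟩).2 hm)
      · exact hm ((b4.1 ⟨fun hh => absurd hh b3, fun hh => absurd hh hm⟩).1 hcon)
    omega

/-- the correspondence of all columns -/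
lemma exists_rho (hM : Mats Y τ w h cl T s Mu Md M) (hM' : Mats Y τ w h cl T s' Mu' Md' M')
    (hS : Same2 w h Mu M Mu' M') : ∃ ρ : Fin N ≃ Fin N,
      (∀ c, c ∉ Pf w h cl Mu → RelC w h cl Mu Mu' c (ρ c)) ∧
      ∀ c, c ∈ Pf w h cl Mu ↔ ρ c ∈ Pf w h cl Mu' := by
  classical
  have g1 := fun c (hc : c ∉ Pf w h cl Mu) => V.gc_spec hM hM' hS hc
  have g2 := fun c (hc : c ∉ Pf w h cl Mu') => V.gc_spec hM' hM hS.symm hc
  let e : {c : Fin N // c ∉ Pf w h cl Mu} ≃ {c : Fin N // c ∉ Pf w h cl Mu'} :=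
    { toFun := fun c => ⟨gc c0 w h cl Mu Mu' c.1, V.relC_out (V.relC_symm (g1 c.1 c.2))⟩
      invFun := fun c => ⟨gc c0 w h cl Mu' Mu c.1, V.relC_out (V.relC_symm (g2 c.1 c.2))⟩
      left_inv := fun c => Subtype.ext (V.relC_unique hM' hM
        (g2 _ (V.relC_out (V.relC_symm (g1 c.1 c.2)))) (V.relC_symm (g1 c.1 c.2)))
      right_inv := fun c => Subtype.ext (V.relC_unique hM hM'
        (g1 _ (V.relC_out (V.relC_symm (g2 c.1 c.2)))) (V.relC_symm (g2 c.1 c.2))) }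
  refine ⟨e.extendSubtype, ?_, ?_⟩
  · intro c hc
    rw [e.extendSubtype_apply_of_mem c hc]
    exact g1 c hc
  · intro c
    constructor
    · intro hc
      have := e.extendSubtype_not_mem c (not_not.2 hc)
      exact not_not.1 this
    · intro hc
      by_contra hcon
      exact e.extendSubtype_mem c hcon hc

/-- the strands of the roots end at corresponding columns -/
lemma root_sim (hM : Mats Y τ w h cl T s Mu Md M) (hM' : Mats Y τ w h cl T s' Mu' Md' M')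
    (hS : Same2 w h Mu M Mu' M')
    (hag : ∀ k, (∀ i < w, ∀ j < 2 * h, k ≠ T i j) → (∀ c, k ≠ τ c) → s k = s' k)
    {X X' : Net (Fin N)} (hI : Ind Y s τ X) (hI' : Ind Y s' τ X') {ρ0 : κ × Dir} {r r' : ℤ}
    (hR : Rt Y s τ w h cl T X ρ0 r) (hR' : Rt Y s' τ w h cl T X' ρ0 r')
    (hn : Nr w h cl Mu X) (hn' : Nr w h cl Mu' X') {v : Fin N × Dir} {t : ℤ}
    (hg : GlE X (Pf w h cl Mu) (Uf c0 h cl Mu) X.x0 v t) :
    ∃ c' t', RelC w h cl Mu Mu' v.1 c' ∧
      GlE X' (Pf w h cl Mu') (Uf c0 h cl Mu') X'.x0 (c', v.2) t' ∧ r + t = r' + t' := by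
  have hA := V.arcs hM hI hn
  have hA' := V.arcs hM' hI' hn'
  obtain ⟨n, hn1⟩ := V.rootPR hM hI hA hR hg
  obtain ⟨c', hc', q⟩ := V.sim hM hM' hS hag (x := ρ0) (v := v) hR.nc
    (fun ⟨i, hi, j, hj, e⟩ => absurd e (hR.nb i hi j hj)) hg.notMem hn1
  have hc'P : c' ∉ Pf w h cl Mu' := by
    rcases hc' with ⟨e1, n1⟩ | ⟨i, i', ⟨hi, hi', hp, heq⟩, e1, e1'⟩
    · intro hc
      obtain ⟨i, hi, e, -⟩ := mem_Pf.1 hc
      exact n1 i hi (by rw [← e1, e])
    · rw [e1']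
      intro hc
      have := (V.cl_Pf (Mu := Mu') hi').1 hc
      apply hp
      unfold isP at this ⊢
      rw [heq]; exact this
  obtain ⟨v2, t2, hg2⟩ := V.exRoot hM' hI' hA' hR' hn' (v := (c', v.2)) hc'P q
  have q2 := V.rootPR hM' hI' hA' hR' hg2
  obtain ⟨e1, e2⟩ := q2.uniq q (row_not_off _ _ _) (row_not_off _ _ _)
  have e3 : v2.1 = c' := V.τinj (congrArg (fun z : κ × Dir => z.1) e1)
  have e4 : v2.2 = v.2 := congrArg (fun z : κ × Dir => z.2) e1
  have e5 : v2 = (c', v.2) := Prod.ext e3 e4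
  rw [e5] at hg2
  exact ⟨c', t2, hc', hg2, e2.symm⟩

/-- no end of the strand of the root -/
lemma noE {X : Net (Fin N)} (hA : Arcs X (Pf w h cl Mu) (Uf c0 h cl Mu)) (hI : Ind Y s τ X)
    (hn : Nr w h cl Mu X) (hex : ¬ ∃ v t, GlE X (Pf w h cl Mu) (Uf c0 h cl Mu) X.x0 v t) :
    ∀ v t, ¬ En X (can (Uf c0 h cl Mu)) (Pf w h cl Mu)ᶜ X.x0 v t := by
  intro v t he
  obtain ⟨k, k1, k2, -⟩ := he.ex
  apply hex
  refine arcs_enG hA hI.inv hI.tn (V.rowOn hI) V.c2 (fun c hc => V.Pf_int hc) k1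
    (mem_compl.1 he.mem) (fun i hi => ?_) hn.toS
  have := k2 i hi
  rw [mem_compl, not_not] at this
  exact this

/-- **The strand of the root meets the row in one configuration but not in the other.** -/
theorem box_zero (hM : Mats Y τ w h cl T s Mu Md M) (hM' : Mats Y τ w h cl T s' Mu' Md' M')
    (hS : Same2 w h Mu M Mu' M')
    (hag : ∀ k, (∀ i < w, ∀ j < 2 * h, k ≠ T i j) → (∀ c, k ≠ τ c) → s k = s' k)
    {X : Net (Fin N)} (hI : Ind Y s τ X) {ρ0 : κ × Dir} {r : ℤ}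
    (hR : Rt Y s τ w h cl T X ρ0 r) (hR' : Rn Y s' τ w h cl T ρ0)
    (hy0 : ∀ i < w, X.y0.1 ≠ cl i) {A B : ℂ} (hAB : Over A B) {a b : Fin N → ℂ}
    (hab : ∀ c ∈ Pf w h cl Mu, a c = A ∧ b c = B) (φ : ℤ → ℂ) : ZF X φ a b = 0 := by
  have hn : Nr w h cl Mu X := Rt.nr V hM hR hy0
  have hA := V.arcs hM hI hn
  have hex : ¬ ∃ v t, GlE X (Pf w h cl Mu) (Uf c0 h cl Mu) X.x0 v t := by
    rintro ⟨v, t, hg⟩
    obtain ⟨n, hn1⟩ := V.rootPR hM hI hA hR hg
    obtain ⟨c', hc', q⟩ := V.sim hM hM' hS hag (x := ρ0) (v := v) hR.nc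
      (fun ⟨i, hi, j, hj, e⟩ => absurd e (hR.nb i hi j hj)) hg.notMem hn1
    exact Rn.no V hR' (v := (c', v.2)) q
  rw [freeze_all hA hAB hI.inv hI.tn φ a b _ _ rfl Subset.rfl hA.mem
    (fun c hc z h1 h2 => (hA.nest c hc z h1 h2).1) hab]
  have hyP : X.y0.1 ∉ Pf w h cl Mu := fun hh => by
    obtain ⟨i, hi, e, -⟩ := mem_Pf.1 hh
    exact hy0 i hi e
  refine ZF_root0 (s0 := can (Uf c0 h cl Mu)) (Q := (Pf w h cl Mu)ᶜ) ?_ (mem_compl.2 hyP)
    (V.noE hA hI hn hex) φ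
  exact frz_of hA a b

/-- **Equal state sums.** Two configurations which agree outside the box and whose glued box has the same
strands, seen from outside, have the same state sums, if the weights of the exit columns correspond. -/
theorem box_eq (hM : Mats Y τ w h cl T s Mu Md M) (hM' : Mats Y τ w h cl T s' Mu' Md' M')
    (hS : Same2 w h Mu M Mu' M')
    (hag : ∀ k, (∀ i < w, ∀ j < 2 * h, k ≠ T i j) → (∀ c, k ≠ τ c) → s k = s' k)
    {X X' : Net (Fin N)} (hI : Ind Y s τ X) (hI' : Ind Y s' τ X') {ρ0 : κ × Dir} {r r' : ℤ}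
    (hR : Rt Y s τ w h cl T X ρ0 r) (hR' : Rt Y s' τ w h cl T X' ρ0 r')
    (hy : X.y0 = X'.y0) (hy0 : ∀ i < w, X.y0.1 ≠ cl i) {A B : ℂ} (hAB : Over A B) {a b a' b' : Fin N → ℂ}
    (hab : ∀ c ∈ Pf w h cl Mu, a c = A ∧ b c = B) (hab' : ∀ c ∈ Pf w h cl Mu', a' c = A ∧ b' c = B)
    (hQ : ∀ c c', RelC w h cl Mu Mu' c c' → a c = a' c' ∧ b c = b' c') (φ : ℤ → ℂ) :
    ZF X (fun k => φ (k + r)) a b = ZF X' (fun k => φ (k + r')) a' b' := by
  have hn : Nr w h cl Mu X := Rt.nr V hM hR hy0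
  have hn' : Nr w h cl Mu' X' := Rt.nr V hM' hR' (by rw [← hy]; exact hy0)
  have hA := V.arcs hM hI hn
  have hA' := V.arcs hM' hI' hn'
  have hr := V.rowOn hI
  have hr' := V.rowOn hI'
  have hN := V.c2
  have hc1 := V.c1
  obtain ⟨ρ, hρ1, hρ2⟩ := V.exists_rho hM hM' hS
  have hρP : ∀ c, c ∉ Pf w h cl Mu → ρ c ∉ Pf w h cl Mu' := fun c hc hh => hc ((hρ2 c).2 hh)
  have out : ∀ c : Fin N, (∀ i < w, c ≠ cl i) → c ∉ Pf w h cl Mu ∧ ρ c = c := by
    intro c hc
    have h1 : c ∉ Pf w h cl Mu := fun hh => by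
      obtain ⟨i, hi, e, -⟩ := mem_Pf.1 hh
      exact hc i hi e
    refine ⟨h1, ?_⟩
    rcases hρ1 c h1 with ⟨e, -⟩ | ⟨i, i', ⟨hi, -⟩, e, -⟩
    · exact e
    · exact absurd e (hc i hi)
  have yt : ∀ c d, c ∉ Pf w h cl Mu → Y.t (τ c, d) = Y.t (τ (ρ c), d) := by
    intro c d hc
    rcases hρ1 c hc with ⟨e, -⟩ | ⟨i, i', ⟨hi, hi', -⟩, e, e'⟩
    · rw [e]
    · rw [e', e, V.tr i hi, V.tr i' hi']
  -- the strands
  have strand : ∀ (c : Fin N) (d : Dir), c ∉ Pf w h cl Mu → ((∃ i < w, c = cl i) → d = .N ∨ d = .S) →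
      (d = .E → ¬ (c0 - 1 ≤ (c : ℕ) ∧ (c : ℕ) < c0 + w)) →
      (d = .W → ¬ (c0 - 1 < (c : ℕ) ∧ (c : ℕ) ≤ c0 + w)) →
      ∃ v t t', GlE X (Pf w h cl Mu) (Uf c0 h cl Mu) (X.π (c, d)) v t ∧
        GlE X' (Pf w h cl Mu') (Uf c0 h cl Mu') (X'.π (ρ c, d)) (relE ρ v) t' ∧
        X.t (c, d) + t = X'.t (ρ c, d) + t' := by
    intro c d hc hd hE hW
    obtain ⟨v, t, hg⟩ := arcs_exE hA hI.inv hr V.c2 (fun c hc => V.Pf_int hc) hc hE hW
    have hE' : d = .E → ¬ (c0 - 1 ≤ ((ρ c : Fin N) : ℕ) ∧ ((ρ c : Fin N) : ℕ) < c0 + w) := by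
      intro hd2
      have h1 := hE hd2
      rw [(out c (fun i hi e => by have := V.clv i hi; rw [← e] at this; omega)).2]
      exact h1
    have hW' : d = .W → ¬ (c0 - 1 < ((ρ c : Fin N) : ℕ) ∧ ((ρ c : Fin N) : ℕ) ≤ c0 + w) := by
      intro hd2
      have h1 := hW hd2
      rw [(out c (fun i hi e => by have := V.clv i hi; rw [← e] at this; omega)).2]
      exact h1
    obtain ⟨v', t', hg'⟩ := arcs_exE hA' hI'.inv hr' V.c2 (fun c hc => V.Pf_int hc) (hρP c hc) hE' hW'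
    have p := V.toPR hM hI hA hg (c := c) (d := d) rfl
    have p' := V.toPR hM' hI' hA' hg' (c := ρ c) (d := d) rfl
    obtain ⟨v1, hv1, p2⟩ := V.sim_col hM hM' hS hag (hρ1 c hc) hd hE hW hg.notMem p
    obtain ⟨e1, e2⟩ := p'.uniq p2 (row_not_off _ _ _) (row_not_off _ _ _)
    have e3 : v'.1 = v1 := V.τinj (congrArg (fun z : κ × Dir => z.1) e1)
    have e4 : v'.2 = v.2 := congrArg (fun z : κ × Dir => z.2) e1
    have e5 : v' = relE ρ v := by
      refine Prod.ext ?_ e4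
      rw [e3]
      exact V.relC_unique hM hM' hv1 (hρ1 _ hg.notMem)
    rw [e5] at hg'
    refine ⟨v, t, t', hg, hg', ?_⟩
    have := yt c d hc
    linarith
  have te0 : ∀ n : ℕ, c0 - 1 ≤ n → n < c0 + w → TE X n = TE X' n := by
    intro n hn1 hn
    obtain ⟨c, hc⟩ : ∃ c : Fin N, (c : ℕ) = n := ⟨⟨n, by omega⟩, rfl⟩
    obtain ⟨c', hc'⟩ : ∃ c' : Fin N, (c' : ℕ) = c + 1 := ⟨⟨n + 1, by omega⟩, by simp only; omega⟩
    rw [← hc, TE_eq, TE_eq, (V.rowX hI hc' (by omega) (by omega)).2,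
      (V.rowX hI' hc' (by omega) (by omega)).2]
  have pre : ∀ c : Fin N, c ∉ Pf w h cl Mu → c0 - 1 ≤ (c : ℕ) → (c : ℕ) ≤ c0 + w →
      ∑ n ∈ Ico (c0 - 1) (c : ℕ), TE X n = ∑ n ∈ Ico (c0 - 1) (ρ c : ℕ), TE X' n := by
    intro c hc hl hh
    have e0 : ∀ m : ℕ, m ≤ c0 + w → ∑ n ∈ Ico (c0 - 1) m, TE X n = ∑ n ∈ Ico (c0 - 1) m, TE X' n :=
      fun m hm => sum_congr rfl fun n hn => te0 n (mem_Ico.1 hn).1 (by
        have := (mem_Ico.1 hn).2; omega)
    rcases hρ1 c hc with ⟨e, -⟩ | ⟨i, i', ⟨hi, hi', -⟩, e, e'⟩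
    · rw [e]; exact e0 _ hh
    · have z : ∀ i < w, ∑ n ∈ Ico (c0 - 1) (c0 + i), TE X' n = ∑ n ∈ Ico (c0 - 1) c0, TE X' n := by
        intro i hi
        rw [← Finset.sum_Ico_consecutive _ (show c0 - 1 ≤ c0 by omega) (show c0 ≤ c0 + i by omega)]
        rw [add_eq_left]
        apply sum_eq_zero
        intro n hn
        rw [mem_Ico] at hn
        exact V.TE0 hI' hn.1 (by omega)
      rw [e0 _ hh, e', e, V.clv i hi, V.clv i' hi', z i hi, z i' hi']
  have hcmp : Cmp2 X X' (Pf w h cl Mu) (Pf w h cl Mu') (Uf c0 h cl Mu) (Uf c0 h cl Mu') ρ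
      (c0 - 1) (c0 + w) r r' := by
    refine ⟨hA, hA', hr, hr', V.c2, fun c hc => V.Pf_int hc, hρ2, ?_, ?_, ?_, ?_, ?_, ?_, ?_, ?_⟩
    · intro c d hc hd hlt
      exact V.relC_lt hM hM' (hρ1 c hc) (hρ1 d hd) hlt
    · intro c hc
      have hb : ∀ i < w, c ≠ cl i := fun i hi e => by
        have := V.clv i hi; rw [← e] at this; omega
      obtain ⟨h1, h2⟩ := out c hb
      have := strand c .W h1 (fun ⟨i, hi, e⟩ => absurd e (hb i hi)) (fun hh => absurd hh (by decide))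
        (fun _ => hc)
      rw [h2] at this
      exact ⟨h2, this⟩
    · intro c hc
      have hb : ∀ i < w, c ≠ cl i := fun i hi e => by
        have := V.clv i hi; rw [← e] at this; omega
      obtain ⟨h1, h2⟩ := out c hb
      have := strand c .E h1 (fun ⟨i, hi, e⟩ => absurd e (hb i hi)) (fun _ => hc)
        (fun hh => absurd hh (by decide))
      rw [h2] at this
      exact ⟨h2, this⟩
    · intro c d hc hd hl hlt hh
      have h1 := V.relC_lt hM hM' (hρ1 c hc) (hρ1 d hd) hlt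
      have hlt' := Fin.lt_def.1 hlt
      have h1' := Fin.lt_def.1 h1
      have p1 := pre c hc hl (by omega)
      have p2 := pre d hd (by omega) hh
      have q1 := Finset.sum_Ico_consecutive (fun n => TE X n) hl hlt'.le
      have hrl : c0 - 1 ≤ (ρ c : ℕ) := by
        rcases hρ1 c hc with ⟨e, -⟩ | ⟨i, i', ⟨hi, hi', -⟩, e, e'⟩
        · rw [e]; exact hl
        · rw [e', V.clv i' hi']; omega
      have q2 := Finset.sum_Ico_consecutive (fun n => TE X' n) hrl h1'.le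
      linarith
    · intro c hc d hd
      have k1 : d ≠ .E := by rcases hd with rfl | rfl <;> decide
      have k2 : d ≠ .W := by rcases hd with rfl | rfl <;> decide
      exact strand c d hc (fun _ => hd) (fun hh => absurd hh k1) (fun hh => absurd hh k2)
    · by_cases hex : ∃ v t, GlE X (Pf w h cl Mu) (Uf c0 h cl Mu) X.x0 v t
      · left
        obtain ⟨v, t, hg⟩ := hex
        obtain ⟨c', t', hc', hg', ht⟩ := V.root_sim hM hM' hS hag hI hI' hR hR' hn hn' hg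
        refine ⟨v, t, t', hg, ?_, ht⟩
        have e : relE ρ v = (c', v.2) :=
          Prod.ext (V.relC_unique hM hM' (hρ1 _ hg.notMem) hc') rfl
        rw [e]; exact hg'
      · right
        have hex' : ¬ ∃ v t, GlE X' (Pf w h cl Mu') (Uf c0 h cl Mu') X'.x0 v t := by
          rintro ⟨v, t, hg⟩
          obtain ⟨c', t', hc', hg', ht⟩ := V.root_sim hM' hM hS.symm
            (fun k h1 h2 => (hag k h1 h2).symm) hI' hI hR' hR hn' hn hg
          exact hex ⟨_, _, hg'⟩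
        exact ⟨V.noE hA hI hn hex, V.noE hA' hI' hn' hex'⟩
    · rw [← hy]
      exact Prod.ext (out _ hy0).2 rfl
    · exact (out _ hy0).1
  exact hcmp.eq hAB hI.inv hI.tn hI'.inv hI'.tn hab hab' (fun c hc => hQ c _ (hρ1 c hc)) φ

end

end Pool.Agent.H69.W.World
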