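import Mathlib
import Pool.Agent.H69.M6b.Slide
import Pool.Agent.H69.W.Flip
import Pool.Agent.Q1.M6b.Meander

set_option autoImplicit false
set_option linter.unusedSectionVars false
open Finset

/-! # A coupon in the box -/

namespace Pool.Agent.H69.W

open Pool.Agent.H69.M6b Pool.Agent.H69.M6b.World

open Pool.Agent.H81.G1

variable {κ : Type*} {N : ℕ}



lemma se_inj_gen {T : ℕ → ℕ → κ} {w h : ℕ} (hw : 0 < w) (hh : 0 < h)
    (hT : ∀ i < w, ∀ j < h, ∀ i' < w, ∀ j' < h, T i j = T i' j' → i = i' ∧ j = j') {k l : ℕ}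
    (hk : k < 2 * (h + w)) (hl : l < 2 * (h + w)) (e : se T w h k = se T w h l) : k = l := by
  have rng : ∀ k < 2 * (h + w), (k < h ∧ se T w h k = (T 0 (h - 1 - k), .W)) ∨
      (h ≤ k ∧ k < h + w ∧ se T w h k = (T (k - h) 0, .S)) ∨
      (h + w ≤ k ∧ k < h + w + h ∧ se T w h k = (T (w - 1) (k - (h + w)), .E)) ∨
      (h + w + h ≤ k ∧ se T w h k = (T (2 * (h + w) - 1 - k) (h - 1), .N)) := by
    intro k _
    unfold se
    by_cases h1 : k < h
    · left; exact ⟨h1, by rw [if_pos h1]⟩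
    by_cases h2 : k < h + w
    · right; left; exact ⟨by omega, h2, by rw [if_neg h1, if_pos h2]⟩
    by_cases h3 : k < h + w + h
    · right; right; left
      exact ⟨by omega, h3, by rw [if_neg h1, if_neg h2, if_pos h3]⟩
    · right; right; right
      exact ⟨by omega, by rw [if_neg h1, if_neg h2, if_neg h3]⟩
  rcases rng k hk with ⟨a1, a2⟩ | ⟨a1, a3, a2⟩ | ⟨a1, a3, a2⟩ | ⟨a1, a2⟩ <;>
    rcases rng l hl with ⟨b1, b2⟩ | ⟨b1, b3, b2⟩ | ⟨b1, b3, b2⟩ | ⟨b1, b2⟩ <;>
    rw [a2, b2] at e <;> have e1 := congrArg Prod.fst e <;> have e2 := congrArg Prod.snd e <;>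
    simp only at e1 e2 <;> first | (exact absurd e2 (by decide)) | skip
  · have := hT _ (by omega) _ (by omega) _ (by omega) _ (by omega) e1; omega
  · have := hT _ (by omega) _ (by omega) _ (by omega) _ (by omega) e1; omega
  · have := hT _ (by omega) _ (by omega) _ (by omega) _ (by omega) e1; omega
  · have := hT _ (by omega) _ (by omega) _ (by omega) _ (by omega) e1; omega

namespace World

variable {Y : Net κ} {τ : Fin N → κ} {c0 w h : ℕ} {cl : ℕ → Fin N} {T : ℕ → ℕ → κ}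

section
variable (V : World Y τ c0 w h cl T) {s : κ → Bool} {Mu Md M Nu Nd M2 : ℕ → ℕ}
include V

lemma psn_AB {j : ℕ} (hj : j < w) (d : Bool) : psn T h j d ∈ Bx' T w 0 (2 * h) := by
  have hh := V.h0
  cases d
  · exact ⟨j, hj, h - 1, Nat.zero_le _, by omega, rfl⟩
  · exact ⟨j, hj, h, Nat.zero_le _, by omega, rfl⟩

lemma psn_inj {i j : ℕ} (hi : i < w) (hj : j < w) {b d : Bool} (e : psn T h i b = psn T h j d) :
    i = j ∧ b = d := by
  have hh := V.h0
  unfold psn at e
  cases b <;> cases d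
  · exact ⟨(V.Tinj i hi _ (by omega) j hj _ (by omega) (congrArg Prod.fst e)).1, rfl⟩
  · exact absurd (congrArg Prod.snd e) (by simp)
  · exact absurd (congrArg Prod.snd e) (by simp)
  · exact ⟨(V.Tinj i hi _ (by omega) j hj _ (by omega) (congrArg Prod.fst e)).1, rfl⟩

lemma pi_psn {j : ℕ} (hj : j < w) (d : Bool) :
    Y.π (psn T h j d) = (τ (cl j), if d then .N else .S) := by
  cases d
  · exact V.dn j hj
  · exact V.up j hj

lemma rv_psn {j : ℕ} (hj : j < w) (d : Bool) : rv Y τ w cl (psn T h j d) = psn T h j (!d) := by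
  unfold rv
  rw [V.pi_psn hj]
  rw [pas_in ⟨j, hj, rfl⟩]
  cases d
  · exact V.up' j hj
  · exact V.dn' j hj

/-- a piece of a strand above the row -/
lemma up_piece (hM : Mats Y τ w h cl T s Mu Md M) {k : ℕ} (hk : k < 2 * (h + w)) :
    ∃ n, 0 < n ∧ Pn (ps Y s (Qb τ w cl)) (Y.dt s) (Bx' T w 0 (2 * h)) n
      (se (Tu T h) w h k) (pas Y (Qb τ w cl) (Y.π (se (Tu T h) w h (Mu k))))
      (tt (h + w) (Kp w h) k (Mu k)) ∧
      ∀ m, 0 < m → m < n → ∀ j < w, ∀ d,
        (ps Y s (Qb τ w cl))^[m] (se (Tu T h) w h k) ≠ psn T h j d := by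
  obtain ⟨n, hn⟩ := hM.u.path k hk
  have hn' : Pn (Y.step s) (Y.dt s) (Bx' (Tu T h) w 0 h) n (se (Tu T h) w h k)
      (Y.π (se (Tu T h) w h (Mu k))) (tt (h + w) (Kp w h) k (Mu k)) := hn
  obtain ⟨n1, hn1, p1⟩ := V.up_path hM (Q := Qb τ w cl) (fun _ h => h) hk
  have hh := V.h0
  have h1 : se (Tu T h) w h k ∈ Bx' (Tu T h) w 0 h := se_mem V.w0 V.h0 hk
  have h2 : Y.π (se (Tu T h) w h (Mu k)) ∉ Bx' (Tu T h) w 0 h := by
    intro hz
    have hz' := Au_AB hz
    have hl := hM.u.lt k hk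
    by_cases ho : Mu k < h ∨ h + w ≤ Mu k
    · rw [se_u hl ho] at hz'
      exact V.out_B (eu_lt hl) hz'
    · have e : Mu k = h + (Mu k - h) := by omega
      rw [e, V.out_u (by omega)] at hz'
      exact V.row_AB _ _ hz'
  have hpos := hn'.pos h1 h2
  have hg := (Pn.mono Au_AB hn').toPs (Q := Qb τ w cl) hpos fun z hz hq => V.AB_Qb hz hq
  refine ⟨n, hpos, hg, ?_⟩
  have same : ∀ m < n, (ps Y s (Qb τ w cl))^[m] (se (Tu T h) w h k) =
      (Y.step s)^[m] (se (Tu T h) w h k) := by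
    intro m
    induction m with
    | zero => intro _; rfl
    | succ m ih =>
      intro hm
      rw [Function.iterate_succ_apply', ih (by omega), Function.iterate_succ_apply']
      unfold ps
      apply pas_out
      have := hn'.2.1 (m + 1) hm
      rw [Function.iterate_succ_apply'] at this
      exact V.AB_Qb (Au_AB this)
  intro m hm hmn j hj d e
  rw [same m hmn] at e
  obtain ⟨m', rfl⟩ : ∃ m', m = m' + 1 := ⟨m - 1, by omega⟩
  rw [Function.iterate_succ_apply'] at e
  have e2 : Y.π ((Y.step s) ((Y.step s)^[m'] (se (Tu T h) w h k))) =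
      (((Y.step s)^[m'] (se (Tu T h) w h k)).1,
        Dir.mate (s ((Y.step s)^[m'] (se (Tu T h) w h k)).1) ((Y.step s)^[m'] (se (Tu T h) w h k)).2) := by
    unfold Net.step; rw [V.inv]
  rw [e, V.pi_psn hj] at e2
  exact V.AB_row (Au_AB (hn'.2.1 m' (by omega))) (cl j) (congrArg (fun z : κ × Dir => z.1) e2).symm

/-- a piece of a strand below the row -/
lemma dn_piece (hM : Mats Y τ w h cl T s Mu Md M) {k : ℕ} (hk : k < 2 * (h + w)) :
    ∃ n, 0 < n ∧ Pn (ps Y s (Qb τ w cl)) (Y.dt s) (Bx' T w 0 (2 * h)) n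
      (se T w h k) (pas Y (Qb τ w cl) (Y.π (se T w h (Md k))))
      (tt (h + w) (Kp w h) k (Md k)) ∧
      ∀ m, 0 < m → m < n → ∀ j < w, ∀ d,
        (ps Y s (Qb τ w cl))^[m] (se T w h k) ≠ psn T h j d := by
  obtain ⟨n, hn⟩ := hM.d.path k hk
  have hn' : Pn (Y.step s) (Y.dt s) (Bx' T w 0 h) n (se T w h k)
      (Y.π (se T w h (Md k))) (tt (h + w) (Kp w h) k (Md k)) := hn
  have hh := V.h0
  have h1 : se T w h k ∈ Bx' T w 0 h := se_mem V.w0 V.h0 hk
  have h2 : Y.π (se T w h (Md k)) ∉ Bx' T w 0 h := by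
    intro hz
    have hz' := Ad_AB hz
    have hl := hM.d.lt k hk
    by_cases ho : Md k < 2 * h + w
    · rw [se_d ho] at hz'
      exact V.out_B (by omega) hz'
    · have e : Md k = 2 * (h + w) - 1 - (2 * (h + w) - 1 - Md k) := by omega
      rw [e, V.out_d (by omega)] at hz'
      exact V.row_AB _ _ hz'
  have hpos := hn'.pos h1 h2
  have hg := (Pn.mono Ad_AB hn').toPs (Q := Qb τ w cl) hpos fun z hz hq => V.AB_Qb hz hq
  refine ⟨n, hpos, hg, ?_⟩
  have same : ∀ m < n, (ps Y s (Qb τ w cl))^[m] (se T w h k) = (Y.step s)^[m] (se T w h k) := by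
    intro m
    induction m with
    | zero => intro _; rfl
    | succ m ih =>
      intro hm
      rw [Function.iterate_succ_apply', ih (by omega), Function.iterate_succ_apply']
      unfold ps
      apply pas_out
      have := hn'.2.1 (m + 1) hm
      rw [Function.iterate_succ_apply'] at this
      exact V.AB_Qb (Ad_AB this)
  intro m hm hmn j hj d e
  rw [same m hmn] at e
  obtain ⟨m', rfl⟩ : ∃ m', m = m' + 1 := ⟨m - 1, by omega⟩
  rw [Function.iterate_succ_apply'] at e
  have e2 : Y.π ((Y.step s) ((Y.step s)^[m'] (se T w h k))) =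
      (((Y.step s)^[m'] (se T w h k)).1,
        Dir.mate (s ((Y.step s)^[m'] (se T w h k)).1) ((Y.step s)^[m'] (se T w h k)).2) := by
    unfold Net.step; rw [V.inv]
  rw [e, V.pi_psn hj] at e2
  exact V.AB_row (Ad_AB (hn'.2.1 m' (by omega))) (cl j) (congrArg (fun z : κ × Dir => z.1) e2).symm

/-! ### Slides -/

/-- the lower matching is the upper matching of the mirror image -/
lemma Nu_of_Md (hM : Mats Y τ w h cl T s Mu Md M)
    (hN : Mats (mir Y) τ w h cl (Tf T h) (fun k => !s k) Nu Nd M2) {i i' : ℕ} (hi : i < w)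
    (hi' : i' < w) (e : Md (2 * (h + w) - 1 - i) = 2 * (h + w) - 1 - i') : Nu (h + i) = h + i' := by
  have hh := V.h0
  have V' := V.flip
  obtain ⟨n, hn⟩ := hM.d.path (2 * (h + w) - 1 - i) (by omega)
  have hn' : Pn (Y.step s) (Y.dt s) (Bx' T w 0 h) n (se T w h (2 * (h + w) - 1 - i))
      (Y.π (se T w h (Md (2 * (h + w) - 1 - i)))) _ := hn
  rw [e, V.out_d hi', se_cd hi] at hn'
  have p1 := hn'.flipY (R' := Bx' (Tu (Tf T h) h) w 0 h) (fun z hz => fl_Ad hz)
  obtain ⟨m, hm⟩ := hN.u.path (h + i) (by omega)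
  have hm' : Pn ((mir Y).step fun k => !s k) ((mir Y).dt fun k => !s k) (Bx' (Tu (Tf T h) h) w 0 h) m
      (se (Tu (Tf T h) h) w h (h + i)) ((mir Y).π (se (Tu (Tf T h) h) w h (Nu (h + i)))) _ := hm
  have e1 : se (Tu (Tf T h) h) w h (h + i) = fl (T i (h - 1), Dir.N) := by
    rw [se_cu hi]
    unfold Tf fl
    simp only [fld]
    congr 2
    omega
  rw [e1] at hm'
  have hl := hN.u.lt (h + i) (by omega)
  have nr : ∀ c d, (τ c, d) ∉ Bx' (Tu (Tf T h) h) w 0 h := fun c d hz => V'.row_AB c d (Au_AB hz)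
  have no : (mir Y).π (se (Tu (Tf T h) h) w h (Nu (h + i))) ∉ Bx' (Tu (Tf T h) h) w 0 h := by
    intro hz
    by_cases ho : Nu (h + i) < h ∨ h + w ≤ Nu (h + i)
    · rw [se_u hl ho] at hz
      exact V'.out_B (eu_lt hl) (Au_AB hz)
    · have e : Nu (h + i) = h + (Nu (h + i) - h) := by omega
      rw [e, V'.out_u (by omega)] at hz
      exact nr _ _ hz
  obtain ⟨-, e2, -⟩ := p1.uniq hm' (nr _ _) no
  have e3 : fl (τ (cl i'), Dir.S) = (mir Y).π (se (Tu (Tf T h) h) w h (h + i')) := by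
    rw [V'.out_u hi']; rfl
  rw [e3] at e2
  refine (se_inj_gen V.w0 V.h0 ?_ (by omega) hl (V'.pi_inj e2)).symm
  intro i hi j hj i' hi' j' hj' e
  have := V'.Tinj i hi (h + j) (by omega) i' hi' (h + j') (by omega) e
  omega

lemma slideU (hM : Mats Y τ w h cl T s Mu Md M) {X : Net (Fin N)} (hI : Ind Y s τ X)
    (hn : Nr w h cl Mu X) {A B : ℂ} (hAB : Over A B)
    {ξ : ℂ} (hξ : ξ ^ 2 = A) {a b : Fin N → ℂ} (hab : ∀ i < w, a (cl i) = A ∧ b (cl i) = B)
    (φ : ℤ → ℂ) {i i' : ℕ} (hi : i < w) (hi' : i' < w) (e : Mu (h + i) = h + i') :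
    cpn X φ a b (cl i') = ξ ^ (tt (h + w) (Kp w h) (h + i) (h + i')) * cpn X φ a b (cl i) := by
  have hA := V.arcs hM hI hn
  have hξ0 : ξ ≠ 0 := by
    intro h0
    rw [h0] at hξ
    have := hAB.mul
    rw [← hξ] at this
    norm_num at this
  have hne : i ≠ i' := by
    intro hh
    exact hM.u.ne (h + i) (by omega) (by rw [e, hh])
  have hback : Mu (h + i') = h + i := by rw [← e]; exact hM.u.inv _ (by omega)
  -- the slide from the left foot to the right foot
  have key : ∀ {i i' : ℕ}, i < w → i' < w → Mu (h + i) = h + i' → i < i' →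
      cpn X φ a b (cl i') = B * cpn X φ a b (cl i) := by
    intro i i' hi hi' e hlt
    have hp : isP w h Mu i := by unfold isP; omega
    have hU : Uf c0 h cl Mu (cl i) = cl i' := by rw [V.Uf_cl hi, e, Nat.add_sub_cancel_left]
    have hcl : cl i < cl i' := by rw [Fin.lt_def, V.clv i hi, V.clv i' hi']; omega
    have h1 := slide_row hA hAB hI.inv hI.tn φ a b ((V.cl_Pf hi).2 hp) (by rw [hU]; exact hcl)
      (by
        intro z h1 h2
        rw [hU, Fin.lt_def, V.clv i' hi'] at h2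
        rw [Fin.lt_def, V.clv i hi] at h1
        obtain ⟨k, hk, ek, -⟩ := V.box_col (c := z) (by omega) (by omega)
        rw [ek]; exact hab k hk)
    rw [hU] at h1
    have e1 : upd2 a (cl i) (cl i') A 1 = Function.update a (cl i') 1 := by
      unfold upd2; rw [← (hab i hi).1, Function.update_eq_self]
    have e2 : upd2 b (cl i) (cl i') B (-1) = Function.update b (cl i') (-1) := by
      unfold upd2; rw [← (hab i hi).2, Function.update_eq_self]
    have e3 : upd2 a (cl i) (cl i') 1 A = Function.update a (cl i) 1 := by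
      unfold upd2
      rw [← (hab i' hi').1, Function.update_comm hcl.ne, Function.update_eq_self]
    have e4 : upd2 b (cl i) (cl i') (-1) B = Function.update b (cl i) (-1) := by
      unfold upd2
      rw [← (hab i' hi').2, Function.update_comm hcl.ne, Function.update_eq_self]
    rw [e1, e2, e3, e4] at h1
    exact h1
  have hB : ξ ^ (-2 : ℤ) = B := by
    have h2 : ξ ^ (-2 : ℤ) * ξ ^ 2 = 1 := by
      rw [← zpow_natCast ξ 2, ← zpow_add₀ hξ0]; norm_num
    rw [hξ] at h2
    have h3 := hAB.mul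
    have hA0 : A ≠ 0 := by intro h0; rw [h0, zero_mul] at h3; exact zero_ne_one h3
    have h4 : ξ ^ (-2 : ℤ) * A = B * A := by rw [h2, mul_comm B A, h3]
    exact mul_right_cancel₀ hA0 h4
  have k1 : Kp w h (h + i) = 1 := by unfold Kp; rw [if_neg (by omega), if_pos (by omega)]
  have k2 : Kp w h (h + i') = 1 := by unfold Kp; rw [if_neg (by omega), if_pos (by omega)]
  have c1 : (h + i < h + w ↔ h + i' < h + w) := ⟨fun _ => by omega, fun _ => by omega⟩
  rcases lt_or_gt_of_ne hne with hlt | hlt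
  · have et : tt (h + w) (Kp w h) (h + i) (h + i') = -2 := by
      unfold tt; rw [k1, k2, if_pos c1, if_pos (by omega)]; norm_num
    rw [et, hB]
    exact key hi hi' e hlt
  · have et : tt (h + w) (Kp w h) (h + i) (h + i') = 2 := by
      unfold tt; rw [k1, k2, if_pos c1, if_neg (by omega)]; norm_num
    rw [et, key hi' hi hback hlt, ← mul_assoc]
    have e5 : ξ ^ (2 : ℤ) = A := by
      rw [← hξ, show (2 : ℤ) = ((2 : ℕ) : ℤ) from rfl, zpow_natCast]
    rw [e5, hAB.mul, one_mul]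

end

/-- the sign of the coupon -/
lemma ZF_neg {N : ℕ} (Y : Net (Fin N)) (ψ : ℤ → ℂ) {u v u' v' : Fin N → ℂ} (c : Fin N)
    (h1 : ∀ z, z ≠ c → u' z = u z ∧ v' z = v z) (h2 : u' c = -u c) (h3 : v' c = -v c) :
    ZF Y ψ u' v' = -ZF Y ψ u v := by
  unfold ZF
  rw [← sum_neg_distrib]
  apply sum_congr rfl
  intro s _
  rw [← neg_mul]
  congr 1
  rw [← Finset.mul_prod_erase univ _ (mem_univ c), ← Finset.mul_prod_erase univ _ (mem_univ c),
    ← neg_mul]
  congr 1
  · rw [h2, h3]; split_ifs <;> rfl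
  · apply prod_congr rfl
    intro z hz
    rw [(h1 z (mem_erase.1 hz).1).1, (h1 z (mem_erase.1 hz).1).2]

/-- mirror image of an amplitude with a coupon -/
lemma cpn_mir (X : Net (Fin N)) (φ : ℤ → ℂ) (a b : Fin N → ℂ) (c : Fin N) :
    cpn (mir X) (fun k => φ (-k)) b a c = -cpn X φ a b c := by
  unfold cpn
  rw [← ZF_mir X φ]
  rw [← ZF_neg (mir X) (fun k => φ (-k)) (u := Function.update b c (-1))
    (v := Function.update a c 1) c]
  · intro z hz
    rw [Function.update_of_ne hz, Function.update_of_ne hz, Function.update_of_ne hz,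
      Function.update_of_ne hz]
    exact ⟨rfl, rfl⟩
  · rw [Function.update_self, Function.update_self]; ring
  · rw [Function.update_self, Function.update_self]

section
variable (V : World Y τ c0 w h cl T) {s : κ → Bool} {Mu Md M Nu Nd M2 : ℕ → ℕ}
include V

lemma slideD (hM : Mats Y τ w h cl T s Mu Md M)
    (hN : Mats (mir Y) τ w h cl (Tf T h) (fun k => !s k) Nu Nd M2) {X : Net (Fin N)}
    (hI : Ind Y s τ X) (hn : Nr w h cl Nu (mir X)) {A B : ℂ}
    (hAB : Over A B) {ξ : ℂ} (hξ : ξ ^ 2 = A) {a b : Fin N → ℂ}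
    (hab : ∀ i < w, a (cl i) = A ∧ b (cl i) = B) (φ : ℤ → ℂ) {i i' : ℕ} (hi : i < w) (hi' : i' < w)
    (e : Md (2 * (h + w) - 1 - i) = 2 * (h + w) - 1 - i') :
    cpn X φ a b (cl i') = ξ ^ (tt (h + w) (Kp w h) (2 * (h + w) - 1 - i) (2 * (h + w) - 1 - i')) *
      cpn X φ a b (cl i) := by
  have hh := V.h0
  have hNu := V.Nu_of_Md hM hN hi hi' e
  have hAB' : Over B A := ⟨by rw [mul_comm]; exact hAB.mul, by rw [add_comm]; exact hAB.add⟩
  have hξ0 : ξ ≠ 0 := by
    intro h0
    rw [h0] at hξ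
    have := hAB.mul
    rw [← hξ] at this
    norm_num at this
  have hξ' : ξ⁻¹ ^ 2 = B := by
    rw [inv_pow, hξ]
    have h3 := hAB.mul
    have hA0 : A ≠ 0 := by intro h0; rw [h0, zero_mul] at h3; exact zero_ne_one h3
    rw [inv_eq_of_mul_eq_one_right h3]
  have h1 := V.flip.slideU hN hI.flip (ξ := ξ⁻¹) hn hAB' hξ' (a := b) (b := a)
    (fun i hi => ⟨(hab i hi).2, (hab i hi).1⟩) (fun k => φ (-k)) hi hi' hNu
  rw [cpn_mir, cpn_mir] at h1
  have hne : i ≠ i' := by
    intro hh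
    exact hN.u.ne (h + i) (by omega) (by rw [hNu, hh])
  have k1 : Kp w h (h + i) = 1 := by unfold Kp; rw [if_neg (by omega), if_pos (by omega)]
  have k2 : Kp w h (h + i') = 1 := by unfold Kp; rw [if_neg (by omega), if_pos (by omega)]
  have k3 : Kp w h (2 * (h + w) - 1 - i) = 1 := by
    unfold Kp; rw [if_neg (by omega), if_neg (by omega), if_neg (by omega)]
  have k4 : Kp w h (2 * (h + w) - 1 - i') = 1 := by
    unfold Kp; rw [if_neg (by omega), if_neg (by omega), if_neg (by omega)]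
  have c1 : (h + i < h + w ↔ h + i' < h + w) := ⟨fun _ => by omega, fun _ => by omega⟩
  have c2 : (2 * (h + w) - 1 - i < h + w ↔ 2 * (h + w) - 1 - i' < h + w) :=
    ⟨fun _ => by omega, fun _ => by omega⟩
  have et : tt (h + w) (Kp w h) (2 * (h + w) - 1 - i) (2 * (h + w) - 1 - i') =
      -tt (h + w) (Kp w h) (h + i) (h + i') := by
    unfold tt
    rw [k1, k2, k3, k4, if_pos c1, if_pos c2]
    rcases lt_or_gt_of_ne hne with hlt | hlt
    · rw [if_neg (by omega), if_pos (by omega)]; norm_num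
    · rw [if_pos (by omega), if_neg (by omega)]; norm_num
  rw [et, zpow_neg, ← inv_zpow]
  linear_combination -h1

end

end World

end Pool.Agent.H69.W
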