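import Mathlib
import Pool.Agent.H69.M6b.Slem
import Pool.Agent.H69.W.Slide

set_option autoImplicit false
set_option linter.unusedSectionVars false
open Finset

/-! # Amplitudes with a coupon at the columns of a strand -/

namespace Pool.Agent.H69.W

open Pool.Agent.H69.M6b Pool.Agent.H69.M6b.World

open Pool.Agent.H81.G1

section
variable {D : Type*} {f : D → D} {δ : D → ℤ} {R : Set D}

lemma Pn.rest' {n m : ℕ} {x y z : D} {t t' : ℤ} (h : Pn f δ R n x z t)
    (h' : Pn f δ R m x y t') (hmn : m ≤ n) : Pn f δ R (n - m) y z (t - t') := by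
  obtain ⟨k, rfl⟩ : ∃ k, n = m + k := ⟨n - m, by omega⟩
  have e : ∀ i, f^[m + i] x = f^[i] y := by
    intro i; rw [Nat.add_comm, Function.iterate_add_apply, h'.1]
  refine ⟨?_, ?_, ?_⟩
  · rw [Nat.add_sub_cancel_left, ← e]; exact h.1
  · intro i hi
    rw [← e]; exact h.2.1 _ (by omega)
  · rw [Nat.add_sub_cancel_left, h.2.2, h'.2.2, Finset.sum_range_add]
    simp only [e]
    ring

/-- two paths from the same point, one is longer -/
lemma Pn.total {n m : ℕ} {x y z : D} {t t' : ℤ} (h : Pn f δ R n x y t) (h' : Pn f δ R m x z t') :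
    Pn f δ R (n - m) z y (t - t') ∨ Pn f δ R (m - n) y z (t' - t) := by
  rcases le_total m n with h1 | h1
  · exact Or.inl (h.rest' h' h1)
  · exact Or.inr (h'.rest' h h1)

end

variable {κ : Type*} {N : ℕ}

namespace World

variable {Y : Net κ} {τ : Fin N → κ} {c0 w h : ℕ} {cl : ℕ → Fin N} {T : ℕ → ℕ → κ}

section
variable (V : World Y τ c0 w h cl T) {s : κ → Bool} {Mu Md M Nu Nd M2 : ℕ → ℕ}
include V

/-- the columns of a piece above the row -/
lemma psn_end_u {i' : ℕ} (hi' : i' < w) :
    pas Y (Qb τ w cl) (Y.π (se (Tu T h) w h (h + i'))) = psn T h i' false := by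
  rw [V.out_u hi', pas_in ⟨i', hi', rfl⟩]
  exact V.dn' i' hi'

lemma psn_end_d {i' : ℕ} (hi' : i' < w) :
    pas Y (Qb τ w cl) (Y.π (se T w h (2 * (h + w) - 1 - i'))) = psn T h i' true := by
  rw [V.out_d hi', pas_in ⟨i', hi', rfl⟩]
  exact V.up' i' hi'

/-- the first piece of a path between two columns -/
lemma piece (hM : Mats Y τ w h cl T s Mu Md M) {m : ℕ} {i j : ℕ} {b d : Bool} {t : ℤ}
    (hi : i < w) (hj : j < w) (hm : 0 < m)
    (hp : Pn (ps Y s (Qb τ w cl)) (Y.dt s) (Bx' T w 0 (2 * h)) m (psn T h i b) (psn T h j d) t) :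
    ∃ n i', 0 < n ∧ n ≤ m ∧ i' < w ∧
      (b = true → Mu (h + i) = h + i') ∧
      (b = false → Md (2 * (h + w) - 1 - i) = 2 * (h + w) - 1 - i') ∧
      Pn (ps Y s (Qb τ w cl)) (Y.dt s) (Bx' T w 0 (2 * h)) n (psn T h i b) (psn T h i' (!b))
        (if b then tt (h + w) (Kp w h) (h + i) (h + i')
          else tt (h + w) (Kp w h) (2 * (h + w) - 1 - i) (2 * (h + w) - 1 - i')) := by
  have hh := V.h0
  cases b
  · -- below the row
    obtain ⟨n, hn, p, hno⟩ := V.dn_piece hM (k := 2 * (h + w) - 1 - i) (by omega)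
    have e0 : se T w h (2 * (h + w) - 1 - i) = psn T h i false := se_cd hi
    rw [e0] at p hno
    have hnm : n ≤ m := by
      by_contra hc
      exact hno m hm (by omega) j hj d hp.1
    have hl := hM.d.lt (2 * (h + w) - 1 - i) (by omega)
    have hcol : 2 * h + w ≤ Md (2 * (h + w) - 1 - i) := by
      by_contra hc
      rw [V.pas_d (fun _ h => h) (by omega)] at p
      have := (hp.rest' p hnm).2.1
      rcases Nat.lt_or_ge n m with h1 | h1
      · have h2 := this 0 (by omega)
        exact V.out_B (by omega) h2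
      · have h3 : n = m := by omega
        have h4 := p.1
        rw [h3, hp.1] at h4
        exact V.out_B (by omega) (h4 ▸ V.psn_AB hj d)
    refine ⟨n, 2 * (h + w) - 1 - Md (2 * (h + w) - 1 - i), hn, hnm, by omega, fun hc => ?_, fun _ => by omega, ?_⟩
    · exact absurd hc (by decide)
    have e1 : Md (2 * (h + w) - 1 - i) =
        2 * (h + w) - 1 - (2 * (h + w) - 1 - Md (2 * (h + w) - 1 - i)) := by omega
    rw [if_neg (by decide)]
    rw [e1, V.psn_end_d (by omega)] at p
    exact p
  · obtain ⟨n, hn, p, hno⟩ := V.up_piece hM (k := h + i) (by omega)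
    have e0 : se (Tu T h) w h (h + i) = psn T h i true := se_cu hi
    rw [e0] at p hno
    have hnm : n ≤ m := by
      by_contra hc
      exact hno m hm (by omega) j hj d hp.1
    have hl := hM.u.lt (h + i) (by omega)
    have hcol : h ≤ Mu (h + i) ∧ Mu (h + i) < h + w := by
      by_contra hc
      rw [V.pas_u (fun _ h => h) hl (by omega)] at p
      have := (hp.rest' p hnm).2.1
      rcases Nat.lt_or_ge n m with h1 | h1
      · have h2 := this 0 (by omega)
        exact V.out_B (eu_lt hl) h2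
      · have h3 : n = m := by omega
        have h4 := p.1
        rw [h3, hp.1] at h4
        exact V.out_B (eu_lt hl) (h4 ▸ V.psn_AB hj d)
    refine ⟨n, Mu (h + i) - h, hn, hnm, by omega, fun _ => by omega, fun hc => ?_, ?_⟩
    · exact absurd hc (by decide)
    have e1 : Mu (h + i) = h + (Mu (h + i) - h) := by omega
    rw [if_pos rfl]
    rw [e1, V.psn_end_u (by omega)] at p
    exact p

/-- **The amplitudes with a coupon at two columns of the same strand.** -/
theorem slem (hM : Mats Y τ w h cl T s Mu Md M)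
    (hN : Mats (mir Y) τ w h cl (Tf T h) (fun k => !s k) Nu Nd M2) {X : Net (Fin N)}
    (hI : Ind Y s τ X) (hr : Nr w h cl Mu X) (hr' : Nr w h cl Nu (mir X)) {A B : ℂ}
    (hAB : Over A B) {ξ : ℂ} (hξ : ξ ^ 2 = A) {a b : Fin N → ℂ}
    (hab : ∀ i < w, a (cl i) = A ∧ b (cl i) = B) (φ : ℤ → ℂ) {m : ℕ} :
    ∀ {i j : ℕ} {e d : Bool} {t : ℤ}, i < w → j < w →
    Pn (ps Y s (Qb τ w cl)) (Y.dt s) (Bx' T w 0 (2 * h)) m (psn T h i e) (psn T h j d) t →
    cpn X φ a b (cl j) = ξ ^ t * cpn X φ a b (cl i) := by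
  have hξ0 : ξ ≠ 0 := by
    intro h0
    rw [h0] at hξ
    have := hAB.mul
    rw [← hξ] at this
    norm_num at this
  induction m using Nat.strong_induction_on with
  | _ m ih =>
    intro i j e d t hi hj hp
    rcases Nat.eq_zero_or_pos m with h0 | h0
    · subst h0
      have e1 : psn T h i e = psn T h j d := hp.1
      have e2 : t = 0 := by have := hp.2.2; simpa using this
      rw [e2, zpow_zero, one_mul, (V.psn_inj hi hj e1).1]
    · obtain ⟨n, i', hn, hnm, hi', h1, h2, p⟩ := V.piece hM hi hj h0 hp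
      have h3 := ih (m - n) (by omega) hi' hj (hp.rest' p hnm)
      rw [h3]
      cases e
      · rw [if_neg (by decide)]
        rw [V.slideD hM hN hI hr' hAB hξ hab φ hi hi' (h2 rfl), ← mul_assoc,
          ← zpow_add₀ hξ0]
        congr 2
        ring
      · rw [if_pos rfl]
        rw [V.slideU hM hI hr hAB hξ hab φ hi hi' (h1 rfl), ← mul_assoc,
          ← zpow_add₀ hξ0]
        congr 2
        ring

end

end World

end Pool.Agent.H69.W
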