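import Mathlib
import Pool.Agent.H69.M6b.Vis
import Pool.Agent.H69.W.Slem
import Pool.Agent.H69.M6b.Clo

set_option autoImplicit false
set_option linter.unusedSectionVars false
open Finset

/-! # The columns which are passed by strands from the ports; the other columns -/

namespace Pool.Agent.H69.W

open Pool.Agent.H69.M6b Pool.Agent.H69.M6b.World

open Pool.Agent.H81.G1

variable {κ : Type*} {N : ℕ}

namespace World

variable {Y : Net κ} {τ : Fin N → κ} {c0 w h : ℕ} {cl : ℕ → Fin N} {T : ℕ → ℕ → κ}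


section
variable (V : World Y τ c0 w h cl T) {s : κ → Bool} {Mu Md M Nu Nd M2 : ℕ → ℕ}
include V

lemma se_AB {k : ℕ} (hk : k < 2 * (2 * h + w)) : se T w (2 * h) k ∈ Bx' T w 0 (2 * h) :=
  se_mem V.w0 (by have := V.h0; omega) hk

lemma rv_out {k : ℕ} (hk : k < 2 * (2 * h + w)) :
    rv Y τ w cl (Y.π (se T w (2 * h) k)) = se T w (2 * h) k := by
  unfold rv
  rw [V.inv, pas_out (V.AB_Qb (V.se_AB hk))]

/-- the rest of the strand -/
lemma Vs.rest (hM : Mats Y τ w h cl T s Mu Md M) {k j : ℕ} {d : Bool} {t : ℤ}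
    (hk : k < 2 * (2 * h + w)) (hv : Vs Y τ w h cl T s k j d t) :
    PR (ps Y s (Qb τ w cl)) (Y.dt s) (Bx' T w 0 (2 * h)) (psn T h j d)
      (Y.π (se T w (2 * h) (M k))) (tt (2 * h + w) (Kp w (2 * h)) k (M k) - t) := by
  obtain ⟨n, hn⟩ := V.full hM hk
  obtain ⟨m, hm⟩ := hv
  obtain ⟨-, hr⟩ := hn.rest (V.out_B (hM.g.lt k hk)) hm
  exact ⟨_, hr⟩

/-- a strand from a column to a port, reversed -/
lemma vs_of_rest {l j : ℕ} {d : Bool} {u : ℤ} (hl : l < 2 * (2 * h + w)) (hj : j < w)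
    (hr : PR (ps Y s (Qb τ w cl)) (Y.dt s) (Bx' T w 0 (2 * h)) (psn T h j d)
      (Y.π (se T w (2 * h) l)) u) : Vs Y τ w h cl T s l j (!d) (-u) := by
  obtain ⟨n, hn⟩ := hr
  have hr := V.rev hn
  rw [V.rv_out hl, V.rv_psn hj] at hr
  exact ⟨_, hr⟩

/-- the same column on the reversed strand -/
lemma Vs.rev (hM : Mats Y τ w h cl T s Mu Md M) {k j : ℕ} {d : Bool} {t : ℤ}
    (hk : k < 2 * (2 * h + w)) (hj : j < w) (hv : Vs Y τ w h cl T s k j d t) :
    Vs Y τ w h cl T s (M k) j (!d) (t - tt (2 * h + w) (Kp w (2 * h)) k (M k)) := by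
  have := V.vs_of_rest (hM.g.lt k hk) hj (Vs.rest V hM hk hv)
  convert this using 1
  ring

lemma Vs.up (hM : Mats Y τ w h cl T s Mu Md M) {k j j' : ℕ} {t : ℤ}
    (hj : j < w) (hj' : j' < w) (hv : Vs Y τ w h cl T s k j true t) (e : Mu (h + j) = h + j') :
    Vs Y τ w h cl T s k j' false (t + tt (h + w) (Kp w h) (h + j) (h + j')) := by
  obtain ⟨n, -, p, -⟩ := V.up_piece hM (k := h + j) (by omega)
  rw [e, V.psn_end_u hj', se_cu hj] at p
  exact PR.trans hv ⟨n, p⟩

lemma Vs.down (hM : Mats Y τ w h cl T s Mu Md M) {k j j' : ℕ} {t : ℤ}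
    (hj : j < w) (hj' : j' < w) (hv : Vs Y τ w h cl T s k j false t)
    (e : Md (2 * (h + w) - 1 - j) = 2 * (h + w) - 1 - j') :
    Vs Y τ w h cl T s k j' true
      (t + tt (h + w) (Kp w h) (2 * (h + w) - 1 - j) (2 * (h + w) - 1 - j')) := by
  obtain ⟨n, -, p, -⟩ := V.dn_piece hM (k := 2 * (h + w) - 1 - j) (by omega)
  rw [e, V.psn_end_d hj', se_cd hj] at p
  exact PR.trans hv ⟨n, p⟩

lemma Vs.up0 (hM : Mats Y τ w h cl T s Mu Md M) {q j : ℕ} (hq : q < 2 * (h + w))
    (ho : q < h ∨ h + w ≤ q) (hj : j < w) (e : Mu q = h + j) :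
    Vs Y τ w h cl T s (eu h q) j false (tt (h + w) (Kp w h) q (h + j)) := by
  obtain ⟨n, -, p, -⟩ := V.up_piece hM (k := q) hq
  rw [e, V.psn_end_u hj, se_u hq ho] at p
  exact ⟨n, p⟩

lemma Vs.down0 (hM : Mats Y τ w h cl T s Mu Md M) {q j : ℕ} (hq : q < 2 * h + w)
    (hj : j < w) (e : Md q = 2 * (h + w) - 1 - j) :
    Vs Y τ w h cl T s (q + h) j true (tt (h + w) (Kp w h) q (2 * (h + w) - 1 - j)) := by
  obtain ⟨n, -, p, -⟩ := V.dn_piece hM (k := q) (by omega)
  rw [e, V.psn_end_d hj, se_d hq] at p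
  exact ⟨n, p⟩


/-- a column which is passed is passed in both directions -/
lemma both (hM : Mats Y τ w h cl T s Mu Md M) {j : ℕ} (hj : j < w)
    (hn : ¬ Un Y τ w h cl T s j) (d : Bool) :
    ∃ k < 2 * (2 * h + w), ∃ t, Vs Y τ w h cl T s k j d t := by
  unfold Un at hn
  push Not at hn
  obtain ⟨k, hk, d', t, hv⟩ := hn hj
  by_cases hd : d' = d
  · subst hd; exact ⟨k, hk, t, hv⟩
  · have e : d = !d' := by cases d <;> cases d' <;> simp_all
    rw [e]
    exact ⟨_, hM.g.lt k hk, _, Vs.rev V hM hk hj hv⟩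

lemma Un.up (hM : Mats Y τ w h cl T s Mu Md M) {j : ℕ} (hu : Un Y τ w h cl T s j) :
    ∃ j', Mu (h + j) = h + j' ∧ Un Y τ w h cl T s j' := by
  have hj := hu.1
  have hl := hM.u.lt (h + j) (by omega)
  have hi := hM.u.inv (h + j) (by omega)
  by_cases ho : Mu (h + j) < h ∨ h + w ≤ Mu (h + j)
  · exfalso
    exact hu.2 _ (eu_lt hl) _ _ (Vs.up0 V hM hl ho hj hi)
  · refine ⟨Mu (h + j) - h, by omega, ?_⟩
    have hj' : Mu (h + j) - h < w := by omega
    have e : Mu (h + j) = h + (Mu (h + j) - h) := by omega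
    by_contra hcon
    obtain ⟨k, hk, t, hv⟩ := V.both hM hj' hcon true
    exact hu.2 k hk _ _ (Vs.up V hM hj' hj hv (by rw [← e, hi]))

lemma Un.down (hM : Mats Y τ w h cl T s Mu Md M) {j : ℕ} (hu : Un Y τ w h cl T s j) :
    ∃ j', Md (2 * (h + w) - 1 - j) = 2 * (h + w) - 1 - j' ∧ Un Y τ w h cl T s j' := by
  have hj := hu.1
  have hl := hM.d.lt (2 * (h + w) - 1 - j) (by omega)
  have hi := hM.d.inv (2 * (h + w) - 1 - j) (by omega)
  by_cases ho : Md (2 * (h + w) - 1 - j) < 2 * h + w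
  · exfalso
    exact hu.2 _ (by omega) _ _ (Vs.down0 V hM ho hj hi)
  · refine ⟨2 * (h + w) - 1 - Md (2 * (h + w) - 1 - j), by omega, ?_⟩
    have hj' : 2 * (h + w) - 1 - Md (2 * (h + w) - 1 - j) < w := by omega
    have e : Md (2 * (h + w) - 1 - j) =
        2 * (h + w) - 1 - (2 * (h + w) - 1 - Md (2 * (h + w) - 1 - j)) := by omega
    by_contra hcon
    obtain ⟨k, hk, t, hv⟩ := V.both hM hj' hcon false
    exact hu.2 k hk _ _ (Vs.down V hM hj' hj hv (by rw [← e, hi]))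

omit V in
/-- noncrossing, for the inner arcs above the row -/
lemma nc_up (hM : Mats Y τ w h cl T s Mu Md M) {i i' k k' : ℕ} (hi : i < w)
    (hi' : i' < w) (hk : k < w) (hk' : k' < w) (e : Mu (h + i) = h + i')
    (e' : Mu (h + k) = h + k') (h1 : i < k) (h2 : k < i') : i < k' ∧ k' < i' := by
  have nc := hM.u.nc (h + i) (by omega) (h + k) (by omega) (by omega) (by rw [e]; omega)
  rw [e, e'] at nc
  have hn1 : k' ≠ i := by
    intro hh
    have := hM.u.inv (h + k) (by omega)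
    rw [e', hh, e] at this; omega
  have hn2 : k' ≠ i' := by
    intro hh
    have := hM.u.inv (h + i) (by omega)
    rw [e] at this
    have h3 := hM.u.inv (h + k) (by omega)
    rw [e', hh, this] at h3; omega
  have b1 : ¬ (h + k < h + i) := by omega
  have b2 : h + k < h + i' := by omega
  have b3 : ¬ ((h + k < h + i) ↔ (h + k < h + i')) := fun hh => b1 (hh.2 b2)
  have b4 : ¬ ((h + k' < h + i) ↔ (h + k' < h + i')) := fun hh => b3 (nc.2 hh)
  by_contra hcon
  apply b4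
  constructor
  · intro h3; omega
  · intro h3
    by_contra h4
    exact hcon ⟨by omega, by omega⟩

omit V in
/-- noncrossing, for the inner arcs below the row -/
lemma nc_dn (hM : Mats Y τ w h cl T s Mu Md M) {i i' k k' : ℕ} (hi : i < w)
    (hi' : i' < w) (hk : k < w) (hk' : k' < w)
    (e : Md (2 * (h + w) - 1 - i) = 2 * (h + w) - 1 - i')
    (e' : Md (2 * (h + w) - 1 - k) = 2 * (h + w) - 1 - k') (h1 : i < k) (h2 : k < i') :
    i < k' ∧ k' < i' := by
  have nc := hM.d.nc (2 * (h + w) - 1 - i) (by omega) (2 * (h + w) - 1 - k) (by omega) (by omega)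
    (by rw [e]; omega)
  rw [e, e'] at nc
  have hn1 : k' ≠ i := by
    intro hh
    have := hM.d.inv (2 * (h + w) - 1 - k) (by omega)
    rw [e', hh, e] at this; omega
  have hn2 : k' ≠ i' := by
    intro hh
    have := hM.d.inv (2 * (h + w) - 1 - i) (by omega)
    rw [e] at this
    have h3 := hM.d.inv (2 * (h + w) - 1 - k) (by omega)
    rw [e', hh, this] at h3; omega
  have b1 : 2 * (h + w) - 1 - k < 2 * (h + w) - 1 - i := by omega
  have b2 : ¬ (2 * (h + w) - 1 - k < 2 * (h + w) - 1 - i') := by omega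
  have b3 : ¬ ((2 * (h + w) - 1 - k < 2 * (h + w) - 1 - i) ↔
    (2 * (h + w) - 1 - k < 2 * (h + w) - 1 - i')) := fun hh => b2 (hh.1 b1)
  have b4 : ¬ ((2 * (h + w) - 1 - k' < 2 * (h + w) - 1 - i) ↔
    (2 * (h + w) - 1 - k' < 2 * (h + w) - 1 - i')) := fun hh => b3 (nc.2 hh)
  by_contra hcon
  apply b4
  constructor
  · intro h3
    by_contra h4
    exact hcon ⟨by omega, by omega⟩
  · intro h3; omega

omit V in
lemma tt_uu {i i' : ℕ} (hi : i < w) (hi' : i' < w) (hne : i ≠ i') :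
    tt (h + w) (Kp w h) (h + i) (h + i') = -2 * Pool.Agent.Q1.M6b.Meander.dir i i' := by
  have k1 : Kp w h (h + i) = 1 := by unfold Kp; rw [if_neg (by omega), if_pos (by omega)]
  have k2 : Kp w h (h + i') = 1 := by unfold Kp; rw [if_neg (by omega), if_pos (by omega)]
  have c1 : (h + i < h + w ↔ h + i' < h + w) := ⟨fun _ => by omega, fun _ => by omega⟩
  unfold tt
  rw [k1, k2, if_pos c1]
  rcases lt_or_gt_of_ne hne with hlt | hlt
  · rw [if_pos (by omega), Pool.Agent.Q1.M6b.Meander.dir_lt hlt]; norm_num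
  · rw [if_neg (by omega), Pool.Agent.Q1.M6b.Meander.dir_gt hlt]; norm_num

omit V in
lemma tt_dd (hh : 0 < h) {i i' : ℕ} (hi : i < w) (hi' : i' < w) (hne : i ≠ i') :
    tt (h + w) (Kp w h) (2 * (h + w) - 1 - i) (2 * (h + w) - 1 - i') =
      2 * Pool.Agent.Q1.M6b.Meander.dir i i' := by
  have k3 : Kp w h (2 * (h + w) - 1 - i) = 1 := by
    unfold Kp; rw [if_neg (by omega), if_neg (by omega), if_neg (by omega)]
  have k4 : Kp w h (2 * (h + w) - 1 - i') = 1 := by
    unfold Kp; rw [if_neg (by omega), if_neg (by omega), if_neg (by omega)]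
  have c2 : (2 * (h + w) - 1 - i < h + w ↔ 2 * (h + w) - 1 - i' < h + w) :=
    ⟨fun _ => by omega, fun _ => by omega⟩
  unfold tt
  rw [k3, k4, if_pos c2]
  rcases lt_or_gt_of_ne hne with hlt | hlt
  · rw [if_neg (by omega), Pool.Agent.Q1.M6b.Meander.dir_lt hlt]; norm_num
  · rw [if_pos (by omega), Pool.Agent.Q1.M6b.Meander.dir_gt hlt]; norm_num

/-- **The columns which are not passed by the strands from the ports have amplitude zero.** -/
theorem un_zero (hM : Mats Y τ w h cl T s Mu Md M)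
    (hN : Mats (mir Y) τ w h cl (Tf T h) (fun k => !s k) Nu Nd M2) {X : Net (Fin N)}
    (hI : Ind Y s τ X) (hr : Nr w h cl Mu X) (hr' : Nr w h cl Nu (mir X)) {A B : ℂ}
    (hAB : Over A B) {ξ : ℂ} (hξ : ξ ^ 2 = A) {a b : Fin N → ℂ}
    (hab : ∀ i < w, a (cl i) = A ∧ b (cl i) = B) (φ : ℤ → ℂ) {j : ℕ}
    (hj : Un Y τ w h cl T s j) : cpn X φ a b (cl j) = 0 := by
  classical
  have hh := V.h0
  have hξ0 : ξ ≠ 0 := by
    intro h0
    rw [h0] at hξ
    have := hAB.mul
    rw [← hξ] at this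
    norm_num at this
  have h8 : ξ ^ 8 ≠ 1 := by
    intro h8
    have hA2 : A ^ 2 = A - 1 := by
      have h1 := hAB.mul
      have h2 : B = 1 - A := by linear_combination hAB.add
      rw [h2] at h1
      linear_combination -h1
    have e : ξ ^ 8 = A ^ 4 := by rw [← hξ]; ring
    rw [e] at h8
    have e2 : A ^ 4 = -A := by
      have : A ^ 4 = (A ^ 2) ^ 2 := by ring
      rw [this, hA2]
      linear_combination hA2
    rw [e2] at h8
    have e3 : A = -1 := by linear_combination -h8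
    rw [e3] at hA2
    norm_num at hA2
  set C := (range w).filter (fun j => Un Y τ w h cl T s j) with hC
  have memC : ∀ {j : ℕ}, j ∈ C ↔ Un Y τ w h cl T s j := by
    intro j
    rw [hC, mem_filter, mem_range]
    exact ⟨fun hh => hh.2, fun hh => ⟨hh.1, hh⟩⟩
  set U : ℕ → ℕ := fun j => Mu (h + j) - h with hU
  set D : ℕ → ℕ := fun j => 2 * (h + w) - 1 - Md (2 * (h + w) - 1 - j) with hD
  have eU : ∀ {j : ℕ}, Un Y τ w h cl T s j → Mu (h + j) = h + U j ∧ Un Y τ w h cl T s (U j) := by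
    intro j hu
    obtain ⟨j', e, hu'⟩ := Un.up V hM hu
    have : U j = j' := by rw [hU]; simp only; omega
    rw [this]; exact ⟨e, hu'⟩
  have eD : ∀ {j : ℕ}, Un Y τ w h cl T s j → Md (2 * (h + w) - 1 - j) = 2 * (h + w) - 1 - D j ∧
      Un Y τ w h cl T s (D j) := by
    intro j hu
    obtain ⟨j', e, hu'⟩ := Un.down V hM hu
    have hw1 := hu'.1
    have : D j = j' := by rw [hD]; simp only; omega
    rw [this]; exact ⟨e, hu'⟩
  have neU : ∀ {j : ℕ}, Un Y τ w h cl T s j → U j ≠ j := by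
    intro j hu hc
    have hj := hu.1
    have := (eU hu).1
    rw [hc] at this
    exact hM.u.ne _ (by omega) this
  have neD : ∀ {j : ℕ}, Un Y τ w h cl T s j → D j ≠ j := by
    intro j hu hc
    have hj := hu.1
    have := (eD hu).1
    rw [hc] at this
    exact hM.d.ne _ (by omega) this
  have mU : Pool.Agent.Q1.M6b.Meander.Match C U := by
    refine ⟨fun x hx => memC.2 (eU (memC.1 hx)).2, fun x hx => ?_, fun x hx => neU (memC.1 hx),
      fun x hx y hy h1 h2 => ?_⟩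
    · obtain ⟨e1, h1⟩ := eU (memC.1 hx)
      have hxw := (memC.1 hx).1
      have := hM.u.inv (h + x) (by omega)
      rw [e1] at this
      change Mu (h + U x) - h = x
      omega
    · obtain ⟨e1, h3⟩ := eU (memC.1 hx)
      obtain ⟨e2, h4⟩ := eU (memC.1 hy)
      exact nc_up hM (memC.1 hx).1 h3.1 (memC.1 hy).1 h4.1 e1 e2 h1 h2
  have mD : Pool.Agent.Q1.M6b.Meander.Match C D := by
    refine ⟨fun x hx => memC.2 (eD (memC.1 hx)).2, fun x hx => ?_, fun x hx => neD (memC.1 hx),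
      fun x hx y hy h1 h2 => ?_⟩
    · obtain ⟨e1, h1⟩ := eD (memC.1 hx)
      have hxw := (memC.1 hx).1
      have := hM.d.inv (2 * (h + w) - 1 - x) (by omega)
      rw [e1] at this
      change 2 * (h + w) - 1 - Md (2 * (h + w) - 1 - D x) = x
      omega
    · obtain ⟨e1, h3⟩ := eD (memC.1 hx)
      obtain ⟨e2, h4⟩ := eD (memC.1 hy)
      exact nc_dn hM (memC.1 hx).1 h3.1 (memC.1 hy).1 h4.1 e1 e2 h1 h2
  refine stable_zero mU mD (f := fun j => cpn X φ a b (cl j)) hξ0 h8 ?_ ?_ j (memC.2 hj)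
  · intro i hi
    obtain ⟨e1, h1⟩ := eU (memC.1 hi)
    have := V.slideU hM hI hr hAB hξ hab φ (memC.1 hi).1 h1.1 e1
    rw [tt_uu (memC.1 hi).1 h1.1 (neU (memC.1 hi)).symm] at this
    exact this
  · intro i hi
    obtain ⟨e1, h1⟩ := eD (memC.1 hi)
    have := V.slideD hM hN hI hr' hAB hξ hab φ (memC.1 hi).1 h1.1 e1
    rw [tt_dd hh (memC.1 hi).1 h1.1 (neD (memC.1 hi)).symm] at this
    exact this

end

end World

end Pool.Agent.H69.W
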