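import Mathlib
import Pool.Agent.H69.M6b.Win
import Pool.Agent.H69.W.Far

set_option autoImplicit false
set_option linter.unusedSectionVars false
set_option linter.unusedVariables false
open Finset

/-! # The window theorem: amplitudes with one coupon in a window -/

namespace Pool.Agent.H69.W

open Pool.Agent.H69.M6b Pool.Agent.H69.M6b.World

open Pool.Agent.H75.Perc Pool.Agent.H75.TwoArm Pool.Agent.Q1 Pool.Agent.H81.G1
open Pool.Agent.Q1.M6b.Gd (FarIn)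

namespace World

variable {κ : Type*} {N : ℕ} {Y : Net κ} {τ : Fin N → κ} {c0 w h : ℕ} {cl : ℕ → Fin N}
  {T : ℕ → ℕ → κ} {Xc y0 : ℤ} {s s' : κ → Bool} {ζ ζ' In Out : Finset (ℤ × ℤ)} {ρ0 : κ × Dir}
  {φ : ℤ → ℂ} {yy : Fin N × Dir} {a b : Fin N → ℂ} {W W' : ℕ → ℂ} {A B ξ : ℂ}


section
variable (V : World Y τ c0 w h cl T)
include V

lemma mats (s : κ → Bool) : ∃ Mu Md M, Mats Y τ w h cl T s Mu Md M := by
  obtain ⟨Mu, h1⟩ := V.exU s
  obtain ⟨Md, h2⟩ := V.exD s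
  obtain ⟨M, h3⟩ := V.exG s
  exact ⟨Mu, Md, M, ⟨h1, h2, h3⟩⟩

/-- a strand which passes a column of the window visits the window -/
lemma Vs.vi {k i : ℕ} {d : Bool} {t : ℤ} (hi : i < w) (hu : gl Xc y0 h i h ∈ In)
    (hd : gl Xc y0 h i (h - 1) ∈ In) (hv : Vs Y τ w h cl T s k i d t) :
    Vi Y τ w h cl T (Isf T w h Xc y0 In) s k := by
  have hh := V.h0
  obtain ⟨n, hn⟩ := hv
  have hn' : Pn (ps Y s (Qb τ w cl)) (Y.dt s) (Bx' T w 0 (2 * h)) n (se T w (2 * h) k)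
    (psn T h i d) t := hn
  refine ⟨n, fun j hj => ?_, ?_⟩
  · rcases Nat.lt_or_ge j n with h1 | h1
    · exact hn'.2.1 j h1
    · have : j = n := by omega
      rw [this, hn'.1]; exact V.psn_AB hi d
  · rw [hn'.1]
    cases d
    · exact ⟨i, hi, h - 1, by omega, rfl, hd⟩
    · exact ⟨i, hi, h, by omega, rfl, hu⟩

/-- no strand from a port visits the window -/
lemma win_none (hyy : ∀ i < w, yy.1 ≠ cl i) (hAB : Over A B) (hξ : ξ ^ 2 = A)
    (hab : ∀ i < w, a (cl i) = A ∧ b (cl i) = B) (hW : AW Y s τ w h cl T ρ0 φ yy a b W)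
    (hno : ∀ k < 2 * (2 * h + w), ¬ Vi Y τ w h cl T (Isf T w h Xc y0 In) s k) {i : ℕ} (hi : i < w)
    (hu : gl Xc y0 h i h ∈ In) (hd : gl Xc y0 h i (h - 1) ∈ In) : W i = 0 := by
  rcases hW with ⟨X, r, hI, hR, hy, hW⟩ | ⟨-, hW⟩
  · rw [hW i hi]
    obtain ⟨Mu, Md, M, hM⟩ := V.mats s
    obtain ⟨Nu, Nd, M2, hN⟩ := V.flip.mats (fun k => !s k)
    have hy0 : ∀ i < w, X.y0.1 ≠ cl i := by rw [hy]; exact hyy
    exact V.un_zero hM hN hI (Rt.nr V hM hR hy0) (Rt.nr V.flip hN hR.flip hy0) hAB hξ hab _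
      ⟨hi, fun k hk d t hv => hno k hk (Vs.vi V hi hu hd hv)⟩
  · exact hW i hi

/-- **No visit in the window: the amplitude is zero.** -/
theorem win_zero (hs : Sg T w h Xc y0 s ζ) (hIO : In ⊆ Out) (hOut : ∀ e ∈ Out, BL Xc y0 w h e)
    (hyy : ∀ i < w, yy.1 ≠ cl i) (hAB : Over A B) (hξ : ξ ^ 2 = A)
    (hab : ∀ i < w, a (cl i) = A ∧ b (cl i) = B) (hW : AW Y s τ w h cl T ρ0 φ yy a b W)
    {i : ℕ} (hi : i < w) (hu : gl Xc y0 h i h ∈ In) (hd : gl Xc y0 h i (h - 1) ∈ In)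
    (hno : ∀ e, FarIn In Out ζ e → (∀ e', FarIn In Out ζ e' → e' = e) ∧
      ∃ n, lab ((nx ζ)^[n] e) ∉ Out ∧ ∀ q < n, (nx ζ)^[q] e ≠ sgc Xc y0 h i) : W i = 0 := by
  by_cases hv : ∃ k < 2 * (2 * h + w), Vi Y τ w h cl T (Isf T w h Xc y0 In) s k
  · obtain ⟨Mu, Md, M, hM⟩ := V.mats s
    have hv' : ∃ k < 2 * (2 * h + w), Vi Y τ w h cl T (Isf T w h Xc y0 In) s k ∧
        ∃ c, PI T w h Xc y0 k c := by
      obtain ⟨k, hk, hv⟩ := hv
      rcases V.port_or (Xc := Xc) (y0 := y0) hM hk with h1 | h1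
      · exact ⟨k, hk, hv, h1⟩
      · exact ⟨M k, hM.g.lt k hk, Vi.rev V hM hk hv, h1⟩
    obtain ⟨k, hk, hv, c, hP⟩ := hv'
    obtain ⟨e, m, hf, hE⟩ := V.ent hs hP hv hOut
    obtain ⟨uniq, n, hn, hq⟩ := hno e hf
    have hT := Ent.two V hM hk hs hE hOut uniq
    rcases hW with ⟨X, r, hI, hR, hy, hW⟩ | ⟨-, hW⟩
    · rw [hW i hi]
      obtain ⟨Nu, Nd, M2, hN⟩ := V.flip.mats (fun k => !s k)
      have hy0 : ∀ i < w, X.y0.1 ≠ cl i := by rw [hy]; exact hyy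
      have hh := V.h0
      refine V.two_zero hM hN hT rfl hI (Rt.nr V hM hR hy0) (Rt.nr V.flip hN hR.flip hy0) hAB hξ hab _
        hi ⟨i, hi, h, by omega, rfl, hu⟩ ⟨i, hi, h - 1, by omega, rfl, hd⟩ ?_
      intro d t hvs
      obtain ⟨q, hqn, he⟩ := Ent.hit V hs hE hIO uniq hn hi hu hd hvs
      exact hq q hqn he
    · exact hW i hi
  · push Not at hv
    exact V.win_none hyy hAB hξ hab hW hv hi hu hd

/-- **Two configurations which agree off the window.** -/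
theorem win_two (hs : Sg T w h Xc y0 s ζ) (hs' : Sg T w h Xc y0 s' ζ')
    (hag : Ag τ (Isf T w h Xc y0 In) s s') (hIO : In ⊆ Out) (hOut : ∀ e ∈ Out, BL Xc y0 w h e)
    (hyy : ∀ i < w, yy.1 ≠ cl i) (hAB : Over A B) (hξ : ξ ^ 2 = A)
    (hab : ∀ i < w, a (cl i) = A ∧ b (cl i) = B) (hW : AW Y s τ w h cl T ρ0 φ yy a b W)
    (hW' : AW Y s' τ w h cl T ρ0 φ yy a b W') {e : ℤ × ℤ}
    (uniq : ∀ e', FarIn In Out ζ e' → e' = e) {i i' : ℕ} (hi : i < w) (hi' : i' < w)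
    (hu : gl Xc y0 h i h ∈ In) (hd : gl Xc y0 h i (h - 1) ∈ In)
    (hu' : gl Xc y0 h i' h ∈ In) (hd' : gl Xc y0 h i' (h - 1) ∈ In)
    {q q' : ℕ} (hq : ∀ j ≤ q, lab ((nx ζ)^[j] e) ∈ Out) (eq : (nx ζ)^[q] e = sgc Xc y0 h i)
    (hq' : ∀ j ≤ q', lab ((nx ζ')^[j] e) ∈ Out) (eq' : (nx ζ')^[q'] e = sgc Xc y0 h i') :
    ξ ^ (-∑ j ∈ range q, del ζ ((nx ζ)^[j] e)) * W i =
      ξ ^ (-∑ j ∈ range q', del ζ' ((nx ζ')^[j] e)) * W' i' := by
  have hξ0 : ξ ≠ 0 := by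
    intro h0
    rw [h0] at hξ
    have := hAB.mul
    rw [← hξ] at this
    norm_num at this
  have hIB : ∀ k, Isf T w h Xc y0 In k → ∃ i < w, ∃ j < 2 * h, k = T i j := by
    rintro k ⟨i, hi, j, hj, e, -⟩
    exact ⟨i, hi, j, hj, e⟩
  obtain ⟨Mu, Md, M, hM⟩ := V.mats s
  obtain ⟨Mu', Md', M', hM'⟩ := V.mats s'
  by_cases hv : ∃ k < 2 * (2 * h + w), Vi Y τ w h cl T (Isf T w h Xc y0 In) s k
  · obtain ⟨k, hk, hv, c, hP⟩ : ∃ k < 2 * (2 * h + w), Vi Y τ w h cl T (Isf T w h Xc y0 In) s k ∧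
        ∃ c, PI T w h Xc y0 k c := by
      obtain ⟨k, hk, hv⟩ := hv
      rcases V.port_or (Xc := Xc) (y0 := y0) hM hk with h1 | h1
      · exact ⟨k, hk, hv, h1⟩
      · exact ⟨M k, hM.g.lt k hk, Vi.rev V hM hk hv, h1⟩
    obtain ⟨e1, m, hf, hE⟩ := V.ent hs hP hv hOut
    have e2 := uniq _ hf
    subst e2
    have hT := Ent.two V hM hk hs hE hOut uniq
    obtain ⟨hE', hsum⟩ := Ent.congr V hs hs' hag hE
    obtain ⟨d, v1⟩ := Ent.vs V hs hE hOut hq hi eq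
    obtain ⟨d', v2⟩ := Ent.vs V hs' hE' hOut hq' hi' eq'
    rw [hsum] at v2
    obtain ⟨Nu, Nd, M2, hN⟩ := V.flip.mats (fun k => !s k)
    obtain ⟨Nu', Nd', M2', hN'⟩ := V.flip.mats (fun k => !s' k)
    have hMf := V.flip.flip.mats (fun k => !(!s k))
    have hMf' := V.flip.flip.mats (fun k => !(!s' k))
    set t0 := ∑ j ∈ range m, del ζ ((nx ζ)^[j] c) with ht0
    rcases hW with ⟨X, r, hI, hR, hy, hW⟩ | ⟨hRn, hW⟩
    · have hy0 : ∀ i < w, X.y0.1 ≠ cl i := by rw [hy]; exact hyy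
      rcases hW' with ⟨X', r', hI', hR', hy', hW'⟩ | ⟨hRn', hW'⟩
      · have key := V.two hM hN hM' hN' hMf hMf' hIB hag hT rfl hI hI' hR hR' (hy.trans hy'.symm) hy0
          hAB hξ hab φ hi hi' v1 v2
        rw [hW i hi, hW' i' hi']
        have z1 : ∀ t : ℤ, ξ ^ (-(t0 + t)) = ξ ^ (-t0) * ξ ^ (-t) := by
          intro t
          rw [← zpow_add₀ hξ0]; congr 1; ring
        rw [z1, z1, mul_assoc, mul_assoc] at key
        exact mul_left_cancel₀ (zpow_ne_zero _ hξ0) key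
      · rw [hW i hi, hW' i' hi', mul_zero,
          V.never hM hN hM' hN' hMf hIB hag hT rfl hI hR hRn' hy0 hAB hξ hab _ hi hi' v1 v2, mul_zero]
    · rcases hW' with ⟨X', r', hI', hR', hy', hW'⟩ | ⟨hRn', hW'⟩
      · have hy0' : ∀ i < w, X'.y0.1 ≠ cl i := by rw [hy']; exact hyy
        have hT' := Two.congr V hM hag hT
        have hMk := Two.M_eq V hM hM' hag hT k hk
        rw [hW i hi, hW' i' hi', mul_zero,
          V.never hM' hN' hM hN hMf' hIB hag.symm hT' hMk hI' hR' hRn hy0' hAB hξ hab _ hi' hi v2 v1,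
          mul_zero]
      · rw [hW i hi, hW' i' hi', mul_zero, mul_zero]
  · push Not at hv
    rw [V.win_none hyy hAB hξ hab hW hv hi hu hd,
      V.win_none hyy hAB hξ hab hW' (fun k hk => Vi.congr V hM hag hk (hv k hk)) hi' hu' hd',
      mul_zero, mul_zero]

end

end World

end Pool.Agent.H69.W
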