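import Mathlib
import Pool.Agent.H69.W.First

set_option autoImplicit false
set_option linter.unusedSectionVars false
set_option linter.unusedVariables false
open Finset

/-! # The first crossing of the strand of a window, with the paths in the box -/

namespace Pool.Agent.H69.W

open Pool.Agent.H69.M6b Pool.Agent.H69.M6b.World

open Pool.Agent.H75.Perc Pool.Agent.H75.TwoArm Pool.Agent.Q1 Pool.Agent.H81.G1
open Pool.Agent.Q1.M6b.Gd (FarIn)


namespace World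

variable {κ : Type*} {N : ℕ} {Y : Net κ} {τ : Fin N → κ} {c0 w h : ℕ} {cl : ℕ → Fin N}
  {T : ℕ → ℕ → κ} {Xc y0 : ℤ} {s s' : κ → Bool} {ζ ζ' In Out : Finset (ℤ × ℤ)} {ρ0 : κ × Dir}
  {X : Net (Fin N)} {I : κ → Prop} {Mu Md M : ℕ → ℕ} {k0 k1 : ℕ}

/-- the tiles of the half box on the side `e` -/
def Th (T : ℕ → ℕ → κ) (h : ℕ) (e : Bool) : ℕ → ℕ → κ := if e then Tu T h else T

/-- the wire of the column `c` on the side `e` is an arc in the half box, to the column `c'` -/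
def PthE (Y : Net κ) (s : κ → Bool) (τ : Fin N → κ) (w h : ℕ) (cl : ℕ → Fin N) (T : ℕ → ℕ → κ)
    (e : Bool) (c c' : ℕ) : Prop :=
  ∃ t, PR (Y.step s) (Y.dt s) (Bx' (Th T h e) w 0 h) (psn T h c e) (τ (cl c'), sd e) t

/-- near the window the wires on the side `e` are arcs in the box which do not jump over the column `x1`,
except for two of them -/
def NearP (Y : Net κ) (s : κ → Bool) (τ : Fin N → κ) (T : ℕ → ℕ → κ) (w h : ℕ) (cl : ℕ → Fin N)
    (I : κ → Prop) (e : Bool) (x1 : ℕ) : Prop :=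
  ∃ S : Finset ℕ, S.card ≤ 2 ∧ ∀ c < w, I (ts T h e c) → c ∉ S → ∃ c' < w,
    PthE Y s τ w h cl T e c c' ∧ ¬ (c < x1 ∧ x1 < c') ∧ ¬ (c' < x1 ∧ x1 < c)

section
variable (V : World Y τ c0 w h cl T)
include V

/-- the path of an inner arc -/
lemma arc_path (hM : Mats Y τ w h cl T s Mu Md M) {i i' : ℕ} (hi : i < w)
    (hi' : i' < w) (e : Mu (h + i) = h + i') : PthE Y s τ w h cl T true i i' := by
  have hk : h + i < 2 * (h + w) := by omega
  have p1 := hM.u.path (h + i) hk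
  simp only [e] at p1
  rw [V.out_u hi', se_cu hi] at p1
  exact ⟨_, p1⟩

/-- **The arcs above the row near the window.** -/
theorem nearU' (hM : Mats Y τ w h cl T s Mu Md M)
    (hT : Two Y τ w h cl T I s k0 k1) {q x1 : ℕ} (hq : q < 2 * (h + w)) (ho : q < h ∨ h + w ≤ q)
    (hx1 : x1 < w) (e : Mu q = h + x1) : NearP Y s τ T w h cl I true x1 := by
  classical
  have hh := V.h0
  have e' : Mu (h + x1) = q := by rw [← e]; exact hM.u.inv q hq
  refine ⟨(range w).filter (fun c => ¬ isP w h Mu c ∧ I (T c h)), ?_, ?_⟩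
  · have hmap : ∀ c ∈ (range w).filter (fun c => ¬ isP w h Mu c ∧ I (T c h)),
        eu h (Mu (h + c)) ∈ ({k0, k1} : Finset ℕ) := by
      intro c hc
      rw [mem_filter, mem_range] at hc
      obtain ⟨hcw, hp, hIc⟩ := hc
      have hlt := hM.u.lt (h + c) (by omega)
      have hout : Mu (h + c) < h ∨ h + w ≤ Mu (h + c) := by unfold isP at hp; omega
      have hv := Vs.up0 V hM hlt hout hcw (hM.u.inv (h + c) (by omega))
      have hvi : Vi Y τ w h cl T I s (eu h (Mu (h + c))) :=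
        Vs.vi' V (eu_lt hlt) hcw (e := true) hIc hv
      rw [mem_insert, mem_singleton]
      exact hT.two _ (eu_lt hlt) hvi
    refine (card_le_card_of_injOn (fun c => eu h (Mu (h + c))) hmap ?_).trans card_le_two
    intro c hc c' hc' hcc
    have hc := mem_filter.1 (mem_coe.1 hc)
    have hc' := mem_filter.1 (mem_coe.1 hc')
    have l1 := mem_range.1 hc.1
    have l2 := mem_range.1 hc'.1
    have p1 := hc.2.1
    have p2 := hc'.2.1
    unfold isP at p1 p2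
    have a1 := hM.u.lt (h + c) (by omega)
    have a2 := hM.u.lt (h + c') (by omega)
    have h3 : Mu (h + c) = Mu (h + c') := eu_inj (w := w) (by omega) (by omega) hcc
    have := hM.u.inj (by omega) (by omega) h3
    omega
  · intro c hc hIc hcS
    rw [mem_filter, mem_range, not_and, not_and] at hcS
    have hp : isP w h Mu c := by
      by_contra hp
      exact hcS hc hp hIc
    unfold isP at hp
    obtain ⟨c', hc', hcc⟩ : ∃ c' < w, Mu (h + c) = h + c' := ⟨Mu (h + c) - h, by omega, by omega⟩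
    refine ⟨c', hc', V.arc_path hM hc hc' hcc, ?_, ?_⟩
    · rintro ⟨h1, h2⟩
      have nc := hM.u.nc (h + c) (by omega) (h + x1) (by omega) (by omega) (by rw [hcc]; omega)
      rw [hcc, e'] at nc
      rcases ho with ho | ho
      · exact absurd ((nc.2 ⟨fun _ => by omega, fun _ => by omega⟩).2 (by omega)) (by omega)
      · exact absurd ((nc.2 ⟨fun _ => by omega, fun _ => by omega⟩).2 (by omega)) (by omega)
    · rintro ⟨h1, h2⟩
      have nc := hM.u.nc (h + c) (by omega) (h + x1) (by omega) (by omega) (by rw [hcc]; omega)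
      rw [hcc, e'] at nc
      rcases ho with ho | ho
      · exact absurd ((nc.2 ⟨fun _ => by omega, fun _ => by omega⟩).1 (by omega)) (by omega)
      · exact absurd ((nc.2 ⟨fun _ => by omega, fun _ => by omega⟩).1 (by omega)) (by omega)

/-- **The first crossing of a strand which enters above the row.** -/
lemma firstU' (hM : Mats Y τ w h cl T s Mu Md M) {Nu Nd M2 : ℕ → ℕ}
    (hN : Mats (mir Y) τ w h cl (Tf T h) (fun k => !s k) Nu Nd M2) (hI : Ind Y s τ X)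
    (hT : Two Y τ w h cl T I s k0 k1) (hr : Nr w h cl Mu X) (hr' : Nr w h cl Nu (mir X))
    {q j : ℕ} {d : Bool} {t : ℤ} (hq : q < 2 * (h + w)) (ho : q < h ∨ h + w ≤ q) (hj : j < w)
    (hv : Vs Y τ w h cl T s (eu h q) j d t) :
    ∃ x1 < w, NearP Y s τ T w h cl I true x1 ∧ (∃ d t, Vs Y τ w h cl T s (eu h q) x1 d t) ∧
      ∀ {A B ξ : ℂ}, Over A B → ξ ^ 2 = A → ‖ξ‖ = 1 →
      ∀ {a b : Fin N → ℂ}, (∀ i < w, a (cl i) = A ∧ b (cl i) = B) → ∀ φ : ℤ → ℂ,
        ‖cpn X φ a b (cl j)‖ = ‖cpn X φ a b (cl x1)‖ := by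
  obtain ⟨i, hi, e1, ⟨m, p⟩⟩ := V.first_cross hM hq ho hj hv
  refine ⟨i, hi, V.nearU' hM hT hq ho hi e1, ⟨_, _, Vs.up0 V hM hq ho hi e1⟩, ?_⟩
  intro A B ξ hAB hξ hξn a b hab φ
  rw [V.slem hM hN hI hr hr' hAB hξ hab φ hi hj p, norm_mul, norm_zpow, hξn, one_zpow, one_mul]

omit V in
lemma NearP.flip {x1 : ℕ} (hh : 0 < h)
    (hn : NearP (mir Y) (fun k => !s k) τ (Tf T h) w h cl I true x1) :
    NearP Y s τ T w h cl I false x1 := by
  obtain ⟨S, hS, hc⟩ := hn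
  refine ⟨S, hS, fun c hcw hIc hcS => ?_⟩
  have e : ts (Tf T h) h true c = ts T h false c := by
    change T c (2 * h - 1 - h) = T c (h - 1)
    congr 1
    omega
  obtain ⟨c', hc', ⟨t, n, hn⟩, h2, h3⟩ := hc c hcw (by rw [e]; exact hIc) hcS
  refine ⟨c', hc', ⟨-t, n, ?_⟩, h2, h3⟩
  have hn' : Pn ((mir Y).step fun k => !s k) ((mir Y).dt fun k => !s k) (Bx' (Th (Tf T h) h true) w 0 h)
    n (psn (Tf T h) h c true) (τ (cl c'), sd true) t := hn
  have it : ∀ i, ((mir Y).step (fun k => !s k))^[i] (psn (Tf T h) h c true) =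
      fl ((Y.step s)^[i] (psn T h c false)) := by
    intro i
    induction i with
    | zero =>
      have h5 := psn_flip (T := T) hh c false
      rw [Bool.not_false] at h5
      exact h5.symm
    | succ i ih => rw [Function.iterate_succ_apply', ih, mir_step, Function.iterate_succ_apply']
  have hb : ∀ z : κ × Dir, fl z ∈ Bx' (Th (Tf T h) h true) w 0 h → z ∈ Bx' (Th T h false) w 0 h := by
    rintro z ⟨i, hi, j, -, hj, e⟩
    refine ⟨i, hi, h - 1 - j, Nat.zero_le _, by omega, ?_⟩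
    have e2 : (fl z).1 = T i (2 * h - 1 - (h + j)) := e
    change z.1 = T i (h - 1 - j)
    have e3 : (fl z).1 = z.1 := rfl
    rw [← e3, e2]
    congr 1
    omega
  refine ⟨?_, fun i hi => ?_, ?_⟩
  · have h1 := hn'.1
    rw [it] at h1
    have h2 := congrArg fl h1
    rw [fl_fl] at h2
    exact h2
  · have h1 := hn'.2.1 i hi
    rw [it] at h1
    exact hb _ h1
  · rw [hn'.2.2, ← sum_neg_distrib]
    refine sum_congr rfl fun i _ => ?_
    rw [it, mir_dt, neg_neg]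

/-- **The first crossing.** -/
theorem first' (hM : Mats Y τ w h cl T s Mu Md M) (hI : Ind Y s τ X)
    (hT : Two Y τ w h cl T I s k0 k1) (hMk : M k0 = k1) {r : ℤ} (hR : Rt Y s τ w h cl T X ρ0 r)
    (hy0 : ∀ i < w, X.y0.1 ≠ cl i) {j : ℕ} {d : Bool} {t : ℤ} (hj : j < w)
    (hv : Vs Y τ w h cl T s k0 j d t) :
    ∃ e : Bool, ∃ x1 < w, NearP Y s τ T w h cl I e x1 ∧ (∃ d t, Vs Y τ w h cl T s k0 x1 d t) ∧
      ∀ {A B ξ : ℂ}, Over A B → ξ ^ 2 = A → ‖ξ‖ = 1 →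
      ∀ {a b : Fin N → ℂ}, (∀ i < w, a (cl i) = A ∧ b (cl i) = B) → ∀ φ : ℤ → ℂ,
        ‖cpn X φ a b (cl j)‖ = ‖cpn X φ a b (cl x1)‖ := by
  have hh := V.h0
  have lt0 := hT.lt0
  have lt1 := hT.lt1
  obtain ⟨Nu, Nd, M2, hN⟩ := V.flip.mats (fun k => !s k)
  have isU : ∀ k < 2 * (2 * h + w), (k < h ∨ 3 * h + w ≤ k) →
      ∃ q, q < 2 * (h + w) ∧ (q < h ∨ h + w ≤ q) ∧ k = eu h q := by
    intro k hk hc
    rcases hc with h1 | h1
    · exact ⟨k, by omega, Or.inl h1, by unfold eu; rw [if_pos h1]⟩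
    · exact ⟨k - 2 * h, by omega, Or.inr (by omega), by
        unfold eu; rw [if_neg (by omega)]; omega⟩
  by_cases hu0 : k0 < h ∨ 3 * h + w ≤ k0
  · obtain ⟨q, hq, ho, hk0⟩ := isU k0 lt0 hu0
    rw [hk0] at hv
    obtain ⟨x1, hx1, h1, h3, h2⟩ := V.firstU' hM hN hI hT (Rt.nr V hM hR hy0)
      (Rt.nr V.flip hN hR.flip hy0) hq ho hj hv
    exact ⟨true, x1, hx1, h1, by rw [hk0]; exact h3, h2⟩
  by_cases hu1 : k1 < h ∨ 3 * h + w ≤ k1
  · obtain ⟨q, hq, ho, hk1⟩ := isU k1 lt1 hu1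
    have w1 := Vs.rev V hM lt0 hj hv
    rw [hMk, hk1] at w1
    obtain ⟨x1, hx1, h1, ⟨d1, t1, h3⟩, h2⟩ := V.firstU' hM hN hI hT (Rt.nr V hM hR hy0)
      (Rt.nr V.flip hN hR.flip hy0) hq ho hj w1
    refine ⟨true, x1, hx1, h1, ?_, h2⟩
    rw [← hk1] at h3
    have h4 := Vs.rev V hM lt1 hx1 h3
    rw [← hMk, hM.g.inv k0 lt0] at h4
    exact ⟨_, _, h4⟩
  · have hr0 : rf w h k0 < h ∨ 3 * h + w ≤ rf w h k0 := by
      unfold rf; split_ifs <;> omega
    obtain ⟨q, hq, ho, hk0⟩ := isU _ (rf_lt lt0) hr0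
    obtain ⟨Pu, Pd, P, hP⟩ := V.flip.flip.mats (fun k => !(!s k))
    have w1 := Vs.flip V lt0 hv
    rw [hk0] at w1
    have hyf : ∀ i < w, (mir X).y0.1 ≠ cl i := hy0
    obtain ⟨x1, hx1, h1, ⟨d1, t1, h3⟩, h2⟩ := V.flip.firstU' hN hP hI.flip (Two.flip V hT)
      (Rt.nr V.flip hN hR.flip hyf) (Rt.nr V.flip.flip hP hR.flip.flip hyf) hq ho hj w1
    refine ⟨false, x1, hx1, NearP.flip hh h1, Vs.unflip V lt0 (by rw [hk0]; exact h3), ?_⟩
    intro A B ξ hAB hξ hξn a b hab φ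
    have hAB' : Over B A := ⟨by rw [mul_comm]; exact hAB.mul, by rw [add_comm]; exact hAB.add⟩
    have hξ' : ξ⁻¹ ^ 2 = B := by
      rw [inv_pow, hξ]
      have h3 := hAB.mul
      have hA0 : A ≠ 0 := by intro h0; rw [h0, zero_mul] at h3; exact zero_ne_one h3
      rw [inv_eq_of_mul_eq_one_right h3]
    have key := h2 hAB' hξ' (by rw [norm_inv, hξn, inv_one]) (a := b) (b := a)
      (fun i hi => ⟨(hab i hi).2, (hab i hi).1⟩) (fun k => φ (-k))
    rw [cpn_mir, cpn_mir, norm_neg, norm_neg] at key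
    exact key


/-- **The first crossing of the strand of a window.** -/
theorem win_first' (hs : Sg T w h Xc y0 s ζ) (hOut : ∀ e ∈ Out, BL Xc y0 w h e)
    (uniq : ∀ e e', FarIn In Out ζ e → FarIn In Out ζ e' → e = e')
    (hI : Ind Y s τ X) {r : ℤ} (hR : Rt Y s τ w h cl T X ρ0 r) (hy0 : ∀ i < w, X.y0.1 ≠ cl i)
    {A B ξ : ℂ} (hAB : Over A B) (hξ : ξ ^ 2 = A) {a b : Fin N → ℂ}
    (hab : ∀ i < w, a (cl i) = A ∧ b (cl i) = B) {φ : ℤ → ℂ} {j : ℕ} (hj : j < w)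
    (hu : gl Xc y0 h j h ∈ In) (hd : gl Xc y0 h j (h - 1) ∈ In)
    (hne : cpn X φ a b (cl j) ≠ 0) :
    ∃ e : Bool, ∃ x1 < w, NearP Y s τ T w h cl (Isf T w h Xc y0 In) e x1 ∧
      (∀ z, FarIn In Out ζ z → Con ζ {e | BL Xc y0 w h e} z (sgc Xc y0 h x1)) ∧
      ∀ {A B ξ : ℂ}, Over A B →
      ξ ^ 2 = A → ‖ξ‖ = 1 → ∀ {a b : Fin N → ℂ}, (∀ i < w, a (cl i) = A ∧ b (cl i) = B) →
        ∀ φ : ℤ → ℂ, ‖cpn X φ a b (cl j)‖ = ‖cpn X φ a b (cl x1)‖ := by
  obtain ⟨Mu, Md, M, hM⟩ := V.mats s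
  obtain ⟨Nu, Nd, M2, hN⟩ := V.flip.mats (fun k => !s k)
  have hun : ¬ Un Y τ w h cl T s j := fun hun =>
    hne (V.un_zero hM hN hI (Rt.nr V hM hR hy0) (Rt.nr V.flip hN hR.flip hy0) hAB hξ hab φ hun)
  obtain ⟨k, hk, d, t, hv⟩ : ∃ k < 2 * (2 * h + w), ∃ d t, Vs Y τ w h cl T s k j d t := by
    by_contra hcon
    push Not at hcon
    exact hun ⟨hj, hcon⟩
  obtain ⟨k, hk, d, t, hv, c, hP⟩ : ∃ k < 2 * (2 * h + w), ∃ d t, Vs Y τ w h cl T s k j d t ∧
      ∃ c, PI T w h Xc y0 k c := by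
    rcases V.port_or (Xc := Xc) (y0 := y0) hM hk with h1 | h1
    · exact ⟨k, hk, d, t, hv, h1⟩
    · exact ⟨M k, hM.g.lt k hk, _, _, Vs.rev V hM hk hj hv, h1⟩
  obtain ⟨e, m, hf, hE⟩ := V.ent hs hP (Vs.vi V hj hu hd hv) hOut
  have hT := Ent.two V hM hk hs hE hOut (fun a' h' => uniq a' e h' hf)
  obtain ⟨e1, x1, hx1, h1, ⟨d1, t1, h3⟩, h2⟩ := V.first' hM hI hT rfl hR hy0 hj hv
  refine ⟨e1, x1, hx1, h1, fun z hz => ?_, h2⟩
  rw [uniq z e hz hf]
  exact Ent.con V hs hE hx1 h3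

end

end World

end Pool.Agent.H69.W
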