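import Mathlib
import Pool.Agent.H69.W.FirstP
import Pool.Agent.H69.M6b.F1a
import Pool.Agent.H30.W.AG

set_option autoImplicit false
set_option linter.unusedSectionVars false
set_option linter.unusedVariables false
open Finset

/-! # A row and extra tiles of an environment: the world of a box, the amplitudes

A family `lb : Fin M → ℤ × ℤ` of random labels whose first `N` labels are the row. -/

namespace Pool.Agent.H69.W

open Pool.Agent.H75.Perc Pool.Agent.H75.TwoArm Pool.Agent.Q1 Pool.Agent.H81.G1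
open Pool.Agent.H69.M6b Pool.Agent.H69.M6b.World
open Pool.Agent.H30.W (Fam AG gp gcr AG_eq AG_of_const tgt_cases incO_none z_add')

section fam
variable {X : Env} {M : ℕ} {lb : Fin M → ℤ × ℤ} {ω : Finset (ℤ × ℤ)}

/-- the tiles of the family -/
def τF (F : Fam X lb) (i : Fin M) : TI X := ⟨lb i, F.mem i⟩

lemma τF_inj (F : Fam X lb) : Function.Injective (τF F) := fun _ _ h => F.inj (congrArg Subtype.val h)

lemma fzF (F : Fam X lb) (ω : Finset (ℤ × ℤ)) : Fz X (X.freeze (univ.image lb) ω) ω := by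
  refine ⟨?_, ?_, ?_⟩
  · rw [F.frE]; exact F.sub
  · intro c hc
    change (if lab c ∈ X.E then nx ω c else X.out c) = _ ∧
      (if lab c ∈ X.E then del ω c else X.dout c) = _
    rw [if_neg hc, if_neg hc]; exact ⟨rfl, rfl⟩
  · intro c hc _
    change (if lab c ∈ X.E then nx ω c else X.out c) = _ ∧
      (if lab c ∈ X.E then del ω c else X.dout c) = _
    rw [if_pos hc, if_pos hc]; exact ⟨rfl, rfl⟩

lemma netF (F : Fam X lb) (hm : Meets (X.freeze (univ.image lb) ω)) (y : Fin M × Dir) :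
    RowNet X (X.freeze (univ.image lb) ω) (τF F) lb (gp lb) (gcr lb) (net (F.tiles ω) hm y)
      (rn0 (X.freeze (univ.image lb) ω)) := by
  set T := F.tiles ω
  refine ⟨T, wπ_wπ T, wτ_wπ T, inc_wπ T, rx0_in T hm, ?_, ⟨fun i hi => rn0_lt hm hi, rx0_cr T hm⟩,
    fun c => rfl, fun c => rfl, fun x => ?_⟩
  · intro x hx
    refine ⟨wl T x, fun i hi => wl_lt T hx hi, ?_, ?_⟩
    · show gcr lb (wπ T x) = _
      unfold wπ
      rw [if_pos hx]
      exact sg_cr T hx
    · show wτ T x = _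
      unfold wτ
      rw [if_pos hx]
      rfl
  · obtain ⟨c, d⟩ := x
    cases d <;> rfl

/-- the phase function of the amplitudes of the family -/
noncomputable def phF (X : Env) (lb : Fin M → ℤ × ℤ) (y : Fin M × Dir) (m : ℕ) (u : ℂ) (k : ℤ) : ℂ :=
  u * (zt ^ (6 * ty (gcr lb y) - 2 * X.k0 - 2 * dsh X m) * zt ^ (-2 * k))

/-- the root does not meet the family -/
lemma AG_no (F : Fam X lb) {y : Fin M × Dir} (hy : inc (gp lb) y = true)
    (hm : ¬ Meets (X.freeze (univ.image lb) ω)) (a b : Fin M → ℂ) :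
    AG X lb (gcr lb y) a b ω = 0 := by
  rw [AG_of_const F (u := 0) ?_ a b, zero_mul]
  intro ρ hρ
  set Y := X.freeze (univ.image lb) ω with hY
  have hρ' : ρ ⊆ Y.E := by rw [hY, F.frE]; exact hρ
  have hno : ∀ i, lab (Y.out^[i] Y.c0) ∉ Y.E := fun i hi => hm ⟨i, hi⟩
  refine incO_none fun i _ hz => ?_
  have e1 : Y.z ρ i = Y.out^[i] Y.c0 := (wire_iter hρ' Y.c0_mem (n := i) (fun k _ => hno k)).1 i le_rfl
  apply hno i
  rw [← e1, hz]
  exact mem_cr (F.tiles ω) hy

/-- the amplitude as a state sum of the network of the family -/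
lemma AG_at (F : Fam X lb) {y : Fin M × Dir} (hy : inc (gp lb) y = true)
    (hm : Meets (X.freeze (univ.image lb) ω)) (m : ℕ) (u : ℂ) {a b : Fin M → ℂ} {c : Fin M}
    (hc : a c + b c = 0) :
    u * AG X lb (gcr lb y) a b ω = ZF (net (F.tiles ω) hm y)
      (fun k => phF X lb y m u (k + (dsh (X.freeze (univ.image lb) ω)
        (rn0 (X.freeze (univ.image lb) ω)) - dsh X m))) a b := by
  have h0 := zt_ne
  by_cases hne : y = rx0 (F.tiles ω) hm
  · rw [AG_of_const F (u := Pool.Agent.Q1.ph ((X.freeze (univ.image lb) ω).k0 + dsh (X.freeze (univ.image lb) ω)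
      (rn0 (X.freeze (univ.image lb) ω)))) ?_ a b, prod_eq_zero (mem_univ c) hc, mul_zero, mul_zero]
    · exact (ZF_triv _ (wπ_wπ (F.tiles ω)) hne _ hc).symm
    · intro ρ hρ
      rw [hne]
      exact incO_root (F.tiles ω) hm (by rw [F.frE]; exact hρ)
  · have e1 : AG X lb (gcr lb y) a b ω = zt ^ (6 * ty (gcr lb y) -
        2 * ((X.freeze (univ.image lb) ω).k0 + dsh (X.freeze (univ.image lb) ω)
          (rn0 (X.freeze (univ.image lb) ω)))) * (net (F.tiles ω) hm y).Z a b := by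
      unfold AG Net.Z
      rw [mul_sum]
      refine sum_congr rfl fun s _ => ?_
      have hW := net_wired (F.tiles ω) hm hy hne
      have h1 := incO_amp hW (osn_sub (F.tiles ω) s)
      rw [stt_osn (F.tiles ω)] at h1
      have h2 : (net (F.tiles ω) hm y).y0 = y := rfl
      rw [h2] at h1
      rw [h1]
      ring
    rw [e1, ← ZF_eq, ← ZF_smul, ← ZF_smul]
    congr 1
    funext k
    unfold phF
    rw [← zpow_add₀ h0, ← zpow_add₀ h0]
    congr 2
    have e : (X.freeze (univ.image lb) ω).k0 = X.k0 := rfl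
    rw [e]
    ring

/-- **The two cases for the target**, at the level of the environment: with a coupon the amplitude is
zero, or it is a phase times the amplitude at an end of a tile of the family. -/
theorem tgtF_cases (F : Fam X lb) (ct : ℤ × ℤ) (P : Fin M → Prop)
    (hem : ∀ n, (∀ i < n, lab (X.out^[i] ct) ∉ X.E) → lab (X.out^[n] ct) ∈ X.E →
      ∃ i, P i ∧ lb i = lab (X.out^[n] ct)) :
    (∀ (a b : Fin M → ℂ) (ω : Finset (ℤ × ℤ)), (∃ c, a c + b c = 0) → AG X lb ct a b ω = 0) ∨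
    ∃ (y : Fin M × Dir) (u : ℂ), P y.1 ∧ inc (gp lb) y = true ∧ ‖u‖ = 1 ∧
      ∀ (a b : Fin M → ℂ) (ω : Finset (ℤ × ℤ)), AG X lb ct a b ω = u * AG X lb (gcr lb y) a b ω := by
  have sub : ∀ (s : Fin M → Bool) (ω : Finset (ℤ × ℤ)),
      osn lb (gp lb) s ∪ (ω ∩ (X.E \ univ.image lb)) ⊆ X.E := by
    intro s ω
    have h1 := osn_sub (F.tiles ω) s
    rw [F.frE] at h1
    exact union_subset (h1.trans F.sub) (inter_subset_right.trans sdiff_subset)
  rcases tgt_cases X ct with ⟨u, -, h1⟩ | ⟨n, n1, n2, n3, n4⟩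
  · left
    rintro a b ω ⟨c, hc⟩
    rw [AG_eq F]
    have : ∀ s : Fin M → Bool, (∏ i, if s i then b i else a i) *
        X.incO (osn lb (gp lb) s ∪ (ω ∩ (X.E \ univ.image lb))) ct =
        (∏ i, if s i then b i else a i) * u := fun s => by rw [h1 _ (sub s ω)]
    rw [sum_congr rfl fun s _ => this s, ← sum_mul, Pool.Agent.H30.W.sum_wts,
      prod_eq_zero (mem_univ c) hc, zero_mul]
  · right
    obtain ⟨i, hPi, hi⟩ := hem n n1 n2
    have h2 : lab (X.out^[n] ct) ∈ (X.freeze (univ.image lb) ∅).E := by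
      rw [F.frE, ← hi]; exact mem_image_of_mem _ (mem_univ i)
    obtain ⟨y, hy, hcy⟩ := cr_surj (F.tiles ∅) h2
    have h3 : lb y.1 = lab (X.out^[n] ct) := by
      rw [← hcy]; exact (lab_cr (F.tiles ∅) hy).symm
    have h4 : y.1 = i := F.inj (h3.trans hi.symm)
    refine ⟨y, Pool.Agent.Q1.ph (-∑ i ∈ range n, X.dout (X.out^[i] ct)), by rw [h4]; exact hPi, hy,
      Pool.Agent.Q1.ph_norm _, ?_⟩
    intro a b ω
    rw [AG_eq F, AG_eq F, mul_sum]
    refine sum_congr rfl fun s _ => ?_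
    rw [n4 _ (sub s ω), ← hcy]
    ring

end fam

/-! ### The box and the family -/

section box
variable {X : Env} {N M : ℕ} {xr y0 : ℤ} {lb : Fin M → ℤ × ℤ} {c0 w h : ℕ}

/-- a family whose first labels are the row -/
structure FamR (X : Env) (N M : ℕ) (xr y0 : ℤ) (lb : Fin M → ℤ × ℤ) : Prop where
  F : Fam X lb
  le : N ≤ M
  row : ∀ c : Fin N, lb (Fin.castLE le c) = lbt (xr + (c : ℕ)) y0

/-- the columns of the box in the family -/
def clF (N M c0 : ℕ) (hN : 0 < N) (hM : N ≤ M) (i : ℕ) : Fin M := Fin.castLE hM (clS N c0 hN i)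

lemma FamR.τ (R : FamR X N M xr y0 lb) (hr : ∀ c : Fin N, lbt (xr + (c : ℕ)) y0 ∈ X.E) (c : Fin N) :
    τF R.F (Fin.castLE R.le c) = τS hr c := Subtype.ext (R.row c)

/-- the tiles of the box are not tiles of the family -/
def BxF (X : Env) (lb : Fin M → ℤ × ℤ) (Xc y0 : ℤ) (w h : ℕ) : Prop :=
  ∀ i < w, ∀ j < 2 * h, ∀ c, tl Xc y0 h (i : ℕ) (j : ℕ) ≠ lb c

/-- **The box is a world for the family.** -/
theorem world_F (R : FamR X N M xr y0 lb) (B : BoxIn X N xr y0 c0 w h)
    (hd : BxF X lb (xr + c0) y0 w h) (hN : 0 < N) (dflt : TI X) (x y : TI X × Dir) :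
    World (netS X x y) (τF R.F) c0 w h (clF N M c0 hN R.le) (TS X dflt (xr + c0) y0 h) := by
  have V := world_env B hN dflt x y
  have hle := R.le
  have h2 := B.c2
  have h1 := B.c1
  have h0 := B.w0
  refine ⟨V.inv, V.w0, V.h0, V.c1, by omega, ?_, τF_inj R.F, V.Tinj, ?_, V.wE, V.wN, ?_, ?_, V.tT, ?_,
    ?_, ?_⟩
  · intro i hi
    exact V.clv i hi
  · intro i hi j hj c e
    apply hd i hi j hj c
    have hm := B.box i j (by omega) (by omega) (by omega) (by omega)
    rw [TS_eq hm] at e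
    exact congrArg Subtype.val e
  · intro i hi
    rw [clF, R.τ B.row]
    exact V.up i hi
  · intro i hi
    rw [clF, R.τ B.row]
    exact V.dn i hi
  · intro i hi d
    rw [clF, R.τ B.row]
    exact V.tr i hi d
  · intro c c' hcc hc1 hc2
    have e1 : c = Fin.castLE R.le ⟨(c : ℕ), by omega⟩ := rfl
    have e2 : c' = Fin.castLE R.le ⟨(c' : ℕ), by omega⟩ := rfl
    rw [e1, e2, R.τ B.row, R.τ B.row]
    exact V.row _ _ hcc
  · intro k hk
    obtain ⟨g1, g2⟩ := V.oo k hk
    refine ⟨g1, fun i hi => ?_⟩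
    rw [clF, R.τ B.row]
    exact g2 i hi

/-- **The amplitudes of the family and the box.** -/
theorem aw_F (R : FamR X N M xr y0 lb) (B : BoxIn X N xr y0 c0 w h) (dflt : TI X) (hN : 0 < N)
    {y : Fin M × Dir} (hy : inc (gp lb) y = true) {ρ0 : TI X × Dir} {m : ℕ} (hR : RootP X ρ0 m)
    (x1 y1 : TI X × Dir) (ω : Finset (ℤ × ℤ)) (a b : Fin M → ℂ) {ct : ℤ × ℤ} {u : ℂ}
    (hct : ∀ (a b : Fin M → ℂ) (ω : Finset (ℤ × ℤ)), AG X lb ct a b ω = u * AG X lb (gcr lb y) a b ω) :
    World.AW (netS X x1 y1) (stt lbS pS ω) (τF R.F) w h (clF N M c0 hN R.le)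
      (TS X dflt (xr + c0) y0 h) ρ0 (phF X lb y m u) y a b
      (fun i => AG X lb ct (Function.update a (clF N M c0 hN R.le i) 1)
        (Function.update b (clF N M c0 hN R.le i) (-1)) ω) := by
  have hF := fzF R.F ω
  have hc : (X.freeze (univ.image lb) ω).c0 = X.c0 := rfl
  have hnc : ∀ i < w, ρ0.1 ≠ τF R.F (clF N M c0 hN R.le i) := by
    intro i hi
    rw [clF, R.τ B.row]
    exact root_nc B hN hR i hi
  by_cases hm : Meets (X.freeze (univ.image lb) ω)
  · left
    have Rn := netF R.F hm y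
    refine ⟨net (R.F.tiles ω) hm y, _, ind_env hF Rn x1 y1,
      ⟨root_nb B dflt hR, hnc, root_pr hF hc Rn hR x1 y1⟩, rfl, ?_⟩
    intro i hi
    simp only
    rw [hct]
    unfold cpn
    refine AG_at R.F hy hm m u (c := clF N M c0 hN R.le i) ?_
    rw [Function.update_self, Function.update_self]; ring
  · right
    refine ⟨⟨root_nb B dflt hR, hnc, ?_⟩, ?_⟩
    · intro k
      refine root_never hF hc ?_ ?_ hR x1 y1 k
      · intro z hz c hc
        apply hz
        rw [R.F.frE, hc]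
        exact mem_image_of_mem _ (mem_univ c)
      · intro n hn
        exact hm ⟨n, hn⟩
    · intro i hi
      simp only
      rw [hct, AG_no R.F hy hm, mul_zero]

lemma meets_subF {ω : Finset (ℤ × ℤ)} (F : Fam X lb) (hm : Meets (X.freeze (univ.image lb) ω)) :
    Meets X := by
  by_contra hno
  have hno' : ∀ i, lab (X.out^[i] X.c0) ∉ X.E := fun i hi => hno ⟨i, hi⟩
  obtain ⟨n, hn⟩ := hm
  have hF := fzF F ω
  have key : ∀ i, (X.freeze (univ.image lb) ω).out^[i] X.c0 = X.out^[i] X.c0 := by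
    intro i
    induction i with
    | zero => rfl
    | succ i ih =>
      rw [Function.iterate_succ_apply', ih, Function.iterate_succ_apply']
      exact (hF.o1 _ (hno' i)).1
  have h1 : (X.freeze (univ.image lb) ω).c0 = X.c0 := rfl
  rw [h1, key n] at hn
  exact hno' n (hF.sub hn)

end box

end Pool.Agent.H69.W
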