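import Mathlib
import Pool.Agent.H69.W.EnvF
import Pool.Agent.H30.W.RowE

set_option autoImplicit false
set_option linter.unusedSectionVars false
set_option linter.unusedVariables false
open Finset

/-! # The window theorem for a row with extra tiles -/

namespace Pool.Agent.H69.W

open Pool.Agent.H75.Perc Pool.Agent.H75.TwoArm Pool.Agent.Q1 Pool.Agent.H81.G1
open Pool.Agent.H69.M6b Pool.Agent.H69.M6b.World
open Pool.Agent.H30.Mid (RS rl mem_RS ug mem_ug cA cB)
open Pool.Agent.H30.W (Fam AG gp gcr AG_eq LayE lbE eA eB XS image_lbE)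
open Pool.Agent.Q1.M6b.Gl (gE tr mem_tr)
open Pool.Agent.Q1.M6b.Gd (FarIn)

/-- reindexing of the tiles -/
lemma AG_equiv' {ι κ' : Type*} [Fintype ι] [DecidableEq ι] [Fintype κ'] [DecidableEq κ'] {X : Env}
    {lb : ι → ℤ × ℤ} (g : κ' ≃ ι) (ct : ℤ × ℤ) (a b : ι → ℂ) (h : Fam X lb) (ω : Finset (ℤ × ℤ)) :
    AG X (fun j => lb (g j)) ct (fun j => a (g j)) (fun j => b (g j)) ω = AG X lb ct a b ω := by
  have h' : Fam X (fun j => lb (g j)) := ⟨fun i j hij => g.injective (h.inj hij), fun i => h.mem _⟩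
  rw [AG_eq h, AG_eq h']
  have him : univ.image (fun j => lb (g j)) = univ.image lb := by
    ext x
    rw [mem_image, mem_image]
    constructor
    · rintro ⟨j, -, rfl⟩; exact ⟨g j, mem_univ _, rfl⟩
    · rintro ⟨i, -, rfl⟩; exact ⟨g.symm i, mem_univ _, by rw [Equiv.apply_symm_apply]⟩
  rw [him, ← (Equiv.arrowCongr g (Equiv.refl Bool)).sum_comp]
  refine sum_congr rfl fun s _ => ?_
  have e1 : ∀ i, (Equiv.arrowCongr g (Equiv.refl Bool)) s i = s (g.symm i) := fun i => rfl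
  have e2 : osn (fun j => lb (g j)) (gp fun j => lb (g j)) s =
      osn lb (gp lb) ((Equiv.arrowCongr g (Equiv.refl Bool)) s) := by
    ext x
    unfold osn
    rw [mem_image, mem_image]
    constructor
    · rintro ⟨j, hj, rfl⟩
      refine ⟨g j, mem_filter.2 ⟨mem_univ _, ?_⟩, rfl⟩
      rw [e1, Equiv.symm_apply_apply]
      exact (mem_filter.1 hj).2
    · rintro ⟨i, hi, rfl⟩
      refine ⟨g.symm i, mem_filter.2 ⟨mem_univ _, ?_⟩, by rw [Equiv.apply_symm_apply]⟩
      have h1 := (mem_filter.1 hi).2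
      rw [e1] at h1
      unfold gp at h1 ⊢
      simp only [Equiv.apply_symm_apply]
      exact h1
  rw [e2]
  congr 1
  rw [← g.prod_comp]
  refine prod_congr rfl fun j _ => ?_
  rw [e1, Equiv.symm_apply_apply]

section
variable {X : Env} {N : ℕ} {J : Type*} [Fintype J] [DecidableEq J] {xr y0 : ℤ} {l2 : J → ℤ × ℤ}
  {EL EU ζ ζ' In Out : Finset (ℤ × ℤ)} {c0 w h : ℕ}

lemma LE_lo (L : LayE X N xr y0 l2 EL EU) {x y : ℤ} (hm : lbt x y ∈ gE EL EU (1, -1))
    (hy : y < y0) : lbt x y ∈ EL := by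
  rcases mem_union.1 hm with h1 | h1
  · exact h1
  · exfalso
    rw [mem_tr, lbt_sub] at h1
    have := L.upp _ h1
    rw [lbt_diff] at this
    omega

lemma LE_hi (L : LayE X N xr y0 l2 EL EU) {x y : ℤ} (hm : lbt x y ∈ gE EL EU (1, -1))
    (hy : y0 ≤ y) : lbt x (y + 1) ∈ EU := by
  rcases mem_union.1 hm with h1 | h1
  · exfalso
    have := L.low _ h1
    rw [lbt_diff] at this
    omega
  · rw [mem_tr, lbt_sub] at h1
    exact h1

lemma LE_subL (L : LayE X N xr y0 l2 EL EU) {e : ℤ × ℤ} (he : e ∈ EL) :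
    e ∈ X.E ∧ e ∉ RS N xr y0 ∪ XS l2 := by
  have h1 : e ∈ X.E \ (RS N xr y0 ∪ XS l2) := by rw [L.eq]; exact mem_union_left _ he
  exact ⟨(mem_sdiff.1 h1).1, (mem_sdiff.1 h1).2⟩

lemma LE_subU (L : LayE X N xr y0 l2 EL EU) {e : ℤ × ℤ} (he : e ∈ EU) :
    e ∈ X.E ∧ e ∉ RS N xr y0 ∪ XS l2 := by
  have h1 : e ∈ X.E \ (RS N xr y0 ∪ XS l2) := by rw [L.eq]; exact mem_union_right _ he
  exact ⟨(mem_sdiff.1 h1).1, (mem_sdiff.1 h1).2⟩

/-- the tiles of the box and the labels -/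
lemma LE_tl (L : LayE X N xr y0 l2 EL EU) (G : GBox EL EU N xr y0 c0 w h) {i j : ℤ} (h1 : -1 ≤ i)
    (h2 : i ≤ w) (h3 : -1 ≤ j) (h4 : j ≤ 2 * h) :
    (j < h → tl (xr + c0) y0 h i j ∈ EL) ∧ (¬ j < h → tl (xr + c0) y0 h i j ∈ EU) := by
  have hm := G.box i j h1 h2 h3 h4
  constructor
  · intro hj
    unfold tl hgt
    rw [if_pos hj]
    exact LE_lo L hm (by omega)
  · intro hj
    unfold tl hgt
    rw [if_neg hj]
    exact LE_hi L hm (by omega)

lemma LE_box (L : LayE X N xr y0 l2 EL EU) (G : GBox EL EU N xr y0 c0 w h) :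
    BoxIn X N xr y0 c0 w h := by
  refine ⟨fun c => L.fam.mem (.inl c), G.w0, G.h0, G.c1, G.c2, ?_⟩
  intro i j h1 h2 h3 h4
  obtain ⟨g1, g2⟩ := LE_tl L G h1 h2 h3 h4
  by_cases hj : j < h
  · exact (LE_subL L (g1 hj)).1
  · exact (LE_subU L (g2 hj)).1

/-- the states of the box -/
lemma LE_sg (L : LayE X N xr y0 l2 EL EU) (G : GBox EL EU N xr y0 c0 w h) (dflt : TI X)
    (ζ : Finset (ℤ × ℤ)) : Sg (TS X dflt (xr + c0) y0 h) w h (xr + c0) y0
      (stt lbS pS (ug EL EU (1, -1) ζ)) ζ := by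
  intro i hi j hj
  have hh := G.h0
  have hm := G.box i j (by omega) (by omega) (by omega) (by omega)
  have B := LE_box L G
  rw [TS_eq (B.box i j (by omega) (by omega) (by omega) (by omega))]
  change (decide (tl (xr + c0) y0 h i j ∈ ug EL EU (1, -1) ζ) == pr0 (tl (xr + c0) y0 h i j)) =
    (decide (gl (xr + c0) y0 h i j ∈ ζ) == pr0 (gl (xr + c0) y0 h i j))
  rcases Nat.lt_or_ge j h with hjh | hjh
  · have e : tl (xr + c0) y0 h i j = gl (xr + c0) y0 h i j := by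
      unfold tl hgt gl; rw [if_pos (by omega)]
    have hl : gl (xr + c0) y0 h i j ∈ EL := LE_lo L hm (by omega)
    rw [e]
    congr 1
    apply decide_eq_decide.2
    rw [mem_ug]
    constructor
    · rintro (h1 | h1)
      · exact h1.1
      · exfalso
        have h2 := L.low _ hl
        have h3 := L.upp _ h1.1
        omega
    · intro h1; exact Or.inl ⟨h1, hl⟩
  · have e : tl (xr + c0) y0 h i j = lbt (xr + c0 + i) (y0 - h + j + 1) := by
      unfold tl hgt; rw [if_neg (by omega)]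
    have hl : lbt (xr + c0 + i) (y0 - h + j + 1) ∈ EU := LE_hi L hm (by omega)
    have e2 : lbt (xr + c0 + i) (y0 - h + j + 1) + (1, -1) = gl (xr + c0) y0 h i j := by
      unfold gl
      rw [← lbt_sub, sub_add_cancel]
    have e3 : pr0 (gl (xr + c0) y0 h i j) = !pr0 (lbt (xr + c0 + i) (y0 - h + j + 1)) := by
      apply pr0_shift
      rw [← e2]
      simp only [Prod.fst_add]
      omega
    rw [e, e3]
    have key : (lbt (xr + c0 + i) (y0 - h + j + 1) ∈ ug EL EU (1, -1) ζ) ↔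
        ¬ gl (xr + c0) y0 h i j ∈ ζ := by
      rw [mem_ug, e2]
      constructor
      · rintro (h1 | h1)
        · exfalso
          have h2 := L.low _ h1.2
          have h3 := L.upp _ hl
          omega
        · exact h1.2
      · intro h1; exact Or.inr ⟨hl, h1⟩
    generalize pr0 (lbt (xr + c0 + i) (y0 - h + j + 1)) = b
    by_cases h1 : gl (xr + c0) y0 h i j ∈ ζ
    · rw [decide_eq_true h1, decide_eq_false (fun h2 => key.1 h2 h1)]
      cases b <;> rfl
    · rw [decide_eq_false h1, decide_eq_true (key.2 h1)]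
      cases b <;> rfl

/-- agreement off the window -/
lemma LE_ag (L : LayE X N xr y0 l2 EL EU) (G : GBox EL EU N xr y0 c0 w h) (dflt : TI X) {M : ℕ}
    {lb : Fin M → ℤ × ℤ} (F : Fam X lb) (himg : univ.image lb = RS N xr y0 ∪ XS l2)
    (hag : ∀ e, e ∉ In → (e ∈ ζ ↔ e ∈ ζ')) (hIn : ∀ e ∈ In, BL (xr + c0) y0 w h e) :
    World.Ag (τF F) (Isf (TS X dflt (xr + c0) y0 h) w h (xr + c0) y0 In)
      (stt lbS pS (ug EL EU (1, -1) ζ)) (stt lbS pS (ug EL EU (1, -1) ζ')) := by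
  rintro ⟨e, he⟩ h1 h2
  have hrow : e ∉ RS N xr y0 ∪ XS l2 := by
    rw [← himg]
    intro h3
    obtain ⟨c, -, hc⟩ := mem_image.1 h3
    exact h2 c (Subtype.ext hc.symm)
  have hE : e ∈ EL ∪ EU := by rw [← L.eq]; exact mem_sdiff.2 ⟨he, hrow⟩
  unfold stt lbS
  simp only
  congr 1
  apply decide_eq_decide.2
  rw [mem_ug, mem_ug]
  rcases mem_union.1 hE with hl | hu
  · have hn : e ∉ EU := by
      intro h3
      have h4 := L.low _ hl
      have h5 := L.upp _ h3
      omega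
    have hin : e ∉ In := by
      intro h3
      apply h1
      obtain ⟨i, hi, j, hj, e4⟩ := hIn e h3
      refine ⟨i, hi, j, hj, ?_, by rw [← e4]; exact h3⟩
      have h5 := L.low _ hl
      rw [e4] at h5
      unfold gl at h5
      rw [lbt_diff] at h5
      have e5 : tl (xr + c0) y0 h i j = e := by
        rw [e4]
        unfold tl hgt gl; rw [if_pos (by omega)]
      rw [TS_eq (by rw [e5]; exact he)]
      exact Subtype.ext e5.symm
    have h3 := hag e hin
    constructor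
    · rintro (h4 | h4)
      · exact Or.inl ⟨h3.1 h4.1, hl⟩
      · exact absurd h4.1 hn
    · rintro (h4 | h4)
      · exact Or.inl ⟨h3.2 h4.1, hl⟩
      · exact absurd h4.1 hn
  · have hn : e ∉ EL := by
      intro h3
      have h4 := L.low _ h3
      have h5 := L.upp _ hu
      omega
    have hin : e + (1, -1) ∉ In := by
      intro h3
      apply h1
      obtain ⟨i, hi, j, hj, e4⟩ := hIn _ h3
      refine ⟨i, hi, j, hj, ?_, by rw [← e4]; exact h3⟩
      have h6 : e = lbt (xr + c0 + i) (y0 - h + j + 1) := by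
        have h7 := lbt_sub (xr + c0 + i) (y0 - h + j)
        rw [← h7]
        have h8 : e + (1, -1) = lbt (xr + c0 + i) (y0 - h + j) := e4
        rw [← h8, add_sub_cancel_right]
      have h5 := L.upp _ hu
      rw [h6, lbt_diff] at h5
      have e5 : tl (xr + c0) y0 h i j = e := by
        rw [h6]
        unfold tl hgt; rw [if_neg (by omega)]
      rw [TS_eq (by rw [e5]; exact he)]
      exact Subtype.ext e5.symm
    have h3 := hag _ hin
    constructor
    · rintro (h4 | h4)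
      · exact absurd h4.2 hn
      · exact Or.inr ⟨hu, fun h5 => h4.2 (h3.2 h5)⟩
    · rintro (h4 | h4)
      · exact absurd h4.2 hn
      · exact Or.inr ⟨hu, fun h5 => h4.2 (h3.1 h5)⟩

/-! ### The index set `Fin (N + card J)` -/

/-- the row first, then the extra tiles -/
noncomputable def eqE (N : ℕ) (J : Type*) [Fintype J] : Fin (N + Fintype.card J) ≃ Fin N ⊕ J :=
  finSumFinEquiv.symm.trans (Equiv.sumCongr (Equiv.refl _) (Fintype.equivFin J).symm)

lemma eqE_castLE (c : Fin N) :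
    eqE N J (Fin.castLE (Nat.le_add_right N (Fintype.card J)) c) = .inl c := by
  have e : (Fin.castLE (Nat.le_add_right N (Fintype.card J)) c) = Fin.castAdd (Fintype.card J) c := rfl
  rw [e]
  unfold eqE
  simp

/-- the family with the index set `Fin (N + card J)` -/
noncomputable def lbF (N : ℕ) (xr y0 : ℤ) (l2 : J → ℤ × ℤ) (i : Fin (N + Fintype.card J)) : ℤ × ℤ :=
  lbE N xr y0 l2 (eqE N J i)

lemma famR (L : LayE X N xr y0 l2 EL EU) :
    FamR X N (N + Fintype.card J) xr y0 (lbF N xr y0 l2) := by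
  refine ⟨⟨fun i j hij => (eqE N J).injective (L.fam.inj hij), fun i => L.fam.mem _⟩,
    Nat.le_add_right _ _, fun c => ?_⟩
  unfold lbF
  rw [eqE_castLE]
  rfl

lemma image_lbF : univ.image (lbF N xr y0 l2) = RS N xr y0 ∪ XS l2 := by
  rw [← image_lbE]
  ext x
  rw [mem_image, mem_image]
  constructor
  · rintro ⟨j, -, rfl⟩; exact ⟨eqE N J j, mem_univ _, rfl⟩
  · rintro ⟨i, -, rfl⟩
    exact ⟨(eqE N J).symm i, mem_univ _, by unfold lbF; rw [Equiv.apply_symm_apply]⟩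

lemma LE_bxF (L : LayE X N xr y0 l2 EL EU) (G : GBox EL EU N xr y0 c0 w h) :
    BxF X (lbF N xr y0 l2) (xr + c0) y0 w h := by
  intro i hi j hj c e
  have h1 : lbF N xr y0 l2 c ∈ RS N xr y0 ∪ XS l2 := by
    rw [← image_lbF]; exact mem_image_of_mem _ (mem_univ c)
  rw [← e] at h1
  obtain ⟨g1, g2⟩ := LE_tl L G (i := i) (j := j) (by omega) (by omega) (by omega) (by omega)
  by_cases hjh : (j : ℤ) < h
  · exact (LE_subL L (g1 hjh)).2 h1
  · exact (LE_subU L (g2 hjh)).2 h1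

/-- weights -/
noncomputable def aF (S : Finset (Fin N)) (A : ℂ) (a2 : J → ℂ) (i : Fin (N + Fintype.card J)) : ℂ :=
  eA S A a2 (eqE N J i)

noncomputable def bF (S : Finset (Fin N)) (B : ℂ) (b2 : J → ℂ) (i : Fin (N + Fintype.card J)) : ℂ :=
  eB S B b2 (eqE N J i)

lemma upd_aF (hN : 0 < N) (S : Finset (Fin N)) (A : ℂ) (a2 : J → ℂ) (i : ℕ) :
    Function.update (aF S A a2) (clF N _ c0 hN (Nat.le_add_right N (Fintype.card J)) i) 1 =
      aF (insert (clS N c0 hN i) S) A a2 := by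
  funext j
  by_cases hj : j = clF N _ c0 hN (Nat.le_add_right N (Fintype.card J)) i
  · subst hj
    rw [Function.update_self]
    unfold aF clF
    rw [eqE_castLE]
    change (1 : ℂ) = cA (insert (clS N c0 hN i) S) A (clS N c0 hN i)
    unfold cA
    rw [if_pos (mem_insert_self _ _)]
  · rw [Function.update_of_ne hj]
    unfold aF
    rcases hc : eqE N J j with c | k
    · have hne : c ≠ clS N c0 hN i := by
        rintro rfl
        apply hj
        apply (eqE N J).injective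
        unfold clF
        rw [hc, eqE_castLE]
      change cA S A c = cA (insert (clS N c0 hN i) S) A c
      unfold cA
      by_cases h2 : c ∈ S
      · rw [if_pos h2, if_pos (mem_insert_of_mem h2)]
      · rw [if_neg h2, if_neg (fun h3 => (mem_insert.1 h3).elim hne h2)]
    · rfl

lemma upd_bF (hN : 0 < N) (S : Finset (Fin N)) (B : ℂ) (b2 : J → ℂ) (i : ℕ) :
    Function.update (bF S B b2) (clF N _ c0 hN (Nat.le_add_right N (Fintype.card J)) i) (-1) =
      bF (insert (clS N c0 hN i) S) B b2 := by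
  funext j
  by_cases hj : j = clF N _ c0 hN (Nat.le_add_right N (Fintype.card J)) i
  · subst hj
    rw [Function.update_self]
    unfold bF clF
    rw [eqE_castLE]
    change (-1 : ℂ) = cB (insert (clS N c0 hN i) S) B (clS N c0 hN i)
    unfold cB
    rw [if_pos (mem_insert_self _ _)]
  · rw [Function.update_of_ne hj]
    unfold bF
    rcases hc : eqE N J j with c | k
    · have hne : c ≠ clS N c0 hN i := by
        rintro rfl
        apply hj
        apply (eqE N J).injective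
        unfold clF
        rw [hc, eqE_castLE]
      change cB S B c = cB (insert (clS N c0 hN i) S) B c
      unfold cB
      by_cases h2 : c ∈ S
      · rw [if_pos h2, if_pos (mem_insert_of_mem h2)]
      · rw [if_neg h2, if_neg (fun h3 => (mem_insert.1 h3).elim hne h2)]
    · rfl

lemma AG_F (L : LayE X N xr y0 l2 EL EU) (ct : ℤ × ℤ) (S : Finset (Fin N)) (A B : ℂ) (a2 b2 : J → ℂ)
    (ω : Finset (ℤ × ℤ)) : AG X (lbF N xr y0 l2) ct (aF S A a2) (bF S B b2) ω =
      AG X (lbE N xr y0 l2) ct (eA S A a2) (eB S B b2) ω :=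
  AG_equiv' (eqE N J) ct _ _ L.fam ω

/-- a column of the box has the weights of the row -/
lemma aF_cl (hN : 0 < N) {S : Finset (Fin N)} {A B : ℂ} {a2 b2 : J → ℂ} {i : ℕ}
    (hi : clS N c0 hN i ∉ S) :
    aF S A a2 (clF N _ c0 hN (Nat.le_add_right N (Fintype.card J)) i) = A ∧
      bF S B b2 (clF N _ c0 hN (Nat.le_add_right N (Fintype.card J)) i) = B := by
  unfold aF bF clF
  rw [eqE_castLE]
  change cA S A (clS N c0 hN i) = A ∧ cB S B (clS N c0 hN i) = B
  unfold cA cB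
  rw [if_neg hi, if_neg hi]
  exact ⟨rfl, rfl⟩

/-! ### The target -/

/-- the path of the target reaches an extra tile or a tile `0`, `N - 1`, `yc` of the row before all other
random labels -/
def TgE (X : Env) (N : ℕ) (xr y0 : ℤ) (l2 : J → ℤ × ℤ) (yc : Fin N) (ct : ℤ × ℤ) : Prop :=
  ∀ n, (∀ i < n, lab (X.out^[i] ct) ∉ X.E) → lab (X.out^[n] ct) ∈ X.E →
    (∃ j, l2 j = lab (X.out^[n] ct)) ∨
      ∃ c : Fin N, rl xr y0 c = lab (X.out^[n] ct) ∧ ((c : ℕ) = 0 ∨ (c : ℕ) + 1 = N ∨ c = yc)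

/-- the tiles of the target -/
def PE (N : ℕ) (yc : Fin N) {M : ℕ} (i : Fin M) : Prop :=
  N ≤ (i : ℕ) ∨ (i : ℕ) = 0 ∨ (i : ℕ) + 1 = N ∨ (i : ℕ) = yc

lemma TgE.hem {yc : Fin N} {ct : ℤ × ℤ} (h : TgE X N xr y0 l2 yc ct) :
    ∀ n, (∀ i < n, lab (X.out^[i] ct) ∉ X.E) → lab (X.out^[n] ct) ∈ X.E →
      ∃ i, PE N yc i ∧ lbF N xr y0 l2 i = lab (X.out^[n] ct) := by
  intro n h1 h2
  rcases h n h1 h2 with ⟨j, hj⟩ | ⟨c, hc, hc2⟩
  · refine ⟨(eqE N J).symm (.inr j), Or.inl ?_, ?_⟩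
    · by_contra hlt
      push Not at hlt
      have e1 : (eqE N J).symm (.inr j) = Fin.castLE (Nat.le_add_right N (Fintype.card J))
          ⟨((eqE N J).symm (.inr j) : ℕ), hlt⟩ := rfl
      have e2 := congrArg (eqE N J) e1
      rw [Equiv.apply_symm_apply, eqE_castLE] at e2
      simp at e2
    · unfold lbF
      rw [Equiv.apply_symm_apply]
      exact hj
  · refine ⟨Fin.castLE (Nat.le_add_right N (Fintype.card J)) c, ?_, ?_⟩
    · right
      have e : ((Fin.castLE (Nat.le_add_right N (Fintype.card J)) c : Fin _) : ℕ) = c := rfl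
      rw [e]
      rcases hc2 with h3 | h3 | h3
      · exact Or.inl h3
      · exact Or.inr (Or.inl h3)
      · exact Or.inr (Or.inr (by rw [h3]))
    · unfold lbF
      rw [eqE_castLE]
      exact hc

lemma PE.ne {yc : Fin N} {M : ℕ} {i : Fin M} (hP : PE N yc i) (hN : 0 < N) (hM : N ≤ M) (c1 : 0 < c0)
    (c2 : c0 + w < N) (hyc : ∀ k < w, yc ≠ clS N c0 hN k) : ∀ k < w, i ≠ clF N M c0 hN hM k := by
  intro k hk e
  have h1 : ((clS N c0 hN k : Fin N) : ℕ) = c0 + k := by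
    unfold clS
    simp only
    exact Nat.mod_eq_of_lt (by omega)
  have h2 : (i : ℕ) = c0 + k := by rw [e]; exact h1
  rcases hP with h3 | h3 | h3 | h3
  · omega
  · omega
  · omega
  · exact hyc k hk (Fin.ext (by omega))

/-- the amplitude with coupons at `S` in the glued configuration -/
noncomputable def AE (X : Env) (N : ℕ) (xr y0 : ℤ) (l2 : J → ℤ × ℤ) (ct : ℤ × ℤ) (a2 b2 : J → ℂ)
    (EL EU : Finset (ℤ × ℤ)) (S : Finset (Fin N)) (ζ : Finset (ℤ × ℤ)) : ℂ :=
  AG X (lbE N xr y0 l2) ct (eA S (zt ^ (4 : ℤ)) a2) (eB S (zt ^ (-4 : ℤ)) b2) (ug EL EU (1, -1) ζ)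

/-- the sum of the weights of a coupon is zero -/
lemma cpn0 (hN : 0 < N) (S : Finset (Fin N)) (A B : ℂ) (a2 b2 : J → ℂ) (i : ℕ) :
    ∃ c, aF (insert (clS N c0 hN i) S) A a2 c + bF (insert (clS N c0 hN i) S) B b2 c = 0 := by
  refine ⟨clF N _ c0 hN (Nat.le_add_right N (Fintype.card J)) i, ?_⟩
  rw [← upd_aF, ← upd_bF, Function.update_self, Function.update_self]
  ring

section
variable {yc : Fin N} {ct : ℤ × ℤ} {a2 b2 : J → ℂ}

/-- **No visit in the window: the amplitude is zero.** -/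
theorem envE_zero (L : LayE X N xr y0 l2 EL EU) (ht : TgE X N xr y0 l2 yc ct)
    (G : GBox EL EU N xr y0 c0 w h) (hN : 0 < N) (hyb : ∀ i < w, yc ≠ clS N c0 hN i)
    {S : Finset (Fin N)} (hS : ∀ i < w, clS N c0 hN i ∉ S) (hIO : In ⊆ Out)
    (hOut : ∀ e ∈ Out, BL (xr + c0) y0 w h e) {i : ℕ} (hi : i < w)
    (hu : gl (xr + c0) y0 h i h ∈ In) (hd : gl (xr + c0) y0 h i (h - 1) ∈ In)
    (hno : ∀ e, FarIn In Out ζ e → (∀ e', FarIn In Out ζ e' → e' = e) ∧
      ∃ n, lab ((nx ζ)^[n] e) ∉ Out ∧ ∀ q < n, (nx ζ)^[q] e ≠ sgc (xr + c0) y0 h i) :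
    AE X N xr y0 l2 ct a2 b2 EL EU (insert (clS N c0 hN i) S) ζ = 0 := by
  have R := famR L
  unfold AE
  rcases tgtF_cases R.F ct (PE N yc) ht.hem with hz | ⟨y, u, hP, hy, -, hct⟩
  · rw [← AG_F L]
    exact hz _ _ _ (cpn0 hN S _ _ a2 b2 i)
  by_cases hm : Meets X
  · obtain ⟨ρ0, m, hR⟩ := RootP.exists hm
    have dflt : TI X := ρ0.1
    have V := world_F R (LE_box L G) (LE_bxF L G) hN dflt ρ0 ρ0
    have key := V.win_zero (LE_sg L G dflt ζ) hIO hOut
      (hP.ne hN R.le G.c1 G.c2 hyb) over_zt (ξ := zt ^ (2 : ℤ))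
      (by rw [← zpow_natCast, ← zpow_mul]; norm_num)
      (fun k hk => aF_cl (a2 := a2) (b2 := b2) hN (hS k hk))
      (aw_F R (LE_box L G) dflt hN hy hR ρ0 ρ0 (ug EL EU (1, -1) ζ) (aF S (zt ^ (4 : ℤ)) a2)
        (bF S (zt ^ (-4 : ℤ)) b2) hct) hi hu hd hno
    rw [upd_aF, upd_bF, AG_F L] at key
    exact key
  · rw [← AG_F L, hct, AG_no R.F hy (fun h => hm (meets_subF R.F h)), mul_zero]

/-- **Two configurations which agree off the window.** -/
theorem envE_two (L : LayE X N xr y0 l2 EL EU) (ht : TgE X N xr y0 l2 yc ct)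
    (G : GBox EL EU N xr y0 c0 w h) (hN : 0 < N) (hyb : ∀ i < w, yc ≠ clS N c0 hN i)
    {S : Finset (Fin N)} (hS : ∀ i < w, clS N c0 hN i ∉ S) (hIO : In ⊆ Out)
    (hOut : ∀ e ∈ Out, BL (xr + c0) y0 w h e) (hag : ∀ e, e ∉ In → (e ∈ ζ ↔ e ∈ ζ')) {e : ℤ × ℤ}
    (uniq : ∀ e', FarIn In Out ζ e' → e' = e) {i i' : ℕ} (hi : i < w) (hi' : i' < w)
    (hu : gl (xr + c0) y0 h i h ∈ In) (hd : gl (xr + c0) y0 h i (h - 1) ∈ In)
    (hu' : gl (xr + c0) y0 h i' h ∈ In) (hd' : gl (xr + c0) y0 h i' (h - 1) ∈ In)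
    {q q' : ℕ} (hq : ∀ j ≤ q, lab ((nx ζ)^[j] e) ∈ Out) (eq : (nx ζ)^[q] e = sgc (xr + c0) y0 h i)
    (hq' : ∀ j ≤ q', lab ((nx ζ')^[j] e) ∈ Out) (eq' : (nx ζ')^[q'] e = sgc (xr + c0) y0 h i') :
    zt ^ (-2 * ∑ j ∈ range q, del ζ ((nx ζ)^[j] e)) *
        AE X N xr y0 l2 ct a2 b2 EL EU (insert (clS N c0 hN i) S) ζ =
      zt ^ (-2 * ∑ j ∈ range q', del ζ' ((nx ζ')^[j] e)) *
        AE X N xr y0 l2 ct a2 b2 EL EU (insert (clS N c0 hN i') S) ζ' := by
  have R := famR L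
  unfold AE
  rcases tgtF_cases R.F ct (PE N yc) ht.hem with hz | ⟨y, u, hP, hy, -, hct⟩
  · rw [← AG_F L, ← AG_F L, hz _ _ _ (cpn0 hN S _ _ a2 b2 i), hz _ _ _ (cpn0 hN S _ _ a2 b2 i'),
      mul_zero, mul_zero]
  by_cases hm : Meets X
  · obtain ⟨ρ0, m, hR⟩ := RootP.exists hm
    have dflt : TI X := ρ0.1
    have V := world_F R (LE_box L G) (LE_bxF L G) hN dflt ρ0 ρ0
    have key := V.win_two (LE_sg L G dflt ζ) (LE_sg L G dflt ζ')
      (LE_ag L G dflt R.F image_lbF hag fun e he => hOut e (hIO he)) hIO hOut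
      (hP.ne hN R.le G.c1 G.c2 hyb) over_zt (ξ := zt ^ (2 : ℤ))
      (by rw [← zpow_natCast, ← zpow_mul]; norm_num)
      (fun k hk => aF_cl (a2 := a2) (b2 := b2) hN (hS k hk))
      (aw_F R (LE_box L G) dflt hN hy hR ρ0 ρ0 (ug EL EU (1, -1) ζ) (aF S (zt ^ (4 : ℤ)) a2)
        (bF S (zt ^ (-4 : ℤ)) b2) hct)
      (aw_F R (LE_box L G) dflt hN hy hR ρ0 ρ0 (ug EL EU (1, -1) ζ') (aF S (zt ^ (4 : ℤ)) a2)
        (bF S (zt ^ (-4 : ℤ)) b2) hct) uniq hi hi' hu hd hu' hd' hq eq hq' eq'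
    rw [upd_aF, upd_bF, AG_F L, upd_aF, upd_bF, AG_F L, ← zpow_mul, ← zpow_mul] at key
    convert key using 3 <;> ring
  · have hno : ∀ ω : Finset (ℤ × ℤ), ¬ Meets (X.freeze (univ.image (lbF N xr y0 l2)) ω) :=
      fun ω h => hm (meets_subF R.F h)
    rw [← AG_F L, ← AG_F L, hct, hct, AG_no R.F hy (hno _), AG_no R.F hy (hno _)]
    ring

end

end

end Pool.Agent.H69.W
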