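import Mathlib
import Pool.Agent.H69.W.EnvE
import Pool.Agent.H69.M6b.F1d

set_option autoImplicit false
set_option linter.unusedSectionVars false
set_option linter.unusedVariables false
open Finset

/-! # The first crossing of the strand of a window, for a row with extra tiles -/

namespace Pool.Agent.H69.W

open Pool.Agent.H75.Perc Pool.Agent.H75.TwoArm Pool.Agent.Q1 Pool.Agent.H81.G1
open Pool.Agent.H69.M6b Pool.Agent.H69.M6b.World
open Pool.Agent.H30.Mid (RS rl mem_RS ug mem_ug cA cB)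
open Pool.Agent.H30.W (Fam AG gp gcr AG_eq LayE lbE eA eB XS image_lbE)
open Pool.Agent.Q1.M6b.Gl (gE tr mem_tr)
open Pool.Agent.Q1.M6b.Gd

section
variable {X : Env} {N : ℕ} {J : Type*} [Fintype J] [DecidableEq J] {xr y0 k : ℤ} {l2 : J → ℤ × ℤ}
  {EL EU : Finset (ℤ × ℤ)} {yc : Fin N} {ct : ℤ × ℤ} {a2 b2 : J → ℂ}
  {cr : ℤ → ℤ × ℤ} {cz : ℤ → ℤ} {I : Finset ℤ} {In Out ω ζ ζ' η η' : Finset (ℤ × ℤ)} {hN : 0 < N}
  {c0 w h : ℕ} {x x' : ℤ} {S : Finset (Fin N)} {c c' : Fin N}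

/-- the column of `x` -/
lemma WG_at (W : WG EL EU N xr y0 k yc cr cz I In Out hN c0 w h) (hx : x ∈ I)
    (hc : ((c : Fin N) : ℤ) - k = cz x) : ∃ i < w, c = clS N c0 hN i ∧
      gl (xr + c0) y0 h i h ∈ In ∧ gl (xr + c0) y0 h i (h - 1) ∈ In ∧ cr x = sgc (xr + c0) y0 h i := by
  obtain ⟨i, hi, h1, h2, h3, h4⟩ := W.col x hx
  refine ⟨i, hi, Fin.ext ?_, h2, h3, h4⟩
  have : ((c : ℕ) : ℤ) = ((clS N c0 hN i : Fin N) : ℤ) := by linarith
  exact_mod_cast this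

/-- **(W1)** -/
theorem wE_zero (L : LayE X N xr y0 l2 EL EU) (ht : TgE X N xr y0 l2 yc ct)
    (W : WG EL EU N xr y0 k yc cr cz I In Out hN c0 w h) (hS : ∀ i < w, clS N c0 hN i ∉ S)
    (uniq : ∀ a a', FarIn In Out ω a → FarIn In Out ω a' → a = a') (hx : x ∈ I) (hη : η ⊆ In)
    (hζ : Loc In Out ω η ζ) (hc : ((c : Fin N) : ℤ) - k = cz x) (h0 : hW cr In Out ω x η = 0) :
    AE X N xr y0 l2 ct a2 b2 EL EU (insert c S) ζ = 0 := by
  obtain ⟨i, hi, rfl, hu, hd, hcr⟩ := WG_at W hx hc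
  refine envE_zero L ht W.G hN W.mark hS W.io W.ob hi hu hd ?_
  intro e he
  have he' := (hζ.far hη).1 he
  have hu' : ∀ a', FarIn In Out ω a' → a' = e := fun a' h' => uniq a' e h' he'
  refine ⟨fun e' h' => uniq e' e ((hζ.far hη).1 h') he', ?_⟩
  have hex := exit_ex ((far_mod (ω := ω) (Out := Out) hη).2 he')
  obtain ⟨n, -, hn⟩ := hex
  obtain ⟨h1, h2, -, -⟩ := pth_congr (ζ' := ζ) (c := cr x) ⟨n, hn⟩ hζ
  obtain ⟨g1, g2⟩ := xt_far ((far_mod (ω := ω) (Out := Out) hη).2 he')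
  refine ⟨xt Out (ω \ In ∪ η) e, by rw [h2 _ le_rfl]; exact g1, ?_⟩
  intro q hq hh
  rw [h2 q hq.le, ← hcr] at hh
  rw [hW_hit he' hu' hη hq hh] at h0
  exact zpow_ne_zero _ zt_ne h0

/-- **(W2)** -/
theorem wE_two (L : LayE X N xr y0 l2 EL EU) (ht : TgE X N xr y0 l2 yc ct)
    (W : WG EL EU N xr y0 k yc cr cz I In Out hN c0 w h) (hS : ∀ i < w, clS N c0 hN i ∉ S)
    (uniq : ∀ a a', FarIn In Out ω a → FarIn In Out ω a' → a = a') (hx : x ∈ I) (hx' : x' ∈ I)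
    (hη : η ⊆ In) (hη' : η' ⊆ In) (hζ : Loc In Out ω η ζ) (hζ' : Loc In Out ω η' ζ')
    (hag : ∀ e, e ∉ In → (e ∈ ζ ↔ e ∈ ζ')) (hc : ((c : Fin N) : ℤ) - k = cz x)
    (hc' : ((c' : Fin N) : ℤ) - k = cz x') :
    AE X N xr y0 l2 ct a2 b2 EL EU (insert c S) ζ * hW cr In Out ω x' η' =
      AE X N xr y0 l2 ct a2 b2 EL EU (insert c' S) ζ' * hW cr In Out ω x η := by
  by_cases z1 : hW cr In Out ω x η = 0
  · rw [wE_zero L ht W hS uniq hx hη hζ hc z1, z1, zero_mul, mul_zero]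
  by_cases z2 : hW cr In Out ω x' η' = 0
  · rw [wE_zero L ht W hS uniq hx' hη' hζ' hc' z2, z2, zero_mul, mul_zero]
  have hex : ∃ a, FarIn In Out ω a := by
    by_contra hc
    exact z1 (hW_none hc)
  obtain ⟨a, hf⟩ := hex
  have hu : ∀ a', FarIn In Out ω a' → a' = a := fun a' h' => uniq a' a h' hf
  have p1 : pth Out (ω \ In ∪ η) a (cr x) ≠ 0 := by
    intro h2
    rw [hW_eq hf hu, h2, map_zero] at z1
    exact z1 rfl
  have p2 : pth Out (ω \ In ∪ η') a (cr x') ≠ 0 := by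
    intro h2
    rw [hW_eq hf hu, h2, map_zero] at z2
    exact z2 rfl
  obtain ⟨q, hq, e⟩ := pth_ne (h := p1)
  obtain ⟨q', hq', e'⟩ := pth_ne (h := p2)
  rw [hW_hit hf hu hη hq e, hW_hit hf hu hη' hq' e']
  obtain ⟨i, hi, rfl, hu1, hd1, hcr1⟩ := WG_at W hx hc
  obtain ⟨i', hi', rfl, hu2, hd2, hcr2⟩ := WG_at W hx' hc'
  have g := xt_far ((far_mod (ω := ω) (Out := Out) hη).2 hf)
  have g' := xt_far ((far_mod (ω := ω) (Out := Out) hη').2 hf)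
  obtain ⟨h1, h2, h3, -⟩ := pth_congr (ζ' := ζ) (c := cr x) ⟨_, g.1⟩ hζ
  obtain ⟨h1', h2', h3', -⟩ := pth_congr (ζ' := ζ') (c := cr x') ⟨_, g'.1⟩ hζ'
  have key := envE_two (a2 := a2) (b2 := b2) L ht W.G hN W.mark hS W.io W.ob hag (e := a)
    (fun e' h' => hu e' ((hζ.far hη).1 h')) hi hi' hu1 hd1 hu2 hd2
    (q := q) (q' := q')
    (fun j hj => by rw [h2 j (by omega)]; exact g.2 j (by omega))
    (by rw [h2 q hq.le, e, hcr1])
    (fun j hj => by rw [h2' j (by omega)]; exact g'.2 j (by omega))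
    (by rw [h2' q' hq'.le, e', hcr2])
  rw [h3 q hq.le, h3' q' hq'.le] at key
  set t := ∑ j ∈ range q, del (ω \ In ∪ η) ((nx (ω \ In ∪ η))^[j] a)
  set t' := ∑ j ∈ range q', del (ω \ In ∪ η') ((nx (ω \ In ∪ η'))^[j] a)
  have h0 := zt_ne
  have z3 : zt ^ (2 * (ty a + t')) = zt ^ (2 * (ty a + t + t')) * zt ^ (-2 * t) := by
    rw [← zpow_add₀ h0]; congr 1; ring
  have z4 : zt ^ (2 * (ty a + t)) = zt ^ (2 * (ty a + t + t')) * zt ^ (-2 * t') := by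
    rw [← zpow_add₀ h0]; congr 1; ring
  rw [z3, z4]
  linear_combination zt ^ (2 * (ty a + t + t')) * key

/-- **The first crossing of the strand of a window of the row.** -/
theorem envE_first (L : LayE X N xr y0 l2 EL EU) (ht : TgE X N xr y0 l2 yc ct)
    (W : WG EL EU N xr y0 k yc cr cz I In Out hN c0 w h) (hS : ∀ i < w, clS N c0 hN i ∉ S)
    (uniq : ∀ a a', FarIn In Out ω a → FarIn In Out ω a' → a = a') (hx : x ∈ I) (hη : η ⊆ In)
    (hζ : Loc In Out ω η ζ) (hc : ((c : Fin N) : ℤ) - k = cz x)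
    (hne : AE X N xr y0 l2 ct a2 b2 EL EU (insert c S) ζ ≠ 0) :
    ∃ e : Bool, ∃ x1 < w, (∃ (dflt : TI X) (ρ : TI X × Dir),
        World.NearP (netS X ρ ρ) (stt lbS pS (ug EL EU (1, -1) ζ)) (τF (famR L).F)
          (TS X dflt (xr + c0) y0 h) w h (clF N _ c0 hN (famR L).le)
          (Isf (TS X dflt (xr + c0) y0 h) w h (xr + c0) y0 In) e x1) ∧
      (∀ z, FarIn In Out ζ z → Con ζ (gE EL EU (1, -1)) z
        (sm true y0 (xr - y0 + 1 + ((clS N c0 hN x1 : Fin N) : ℕ)))) ∧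
      ∀ S' : Finset (Fin N), (∀ i < w, clS N c0 hN i ∉ S') →
        ‖AE X N xr y0 l2 ct a2 b2 EL EU (insert c S') ζ‖ =
          ‖AE X N xr y0 l2 ct a2 b2 EL EU (insert (clS N c0 hN x1) S') ζ‖ := by
  have R := famR L
  obtain ⟨i, hi, rfl, hu, hd, hcr⟩ := WG_at W hx hc
  unfold AE at hne
  rcases tgtF_cases R.F ct (PE N yc) ht.hem with hz | ⟨y, u, hP, hy, hun1, hct⟩
  · exfalso
    rw [← AG_F L] at hne
    exact hne (hz _ _ _ (cpn0 hN S _ _ a2 b2 i))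
  by_cases hm : Meets (X.freeze (univ.image (lbF N xr y0 l2)) (ug EL EU (1, -1) ζ))
  swap
  · exfalso
    rw [← AG_F L, hct, AG_no R.F hy hm, mul_zero] at hne
    exact hne rfl
  obtain ⟨ρ0, m, hR⟩ := RootP.exists (meets_subF R.F hm)
  have dflt : TI X := ρ0.1
  have V := world_F R (LE_box L W.G) (LE_bxF L W.G) hN dflt ρ0 ρ0
  have hF := fzF R.F (ug EL EU (1, -1) ζ)
  have Rn := netF R.F hm y
  have hI := ind_env hF Rn ρ0 ρ0
  have hnc : ∀ i < w, ρ0.1 ≠ τF R.F (clF N _ c0 hN R.le i) := by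
    intro i hi
    rw [clF, R.τ (LE_box L W.G).row]
    exact root_nc (LE_box L W.G) hN hR i hi
  have hRt : World.Rt (netS X ρ0 ρ0) (stt lbS pS (ug EL EU (1, -1) ζ)) (τF R.F) w h
      (clF N _ c0 hN R.le) (TS X dflt (xr + c0) y0 h) (net (R.F.tiles _) hm y) ρ0 _ :=
    ⟨root_nb (LE_box L W.G) dflt hR, hnc, root_pr hF rfl Rn hR ρ0 ρ0⟩
  have eA : ∀ (S' : Finset (Fin N)) (j : ℕ),
      AE X N xr y0 l2 ct a2 b2 EL EU (insert (clS N c0 hN j) S') ζ =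
      cpn (net (R.F.tiles _) hm y) (fun k => phF X (lbF N xr y0 l2) y m u (k +
        (dsh (X.freeze (univ.image (lbF N xr y0 l2)) (ug EL EU (1, -1) ζ))
          (rn0 (X.freeze (univ.image (lbF N xr y0 l2)) (ug EL EU (1, -1) ζ))) - dsh X m)))
        (aF S' (zt ^ (4 : ℤ)) a2) (bF S' (zt ^ (-4 : ℤ)) b2) (clF N _ c0 hN R.le j) := by
    intro S' j
    unfold AE cpn
    rw [← AG_F L, hct, upd_aF, upd_bF]
    refine AG_at R.F hy hm m u (c := clF N _ c0 hN R.le j) ?_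
    rw [← upd_aF, ← upd_bF, Function.update_self, Function.update_self]; ring
  have hξ : (zt ^ (2 : ℤ)) ^ 2 = zt ^ (4 : ℤ) := by rw [← zpow_natCast, ← zpow_mul]; norm_num
  have hun : ∀ e e', FarIn In Out ζ e → FarIn In Out ζ e' → e = e' := fun e e' h1 h2 =>
    uniq e e' ((hζ.far hη).1 h1) ((hζ.far hη).1 h2)
  have hne' : AE X N xr y0 l2 ct a2 b2 EL EU (insert (clS N c0 hN i) S) ζ ≠ 0 := hne
  rw [eA] at hne'
  obtain ⟨e, x1, hx1, h1, h3, h2⟩ := V.win_first' (LE_sg L W.G dflt ζ) W.ob hun hI hRt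
    (hP.ne hN R.le W.G.c1 W.G.c2 W.mark) over_zt hξ
    (fun k hk => aF_cl (a2 := a2) (b2 := b2) hN (hS k hk)) hi hu hd hne'
  have hsub : {e | BL (xr + c0) y0 w h e} ⊆ (gE EL EU (1, -1) : Set (ℤ × ℤ)) := by
    rintro e ⟨i, hi, j, hj, rfl⟩
    have := W.G.box i j (by omega) (by omega) (by omega) (by omega)
    exact this
  have ev : ((clS N c0 hN x1 : Fin N) : ℕ) = c0 + x1 := by
    have := W.G.c2
    unfold clS
    simp only
    exact Nat.mod_eq_of_lt (by omega)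
  refine ⟨e, x1, hx1, ⟨dflt, ρ0, h1⟩, fun z hz => ?_, fun S' hS' => ?_⟩
  · have h4 := h3 z hz
    rw [sgc_eq] at h4
    have h5 : xr + c0 + (x1 : ℤ) - y0 + 1 = xr - y0 + 1 + ((clS N c0 hN x1 : Fin N) : ℕ) := by
      rw [ev]; push_cast; ring
    rw [h5] at h4
    rcases h4 with ⟨n, g1, g2⟩ | ⟨n, g1, g2⟩
    · exact Or.inl ⟨n, g1, fun t ht => hsub (g2 t ht)⟩
    · exact Or.inr ⟨n, g1, fun t ht => hsub (g2 t ht)⟩
  rw [eA, eA]
  exact h2 over_zt hξ (by rw [norm_zpow, zt_norm, one_zpow])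
    (fun k hk => aF_cl (a2 := a2) (b2 := b2) hN (hS' k hk)) _

end

end Pool.Agent.H69.W
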