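import Mathlib
import Pool.Agent.H69.W.FirstE
import Pool.Agent.H81.W.AmpA
import Pool.Agent.H81.W.WrZ

set_option autoImplicit false
set_option linter.unusedSectionVars false
set_option linter.unusedVariables false
open Finset

/-! # The family of the amplitudes of a row with extra tiles

`wfam_E` : the amplitudes `AE` satisfy the relations of the windows (`WFam`), with the wires `WrZ`. -/

namespace Pool.Agent.H69.W

open Pool.Agent.H75.Perc Pool.Agent.H75.TwoArm Pool.Agent.Q1 Pool.Agent.H81.G1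
open Pool.Agent.H69.M6b Pool.Agent.H69.M6b.World
open Pool.Agent.H30.Mid (RS rl mem_RS ug mem_ug cA cB UW us uf)
open Pool.Agent.H30.W (Fam AG gp gcr AG_eq LayE lbE eA eB XS image_lbE WK z0 zr0)
open Pool.Agent.H81.W (WFam NearW WrZ)
open Pool.Agent.Q1.M6b.Gl (gE tr mem_tr)
open Pool.Agent.Q1.M6b.Gd

section
variable {X : Env} {N : ℕ} {J : Type*} [Fintype J] [DecidableEq J] {xr y0 k : ℤ} {l2 : J → ℤ × ℤ}
  {EL EU : Finset (ℤ × ℤ)} {yc : Fin N} {ct : ℤ × ℤ} {a2 b2 : J → ℂ} {ζ In : Finset (ℤ × ℤ)}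
  {hN : 0 < N} {c0 w h : ℕ}

/-- wires between neighbours -/
lemma netS_nb (x y : TI X × Dir) {e : ℤ × ℤ} (he : e ∈ X.E) (d : Dir) (hd : nb e d ∈ X.E) :
    (netS X x y).π (⟨e, he⟩, d) = (⟨nb e d, hd⟩, opp d) := by
  cases d
  · obtain ⟨e1, -, -⟩ := adjE x y hd he (by unfold nb; simp)
    rw [← e1, netS_inv]; rfl
  · exact (adjN x y he hd rfl).1
  · exact (adjE x y he hd rfl).1
  · obtain ⟨e1, -, -⟩ := adjN x y hd he (by unfold nb; simp)
    rw [← e1, netS_inv]; rfl

/-- all the neighbours of a tile of the box are random -/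
lemma nb_box (B : BoxIn X N xr y0 c0 w h) {i j : ℕ} (hi : i < w) (hj : j < 2 * h) (d : Dir) :
    nb (tl (xr + c0) y0 h i j) d ∈ X.E := by
  have h0 := B.h0
  have w0 := B.w0
  have c1 := B.c1
  have c2 := B.c2
  have hrow : lbt (xr + c0 + i) y0 ∈ X.E := by
    have := B.row ⟨c0 + i, by omega⟩
    simp only at this
    push_cast at this
    rwa [← add_assoc] at this
  cases d
  · have := B.box ((i : ℤ) - 1) j (by omega) (by omega) (by omega) (by omega)
    convert this using 1
    unfold nb tl lbt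
    refine Prod.ext ?_ ?_ <;> simp only <;> ring
  · by_cases hjh : (j : ℤ) + 1 = h
    · convert hrow using 1
      unfold nb tl lbt hgt
      rw [if_pos (by omega)]
      refine Prod.ext ?_ ?_ <;> simp only <;> omega
    · have := B.box i ((j : ℤ) + 1) (by omega) (by omega) (by omega) (by omega)
      convert this using 1
      unfold nb tl lbt hgt
      split_ifs <;> refine Prod.ext ?_ ?_ <;> simp only <;> omega
  · have := B.box ((i : ℤ) + 1) j (by omega) (by omega) (by omega) (by omega)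
    convert this using 1
    unfold nb tl lbt
    refine Prod.ext ?_ ?_ <;> simp only <;> ring
  · by_cases hjh : (j : ℤ) = h
    · convert hrow using 1
      unfold nb tl lbt hgt
      rw [if_neg (by omega)]
      refine Prod.ext ?_ ?_ <;> simp only <;> omega
    · have := B.box i ((j : ℤ) - 1) (by omega) (by omega) (by omega) (by omega)
      convert this using 1
      unfold nb tl lbt hgt
      split_ifs <;> refine Prod.ext ?_ ?_ <;> simp only <;> omega

/-- the position `v` of the plane is the position `z` of the environment -/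
def RelP (z : TI X × Dir) (v : (ℤ × ℤ) × Dir) : Prop := z.1.1 = lbt v.1.1 v.1.2 ∧ z.2 = v.2

lemma UW_nb (u : ℤ × ℤ) (d : Dir) :
    nb (lbt u.1 u.2) d = lbt (UW (u, d)).1.1 (UW (u, d)).1.2 ∧ (UW (u, d)).2 = opp d := by
  refine ⟨?_, by cases d <;> rfl⟩
  cases d <;> unfold UW nb lbt <;> simp only <;>
    refine Prod.ext ?_ ?_ <;> simp only <;> ring

/-- one step in the box -/
lemma RelP.step {ω : Finset (ℤ × ℤ)} {z : TI X × Dir} {v : (ℤ × ℤ) × Dir} (x y : TI X × Dir)
    (hr : RelP z v) (hn : ∀ d, nb z.1.1 d ∈ X.E) :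
    RelP ((netS X x y).step (stt lbS pS ω) z) (uf ω v) := by
  obtain ⟨⟨e, he⟩, d⟩ := z
  obtain ⟨u, d'⟩ := v
  obtain ⟨h1, h2⟩ := hr
  simp only at h1 h2
  subst h2
  subst h1
  have hs : stt lbS pS ω (⟨lbt u.1 u.2, he⟩ : TI X) = us ω u := rfl
  have e1 : (netS X x y).step (stt lbS pS ω) (⟨lbt u.1 u.2, he⟩, d) =
      (netS X x y).π (⟨lbt u.1 u.2, he⟩, Dir.mate (us ω u) d) := by
    unfold Net.step
    simp only [hs]
  rw [e1, netS_nb x y he _ (hn _)]
  obtain ⟨g1, g2⟩ := UW_nb u (Dir.mate (us ω u) d)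
  exact ⟨g1, g2.symm⟩

/-- **The arcs of the box are walks of the plane.** -/
lemma pth_wrz (L : LayE X N xr y0 l2 EL EU) (G : GBox EL EU N xr y0 c0 w h) (dflt : TI X)
    (ρ : TI X × Dir) {e : Bool} {c c' : ℕ} (hc : c < w) (hc' : c' < w)
    (hp : World.PthE (netS X ρ ρ) (stt lbS pS (ug EL EU (1, -1) ζ)) (τF (famR L).F) w h
      (clF N _ c0 hN (famR L).le) (TS X dflt (xr + c0) y0 h) e c c') :
    WrZ xr y0 EL EU ζ e (clS N c0 hN c) (clS N c0 hN c') := by
  have hh := G.h0
  have c2 := G.c2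
  have B := LE_box L G
  have clv : ∀ i < w, ((clS N c0 hN i : Fin N) : ℕ) = c0 + i := by
    intro i hi
    unfold clS
    simp only
    exact Nat.mod_eq_of_lt (by omega)
  obtain ⟨t, n, h1, h2, -⟩ := hp
  have hT : ∀ i < w, ∀ j < 2 * h, (TS X dflt (xr + c0) y0 h i j).1 = tl (xr + c0) y0 h i j := by
    intro i hi j hj
    rw [TS_eq (B.box i j (by omega) (by omega) (by omega) (by omega))]
  have hstart : RelP (psn (TS X dflt (xr + c0) y0 h) h c e) (z0 xr y0 e (clS N c0 hN c : ℕ)) := by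
    rw [clv c hc]
    unfold psn z0
    cases e
    · simp only [Bool.false_eq_true, if_false]
      refine ⟨?_, rfl⟩
      simp only
      rw [hT c hc (h - 1) (by omega)]
      unfold tl hgt
      rw [if_pos (by omega)]
      congr 1
      · push_cast; ring
      · omega
    · simp only [if_true]
      refine ⟨?_, rfl⟩
      simp only
      rw [hT c hc h (by omega)]
      unfold tl hgt
      rw [if_neg (by omega)]
      congr 1
      · push_cast; ring
      · ring
  -- the tiles of the path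
  have htile : ∀ i < n, ∃ i' < w, ∃ j' < 2 * h, (e = true ↔ h ≤ j') ∧
      (((netS X ρ ρ).step (stt lbS pS (ug EL EU (1, -1) ζ)))^[i]
        (psn (TS X dflt (xr + c0) y0 h) h c e)).1 = TS X dflt (xr + c0) y0 h i' j' := by
    intro i hi
    obtain ⟨i', hi', j', -, hj', e1⟩ := h2 i hi
    cases e
    · exact ⟨i', hi', j', by omega, by simp; omega, e1⟩
    · exact ⟨i', hi', h + j', by omega, by simp, e1⟩
  have key : ∀ i ≤ n, RelP (((netS X ρ ρ).step (stt lbS pS (ug EL EU (1, -1) ζ)))^[i]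
      (psn (TS X dflt (xr + c0) y0 h) h c e))
      ((uf (ug EL EU (1, -1) ζ))^[i] (z0 xr y0 e (clS N c0 hN c : ℕ))) := by
    intro i
    induction i with
    | zero => intro _; exact hstart
    | succ i ih =>
      intro hi
      rw [Function.iterate_succ_apply', Function.iterate_succ_apply']
      refine (ih (by omega)).step ρ ρ ?_
      intro d
      obtain ⟨i', hi', j', hj', -, e1⟩ := htile i (by omega)
      rw [e1, hT i' hi' j' hj']
      exact nb_box B hi' hj' d
  refine ⟨n, ?_, ?_⟩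
  · have h3 := key n le_rfl
    rw [h1] at h3
    obtain ⟨g1, g2⟩ := h3
    have g3 : (τF (famR L).F (clF N _ c0 hN (famR L).le c')).1 = lbt (xr + ((c0 + c' : ℕ) : ℤ)) y0 := by
      rw [clF, (famR L).τ B.row]
      change lbt (xr + ((clS N c0 hN c' : Fin N) : ℕ)) y0 = _
      rw [clv c' hc']
    simp only at g1 g2
    rw [g3] at g1
    obtain ⟨g4, g5⟩ := lbt_inj g1
    have g6 : (uf (ug EL EU (1, -1) ζ))^[n] (z0 xr y0 e (clS N c0 hN c : ℕ)) =
        ((xr + ((c0 + c' : ℕ) : ℤ), y0), sd e) := Prod.ext (Prod.ext g4.symm g5.symm) g2.symm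
    rw [g6, clv c' hc']
    unfold zr0 sd
    cases e <;> rfl
  · intro i hi
    obtain ⟨i', hi', j', hj', he, e1⟩ := htile i hi
    have h3 := key i hi.le
    obtain ⟨g1, -⟩ := h3
    rw [e1, hT i' hi' j' hj'] at g1
    rw [← g1]
    obtain ⟨k1, k2⟩ := LE_tl L G (i := i') (j := j') (by omega) (by omega) (by omega) (by omega)
    cases e
    · simp only [Bool.false_eq_true, if_false]
      refine k1 ?_
      by_contra hcon
      have := he.2 (by omega)
      simp at this
    · simp only [if_true]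
      refine k2 ?_
      have := he.1 rfl
      omega

/-- the near property of the window -/
lemma near_wrz (L : LayE X N xr y0 l2 EL EU) (G : GBox EL EU N xr y0 c0 w h) (dflt : TI X)
    (ρ : TI X × Dir) {e : Bool} {x1 : ℕ}
    (hp : World.NearP (netS X ρ ρ) (stt lbS pS (ug EL EU (1, -1) ζ)) (τF (famR L).F)
      (TS X dflt (xr + c0) y0 h) w h (clF N _ c0 hN (famR L).le)
      (Isf (TS X dflt (xr + c0) y0 h) w h (xr + c0) y0 In) e x1) :
    NearW (xr + c0) y0 h w (clS N c0 hN) In (WrZ xr y0 EL EU ζ) e x1 := by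
  have hh := G.h0
  obtain ⟨S, hS, hc⟩ := hp
  refine ⟨S, hS, fun c hcw hg hcS => ?_⟩
  have hI : Isf (TS X dflt (xr + c0) y0 h) w h (xr + c0) y0 In
      (ts (TS X dflt (xr + c0) y0 h) h e c) := by
    cases e
    · exact ⟨c, hcw, h - 1, by omega, rfl, by simpa using hg⟩
    · exact ⟨c, hcw, h, by omega, rfl, by simpa using hg⟩
  obtain ⟨c', hc', h1, h2, h3⟩ := hc c hcw hI hcS
  exact ⟨c', hc', pth_wrz L G dflt ρ hcw hc' h1, h2, h3⟩

/-- the target condition from the first random label `l2 j` on the path of `ct` -/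
lemma TgE.of {n0 : ℕ} {j : J} (h1 : ∀ i < n0, lab (X.out^[i] ct) ∉ X.E)
    (h2 : lab (X.out^[n0] ct) = l2 j) (hj : l2 j ∈ X.E) : TgE X N xr y0 l2 yc ct := by
  intro n g1 g2
  rcases lt_trichotomy n n0 with h | h | h
  · exact absurd g2 (h1 n h)
  · subst h; exact Or.inl ⟨j, h2.symm⟩
  · exact absurd (by rw [h2]; exact hj) (g1 n0 h)

/-- the target condition if the path of `ct` meets no random label -/
lemma TgE.none (h1 : ∀ n, lab (X.out^[n] ct) ∉ X.E) : TgE X N xr y0 l2 yc ct :=
  fun n _ g2 => absurd g2 (h1 n)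

/-- **The target condition after freezing labels**: `l2 j` is the first random label of `X` on the path
of `ct`, and it stays random. -/
lemma TgE.freeze {E' t : Finset (ℤ × ℤ)} {n0 : ℕ} {j : J} (h1 : ∀ i < n0, lab (X.out^[i] ct) ∉ X.E)
    (h2 : lab (X.out^[n0] ct) = l2 j) (hj : l2 j ∈ X.E) (hj' : l2 j ∈ E') :
    TgE (X.freeze E' t) N xr y0 l2 yc ct := by
  have key : ∀ i ≤ n0, (X.freeze E' t).out^[i] ct = X.out^[i] ct := by
    intro i
    induction i with
    | zero => intro _; rfl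
    | succ i ih =>
      intro hi
      rw [Function.iterate_succ_apply', Function.iterate_succ_apply', ih (by omega)]
      change (if lab (X.out^[i] ct) ∈ X.E then nx t (X.out^[i] ct) else X.out (X.out^[i] ct)) = _
      rw [if_neg (h1 i (by omega))]
  refine TgE.of (n0 := n0) (j := j) ?_ ?_ ?_
  · intro i hi
    rw [key i hi.le, Env.freeze_E, mem_inter]
    exact fun h => h1 i hi h.1
  · rw [key n0 le_rfl]; exact h2
  · rw [Env.freeze_E, mem_inter]; exact ⟨hj, hj'⟩

/-- **The amplitudes of a row with extra tiles satisfy the relations of the windows.** -/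
theorem wfam_E (L : LayE X N xr y0 l2 EL EU) (ht : TgE X N xr y0 l2 yc ct) (a2 b2 : J → ℂ) :
    WFam EL EU N xr y0 yc (AE X N xr y0 l2 ct a2 b2 EL EU) (WrZ xr y0 EL EU) := by
  refine ⟨?_, ?_, ?_⟩
  · intro k cr cz I In Out ω ζ η hN c0 w h x S c W hS uniq hx hη hζ hc h0
    exact wE_zero L ht W hS uniq hx hη hζ hc h0
  · intro k cr cz I In Out ω ζ ζ' η η' hN c0 w h x x' S c c' W hS uniq hx hx' hη hη' hζ hζ' hag hc hc'
    exact wE_two L ht W hS uniq hx hx' hη hη' hζ hζ' hag hc hc'
  · intro k cr cz I In Out ω ζ η hN c0 w h x S c W hS uniq hx hη hζ hc hne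
    obtain ⟨e, x1, hx1, ⟨dflt, ρ, h1⟩, h2, h3⟩ := envE_first L ht W hS uniq hx hη hζ hc hne
    exact ⟨e, x1, hx1, near_wrz L W.G dflt ρ h1, h2, h3⟩

end

end Pool.Agent.H69.W
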