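import Mathlib
import Pool.Agent.H32.W.AbInc
import Pool.Agent.H76.W.SlitZ
import Pool.Agent.H76.W.GTie

set_option autoImplicit false
open Finset Metric

/-! # The weights of a row with a string, for the Taylor coefficients -/

namespace Pool.Agent.H69.W

open Pool.Agent.H75.Perc hiding AR VV
open Pool.Agent.H75.TwoArm hiding EF
open Pool.Agent.Q1
open Pool.Agent.H33.Q1 (lt tt lt_inj tt_lt)
open Pool.Agent.H40.R45 (aT bT aT_diff bT_diff kapT norm_kapT4 norm_aT norm_bT norm_lamT lamT kapT_diff)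
open Pool.Agent.Q1.M6b.ABW (cT norm_cT norm_laT norm_lcT laT lcT)
open Pool.Agent.H76.Sp (lw w3)
open Pool.Agent.H54.W Pool.Agent.H34.W Pool.Agent.H25.W
open Pool.Agent.H76.W
open Pool.Agent.H42.Sp (Ix kt rt)
open Pool.Agent.H81.G1 (zt zt_w6)
open Pool.Agent.H30.Mid (pE pE_true pE_false)
open Pool.Agent.H30.W (gp XS Slit)
open Pool.Agent.H74.R45 (exists_lt)

/-- the square root of the string weight -/
lemma w6_zt : w6 = zt ^ (4 : ℤ) := by
  rw [← zt_w6]; norm_cast

lemma w6_zt' : 1 - w6 = zt ^ (-4 : ℤ) := by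
  rw [← Pool.Agent.H40.R45.w6_inv, w6_zt, zpow_neg]

/-- **The bounds of the weights** on the ball of radius `1 / 2`. -/
theorem wts_bd {z : ℂ} (hz : z ∈ ball (0 : ℂ) (1 / 2)) :
    ‖kapT z‖ ≤ 16 * ‖z‖ ^ 1 ∧ (‖aT z‖ ≤ 4 ∧ ‖bT z‖ ≤ 4 ∧ ‖cT z‖ ≤ 4) ∧
      ‖aT z - zt ^ (4 : ℤ)‖ ≤ 16 * ‖z‖ ∧ ∀ i : Fin 3, ‖lw (w3 (aT z) (bT z) (cT z) i)‖ ≤ 16 * ‖z‖ := by
  have h0 := norm_nonneg z
  have h1 := norm_kapT4 hz
  refine ⟨by rw [pow_one]; linarith, ⟨(norm_aT hz).trans (by norm_num), norm_bT hz, norm_cT hz⟩, ?_, ?_⟩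
  · rw [← w6_zt]
    change ‖kapT z‖ ≤ _
    linarith
  · intro i
    unfold w3
    split_ifs
    · exact norm_laT hz
    · exact norm_lamT hz
    · exact norm_lcT hz

variable {D : HWin} {S : Slit D} {P : Finset Ix}

/-- the weights of the line and of the string in the tied form -/
noncomputable def qS (S : Slit D) (P : Finset Ix) (z : ℂ) : ℤ × ℤ → ℂ :=
  qTg P (opw (aS D S.τ (aT z) (bT z) (cT z) w6 S.xs (S.y0 + 1)))

/-- **The weights of a row with a string.** -/
theorem qx_qS (S : Slit D) (P : Finset Ix) (z : ℂ) : QX S P (aT z) (bT z) (cT z) (qS S P z) := by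
  refine ⟨⟨opw (aS D S.τ (aT z) (bT z) (cT z) w6 S.xs (S.y0 + 1)), ?_, fun _ _ => rfl⟩⟩
  intro e he hn
  obtain ⟨x, y, rfl⟩ := exists_lt (HWin.odd_EH he)
  rw [opw_lt, ← opw_aH, opw_lt]
  congr 1
  unfold aS str
  rw [if_neg]
  rintro ⟨h1, h2⟩
  simp only at h1 h2
  apply hn
  rw [mem_ls0]
  have h3 := ((HWin.mem_EH S.pos).1 he).z S.pos
  exact ⟨h1, by omega, by omega⟩

/-- the labels of the string are not kept tiles of caps -/
lemma ls_not_kt (hP : ∀ k ∈ P, CPH D S.τ k) (j : Fin S.M) : ∀ k ∈ P, lt (kt k) ≠ ls S j := by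
  intro k hk h
  have h1 : ls S j ∈ XS (ls S) := mem_image_of_mem _ (mem_univ _)
  rcases XS_ls.1 h1 with h2 | ⟨-, h2⟩
  · obtain ⟨i, -, hi⟩ := mem_image.1 h2
    have h3 := ls0_bul (S := S) i
    have e1 : lt ((kt k).1, (kt k).2) = ls0 S i := h.trans hi.symm
    rw [← e1, mem_BKs S.pos] at h3
    exact cap_not_bul S.pos (hP k hk) (Or.inl rfl) h3
  · have h4 : lt (kt k) = lt (S.xs, D.w) := h.trans h2
    have h5 := lt_inj h4
    have h6 := S.up
    have h7 := S.r2
    rcases cap_tiles (hP k hk) (Or.inl rfl) with h8 | ⟨-, -, h8, -⟩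
    · rw [h5] at h8
      have h9 : D.InE S.τ S.xs D.w := Or.inr h8
      have := (h9.z S.pos).2.2.2
      omega
    · rw [h5] at h8
      simp only at h8
      have h9 := S.τ_in S.s1.le (by have := S.s2; omega)
      omega

/-- **The weights of the string.** -/
theorem str_qS (hP : ∀ k ∈ P, CPH D S.τ k) (z : ℂ) :
    a2q (ls S) (qS S P z) = (fun _ => zt ^ (4 : ℤ)) ∧
      b2q (ls S) (qS S P z) = fun _ => zt ^ (-4 : ℤ) := by
  have key : ∀ j : Fin S.M, ∃ x y, ls S j = lt (x, y) ∧ qS S P z (ls S j) = Win.wal x y w6 := by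
    intro j
    have hj := j.2
    refine ⟨S.x1 + ((S.c0 : Fin S.N) : ℕ), S.y0 + S.M - (j : ℕ), rfl, ?_⟩
    unfold qS
    rw [qTg_other (ls_not_kt hP j)]
    change opw _ (lt (S.x1 + ((S.c0 : Fin S.N) : ℕ), S.y0 + S.M - (j : ℕ))) = _
    rw [opw_lt]
    congr 1
    unfold aS str
    rw [if_pos]
    simp only
    exact ⟨S.xs_eq, by omega⟩
  constructor
  · funext j
    obtain ⟨x, y, e1, e2⟩ := key j
    unfold a2q Pool.Agent.H81.G1.wA gp
    rw [e2, e1]
    unfold Win.wal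
    cases hp : pE (lt (x, y))
    · have := pE_false.1 hp
      simp only [lt] at this
      rw [if_neg (by simp), if_pos (by omega), w6_zt]
    · have := pE_true.1 hp
      simp only [lt] at this
      rw [if_pos rfl, if_neg (by omega), sub_sub_cancel, w6_zt]
  · funext j
    obtain ⟨x, y, e1, e2⟩ := key j
    unfold b2q Pool.Agent.H81.G1.wB gp
    rw [e2, e1]
    unfold Win.wal
    cases hp : pE (lt (x, y))
    · have := pE_false.1 hp
      simp only [lt] at this
      rw [if_neg (by simp), if_pos (by omega), w6_zt']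
    · have := pE_true.1 hp
      simp only [lt] at this
      rw [if_pos rfl, if_neg (by omega), w6_zt']

end Pool.Agent.H69.W
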