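import Mathlib
import Pool.Agent.H69.W.TayW
import Pool.Agent.H76.W.TopZ

set_option autoImplicit false
open Finset Metric Filter Topology

/-! # The Taylor coefficients of the difference of the two worlds (`e = 0`) -/

namespace Pool.Agent.H69.W

open Pool.Agent.H75.Perc hiding AR VV
open Pool.Agent.H75.TwoArm hiding EF
open Pool.Agent.Q1
open Pool.Agent.H33.Q1 (lt tt lt_inj tt_lt)
open Pool.Agent.H40.R45 (aT bT aT_diff bT_diff kapT kapT_diff)
open Pool.Agent.Q1.M6b.ABW (cT)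
open Pool.Agent.H54.W Pool.Agent.H34.W Pool.Agent.H25.W
open Pool.Agent.H76.W
open Pool.Agent.H42.Sp (Ix kt rt)
open Pool.Agent.H81.G1 (zt)
open Pool.Agent.H30.W (Slit SlitEnv)
open Pool.Agent.H32.W.Win
open Pool.Agent.H64.W (OutC)
open Pool.Agent.H85.W (Gz)
open Pool.Agent.H81.W (OutZ)
open Pool.Agent.H86.W (tsys TG)

variable {D : HWin}

/-- the labels of the row are not tiles of caps -/
lemma row_not_cap (S : Slit D) {P : Finset Ix} (hP : ∀ k ∈ P, CPH D S.τ k) :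
    (∀ k ∈ P, lt (kt k) ≠ lt (S.xs, S.y0)) ∧ ∀ k ∈ P, lt (rt k) ≠ lt (S.xs, S.y0) := by
  have hseg := seg_slit S
  have h1 := S.s1
  have h2 := S.s2
  have n1 := S.N_eq
  constructor
  · intro k hk h
    exact hseg.not_cap S.pos (x := S.xs) (by omega) (by omega) (hP k hk) (Or.inl rfl) (lt_inj h)
  · intro k hk h
    exact hseg.not_cap S.pos (x := S.xs) (by omega) (by omega) (hP k hk) (Or.inr rfl) (lt_inj h)

/-- **The difference of the two worlds near `t = 0`**, in the tied environment of the row. -/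
theorem fV_Gz (O : HOut D) (S : Slit D) {ct : ℤ × ℤ} (hc : OutC D ct)
    (P : Finset Ix) (hP : ∀ k ∈ P, CPH D S.τ k) {t : ℂ} (ht : t ∈ ball (0 : ℂ) (1 / 4)) :
    fV D (FI O ct) w6 S.xs S.y0 t = sgc S.xs S.y0 * kapT t *
      Gz (XTH O S.pos P hP) (qS S P t) (lt (S.xs, S.y0)) ct := by
  have h1 := S.s1
  have h2 := S.s2
  have up := S.up
  have r2 := S.r2
  have p1 := S.p_le
  have q1 := S.le_q
  have h3 := S.fl S.xs (by omega) (by omega)
  rw [fV_eq_inc O hc (by omega) (by omega) (by omega) (by omega) S.comp (by omega) (by omega) ht,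
    XV_inc]
  obtain ⟨c1, c2⟩ := row_not_cap S hP
  unfold qS
  rw [Gz_tied c1 c2 hc.symm]
  change kapT t * (sgc S.xs S.y0 * Gz (HWin.XH O S.τ) (opw (aS D S.τ (aT t) (bT t) (cT t) w6
    S.xs (S.y0 + 1))) (lt (S.xs, S.y0)) ct) = _
  ring

/-- **The Taylor coefficients of the difference of the two worlds**, parity `e = 0`. -/
theorem fV_tay0 (A s μ : ℕ) : ∃ Dd : ℝ, 0 ≤ Dd ∧ ∀ R : ℝ, 1 ≤ R →
    ∀ (D : HWin) (O : HOut D) (S : Slit D) (em ct : ℤ × ℤ) (L : ℤ), S.e = 0 → OutC D ct →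
    SlitEnv S (XTH O S.pos (CPHs D S.τ) (cphs_mem S.pos)) (WTH D S.τ (CPHs D S.τ) O.Wo) ∅ em →
    OutZ S (XTH O S.pos (CPHs D S.τ) (cphs_mem S.pos)) em ct → SizeH D S A s R L →
    (tsys D S.τ (TG D S.τ)).Away L (lab ct) →
    ‖iteratedDeriv μ (fun z : ℂ => fV D (FI O ct) w6 S.xs S.y0
      (z * ((R ^ (-(2 / 3) : ℝ) : ℝ) : ℂ))) 0‖ ≤ Dd * R ^ ((2 / 5 : ℝ) - 2 / 3) := by
  obtain ⟨Dd, hD0, hD⟩ := tay_top (ρ := 1 / 2) (Λ := 16) (B0 := 4) (by norm_num) (by norm_num)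
    (by norm_num) A s 1 μ
  refine ⟨Dd, hD0, ?_⟩
  intro R hR D O S em ct L hS hc hE hZ hsz haw
  have hP := cphs_mem (D := D) S.pos
  have key := (hD R hR (fun z => sgc S.xs S.y0 * kapT z) aT bT cT (kapT_diff.const_mul _) aT_diff
    bT_diff Pool.Agent.Q1.M6b.ABW.cT_diff (fun z hz => by
      rw [norm_mul, norm_sgc, one_mul]
      exact (wts_bd hz).1) (fun z hz => (wts_bd hz).2.1) (fun z hz => (wts_bd hz).2.2.1)
    (fun i z hz => (wts_bd hz).2.2.2 i) D O S _ _ em ct L (sx_XTH hS O hP) hE hZ hsz haw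
    (qS S (CPHs D S.τ)) (fun z => qx_qS S _ z) (fun z => (str_qS hP z).1)
    (fun z => (str_qS hP z).2)).2
  have e0 : ((2 / 5 : ℝ) - 2 / 3 * (1 : ℕ)) = (2 / 5 : ℝ) - 2 / 3 := by push_cast; ring
  rw [e0] at key
  refine le_trans (le_of_eq ?_) key
  congr 1
  refine Filter.EventuallyEq.iteratedDeriv_eq μ ?_
  have hcont : Tendsto (fun z : ℂ => z * ((R ^ (-(2 / 3) : ℝ) : ℝ) : ℂ)) (𝓝 0) (𝓝 0) := by
    have h1 : Continuous fun z : ℂ => z * ((R ^ (-(2 / 3) : ℝ) : ℝ) : ℂ) := by fun_prop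
    have h2 := h1.tendsto 0
    rwa [zero_mul] at h2
  filter_upwards [hcont.eventually (isOpen_ball.mem_nhds (mem_ball_self (by norm_num : (0 : ℝ) < 1 / 4)))]
    with z hz
  exact fV_Gz O S hc _ hP hz

end Pool.Agent.H69.W
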