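import Mathlib
import Pool.Agent.H69.W.TayI
import Pool.Agent.H64.W.SizeK
import Pool.Agent.H32.W.Ab8

set_option autoImplicit false
open Finset Metric Filter Topology

/-! # The Taylor coefficients at interior positions of the coarse windows (`e = 0`)

`tayK0` : the Taylor coefficients of the difference of the two worlds at the scale `n ^ (-2/3)` are small, uniformly
in the positions over a compact set of the interior, off the bad positions. `tayK0_f2` : the same for the sum over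
the two colours of the wall tile. -/

namespace Pool.Agent.H69.W

open Pool.Agent.H75.Perc hiding AR VV
open Pool.Agent.H75.TwoArm hiding EF
open Pool.Agent.Q1
open Pool.Agent.H33.Q1 (lt tt lt_inj tt_lt)
open Pool.Agent.Q1.M4 (lat)
open Pool.Agent.H54.W
open Pool.Agent.H76.W
open Pool.Agent.H30.W (Slit SlitEnv)
open Pool.Agent.H32.W.Win
open Pool.Agent.H64.W (OutC NumS size_K)
open Pool.Agent.H81.W (OutZ)
open Pool.Agent.H86.W (tsys TG)
open Pool.Agent.H32.W.Bd (Zv)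
open Pool.Agent.H20.W (OmC)
open Pool.Agent.H93.W (rcol)

/-- the facts about the outside of one row with a string, parity `e = 0` -/
def Emf {D : HWin} (O : HOut D) (S : Slit D) (ct : ℤ × ℤ) : Prop :=
  ∃ em, SlitEnv S (XTH O S.pos (CPHs D S.τ) (cphs_mem S.pos)) (WTH D S.τ (CPHs D S.τ) O.Wo) ∅ em ∧
    OutZ S (XTH O S.pos (CPHs D S.τ) (cphs_mem S.pos)) em ct

/-- **The Taylor coefficients at interior positions**, parity `e = 0`. -/
theorem tayK0 (C : CD) {K : Set ℂ} (hK : K ⊆ OmC C) (hKc : IsCompact K) {η : ℝ} (hη : 0 < η)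
    (μ : ℕ) {ε : ℝ} (hε : 0 < ε) :
    ∃ n0 : ℕ, ∀ n : ℤ, (n0 : ℤ) ≤ n → ∀ (he : n % 2 = 0) (h8 : 8 ≤ n) (cr : ℤ → Bool) (v : ℤ × ℤ),
      lat v / ((n : ℝ) : ℂ) ∈ K → v ∉ Zv C η n → ∀ kl kr : Bool,
      (∀ y, v.2 < y → cr y = kl) → (∀ y, y < v.2 → cr y = kr) →
      (((-v.2 - 1 + n * C.W) % 2 = 0 ↔ kl = true) ∧ ((-v.2 - 1 + n * C.W) % 2 = 1 ↔ kr = true)) →
      ∀ (O : HOut (C.win n he h8 cr).toH) (ct : ℤ × ℤ), lab ct ∉ (C.win n he h8 cr).toH.GA →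
      (∀ (S : Slit (C.win n he h8 cr).toH) (L : ℤ), S.xs = -v.2 - 1 → S.y0 = v.1 - 1 → S.e = 0 →
        S.kl = kl → S.kr = kr → NumS S L → Emf O S ct) →
      ‖iteratedDeriv μ (fun z : ℂ => fV (C.win n he h8 cr).toH (FI O ct) w6 (-v.2 - 1) (v.1 - 1)
        (z * ((((n : ℝ) ^ (-(2 / 3) : ℝ) : ℝ)) : ℂ))) 0‖ ≤ ε := by
  obtain ⟨A, s, n1, hS⟩ := size_K C hK hKc hη
  obtain ⟨Dd, hD0, hD⟩ := fV_tay0 A s μ
  have hlim : Tendsto (fun x : ℝ => Dd * x ^ (-(4 / 15) : ℝ)) atTop (𝓝 0) := by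
    have h := (tendsto_rpow_neg_atTop (show (0 : ℝ) < 4 / 15 by norm_num)).const_mul Dd
    rwa [mul_zero] at h
  obtain ⟨x0, hx0⟩ := eventually_atTop.1 (hlim.eventually (ge_mem_nhds hε))
  obtain ⟨n2, hn2⟩ := exists_nat_ge x0
  refine ⟨max n1 n2, fun n hn he h8 cr v hv hvZ kl kr hkl hkr hpar O ct hct hem => ?_⟩
  have hn1 : (n1 : ℤ) ≤ n := by have := le_max_left n1 n2; omega
  have hn2' : (n2 : ℤ) ≤ n := by have := le_max_right n1 n2; omega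
  obtain ⟨S, L, s1, s2, s3, s4, s5, -, s6, s7⟩ :=
    hS n hn1 he h8 cr v hv hvZ kl kr hkl hkr 0 (by norm_num) (fun _ => hpar)
  obtain ⟨em, he1, he2⟩ := hem S L s1 s2 s3 s4 s5 s7
  have hn0 : (1 : ℝ) ≤ n := by
    have : (1 : ℤ) ≤ n := by omega
    exact_mod_cast this
  have key := hD n hn0 _ O S em ct L s3 (Or.inl hct) he1 he2 s6 (away_ct S s6 hct)
  rw [s1, s2] at key
  refine key.trans ?_
  have h3 : ((2 / 5 : ℝ) - 2 / 3) = -(4 / 15) := by norm_num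
  rw [h3]
  refine hx0 n (hn2.trans ?_)
  exact_mod_cast hn2'

/-- **The Taylor coefficients at interior positions**, both colours of the wall tile, parity `e = 0`. -/
theorem tayK0_f2 (C : CD) {K : Set ℂ} (hK : K ⊆ OmC C) (hKc : IsCompact K) {η : ℝ} (hη : 0 < η)
    (μ : ℕ) {ε : ℝ} (hε : 0 < ε) :
    ∃ n0 : ℕ, ∀ n : ℤ, (n0 : ℤ) ≤ n → ∀ (he : n % 2 = 0) (h8 : 8 ≤ n) (cr : ℤ → Bool) (v : ℤ × ℤ),
      lat v / ((n : ℝ) : ℂ) ∈ K → v ∉ Zv C η n → ∀ kl kr : Bool,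
      (∀ y, v.2 < y → cr y = kl) → (∀ y, y < v.2 → cr y = kr) →
      (((-v.2 - 1 + n * C.W) % 2 = 0 ↔ kl = true) ∧ ((-v.2 - 1 + n * C.W) % 2 = 1 ↔ kr = true)) →
      ∀ (O : HOut (C.win n he h8 cr).toH) (ct : ℤ × ℤ), lab ct ∉ (C.win n he h8 cr).toH.GA →
      (∀ (b : Bool) (S : Slit (rcol (C.win n he h8 cr) v.2 b).toH) (L : ℤ), S.xs = -v.2 - 1 →
        S.y0 = v.1 - 1 → S.e = 0 → S.kl = kl → S.kr = kr → NumS S L →
        Emf (orh O v.2 b) S ct) →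
      ‖iteratedDeriv μ (fun z : ℂ => f2 (C.win n he h8 cr) O ct v.2 (v.1 - 1)
        (z * ((((n : ℝ) ^ (-(2 / 3) : ℝ) : ℝ)) : ℂ))) 0‖ ≤ ε := by
  obtain ⟨n0, h0⟩ := tayK0 C hK hKc hη μ (half_pos hε)
  refine ⟨n0, fun n hn he h8 cr v hv hvZ kl kr hkl hkr hpar O ct hct hem => ?_⟩
  obtain ⟨q1, q2⟩ := norm_qw (C.win n he h8 cr) v.2
  set F : Bool → ℂ → ℂ := fun b z => fV (rcol (C.win n he h8 cr) v.2 b).toH
    (FI (orh O v.2 b) ct) w6 (-v.2 - 1) (v.1 - 1) (z * ((((n : ℝ) ^ (-(2 / 3) : ℝ) : ℝ)) : ℂ)) with hF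
  have hb : ∀ b : Bool, ‖iteratedDeriv μ (F b) 0‖ ≤ ε / 2 := by
    intro b
    exact h0 n hn he h8 (fun y => if y = v.2 then b else cr y) v hv hvZ kl kr
      (fun y hy => by rw [if_neg (by omega)]; exact hkl y hy)
      (fun y hy => by rw [if_neg (by omega)]; exact hkr y hy) hpar (orh O v.2 b) ct hct
      (hem b)
  have hd : ∀ b : Bool, ContDiffAt ℂ μ (F b) 0 := by
    intro b
    have h1 := fV_diff (D := (rcol (C.win n he h8 cr) v.2 b).toH) (FI (orh O v.2 b) ct) w6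
      (-v.2 - 1) (v.1 - 1)
    have h2 : AnalyticAt ℂ (fV (rcol (C.win n he h8 cr) v.2 b).toH
        (FI (orh O v.2 b) ct) w6 (-v.2 - 1) (v.1 - 1)) (0 * ((((n : ℝ) ^ (-(2 / 3) : ℝ) : ℝ)) : ℂ)) := by
      rw [zero_mul]
      exact h1.analyticAt (isOpen_ball.mem_nhds (mem_ball_self (by norm_num)))
    have h3 : AnalyticAt ℂ (fun z : ℂ => z * ((((n : ℝ) ^ (-(2 / 3) : ℝ) : ℝ)) : ℂ)) 0 := by fun_prop
    exact (AnalyticAt.comp (f := fun z : ℂ => z * ((((n : ℝ) ^ (-(2 / 3) : ℝ) : ℝ)) : ℂ)) (x := 0)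
      h2 h3).contDiffAt
  have e1 : (fun z : ℂ => f2 (C.win n he h8 cr) O ct v.2 (v.1 - 1)
      (z * ((((n : ℝ) ^ (-(2 / 3) : ℝ) : ℝ)) : ℂ))) =
      (fun z => (1 - qw (C.win n he h8 cr) v.2) * F false z) +
        fun z => qw (C.win n he h8 cr) v.2 * F true z := rfl
  rw [e1, iteratedDeriv_add (contDiffAt_const.mul (hd false)) (contDiffAt_const.mul (hd true)),
    iteratedDeriv_const_mul_field, iteratedDeriv_const_mul_field]
  refine (norm_add_le _ _).trans ?_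
  rw [norm_mul, norm_mul, q1, q2, one_mul, one_mul]
  linarith [hb false, hb true]

end Pool.Agent.H69.W
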