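import Mathlib
import Pool.Agent.H69.W.WFamE
import Pool.Agent.H40.W.FBs

set_option autoImplicit false
open Finset

/-! # The relations of the windows for the frozen environment of a row with a string -/

namespace Pool.Agent.H69.W

open Pool.Agent.H75.Perc Pool.Agent.H75.TwoArm Pool.Agent.Q1 Pool.Agent.H81.G1
open Pool.Agent.H30.W (Slit SlitEnv ELz EUz XFz l2z EFz)
open Pool.Agent.H81.W (WFam WrZ)
open Pool.Agent.H40.W (FamS slitEnv_mono)
open Pool.Agent.H54.W

variable {D : HWin} {S : Slit D} {X : Env} {W B : Finset (ℤ × ℤ)} {em ct : ℤ × ℤ}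

/-- **The relations of the windows** in the environment `XFz`, with arbitrary weights of the string and of
`em`, if `em` is the first random label of `X` on the path of `ct`. -/
theorem wfam_slit (R : SlitEnv S X W B em) (t : Finset (ℤ × ℤ)) {n0 : ℕ}
    (h1 : ∀ i < n0, lab (X.out^[i] ct) ∉ X.E) (h2 : lab (X.out^[n0] ct) = em) (yc : Fin S.N)
    (a2 b2 : Fin S.M ⊕ Unit → ℂ) :
    WFam (ELz S B) (EUz S B) S.N S.x1 S.y0 yc
      (AE (XFz X S B em t) S.N S.x1 S.y0 (l2z S em) ct a2 b2 (ELz S B) (EUz S B))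
      (WrZ S.x1 S.y0 (ELz S B) (EUz S B)) := by
  refine wfam_E (R.lay t) ?_ a2 b2
  refine TgE.freeze (j := Sum.inr ()) h1 h2 R.emE ?_
  unfold EFz
  refine mem_union_right _ (mem_union_right _ ?_)
  exact mem_image_of_mem (l2z S em) (mem_univ (Sum.inr ()))

/-- **The input of `fbX_slit`.** -/
theorem famS_all (R : SlitEnv S X W ∅ em) {n0 : ℕ} (h1 : ∀ i < n0, lab (X.out^[i] ct) ∉ X.E)
    (h2 : lab (X.out^[n0] ct) = em) (B t : Finset (ℤ × ℤ)) : FamS S X em ct B t :=
  wfam_slit (slitEnv_mono R B) t h1 h2 S.c0 _ _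

end Pool.Agent.H69.W
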